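import Mathlib

/-!
# The concentrated positive reaction
-/

set_option autoImplicit false

open Metric Set Filter Topology

namespace Pool.Agent.Lib.MP_dc9025_an

/-- the smooth background reaction `s(1-s)/(10(1+s²))` -/
noncomputable def gR (s : ℝ) : ℝ := 1 / 10 * ((1 + s) / (1 + s ^ 2) - 1)

/-- the bump -/
noncomputable def bR (s : ℝ) : ℝ :=
  Real.smoothTransition (100 * (s - 9 / 10)) * Real.smoothTransition (200 * (199 / 200 - s))

/-- the reaction used for the counterexample -/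
noncomputable def fR (s : ℝ) : ℝ := gR s + 8 * bR s

theorem gR_eq (s : ℝ) : gR s = 1 / 10 * (s * (1 - s) / (1 + s ^ 2)) := by
  rw [gR]
  have : (1 + s ^ 2) ≠ 0 := by positivity
  field_simp
  ring

theorem bR_nonneg (s : ℝ) : 0 ≤ bR s :=
  mul_nonneg (Real.smoothTransition.nonneg _) (Real.smoothTransition.nonneg _)

theorem bR_le_one (s : ℝ) : bR s ≤ 1 :=
  mul_le_one₀ (Real.smoothTransition.le_one _) (Real.smoothTransition.nonneg _)
    (Real.smoothTransition.le_one _)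

theorem bR_zero_left {s : ℝ} (hs : s ≤ 9 / 10) : bR s = 0 := by
  rw [bR, Real.smoothTransition.zero_of_nonpos (by linarith), zero_mul]

theorem bR_zero_right {s : ℝ} (hs : 199 / 200 ≤ s) : bR s = 0 := by
  rw [bR, Real.smoothTransition.zero_of_nonpos (x := 200 * (199 / 200 - s)) (by linarith),
    mul_zero]

theorem bR_one {s : ℝ} (h1 : 91 / 100 ≤ s) (h2 : s ≤ 99 / 100) : bR s = 1 := by
  rw [bR, Real.smoothTransition.one_of_one_le (by linarith),
    Real.smoothTransition.one_of_one_le (by linarith), one_mul]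

theorem contDiff_gR {n : ℕ∞} : ContDiff ℝ n gR := by
  unfold gR
  apply ContDiff.mul contDiff_const
  apply ContDiff.sub _ contDiff_const
  apply ContDiff.div (by fun_prop) (by fun_prop)
  intro x
  positivity

theorem contDiff_bR {n : ℕ∞} : ContDiff ℝ n bR := by
  unfold bR
  apply ContDiff.mul
  · exact Real.smoothTransition.contDiff.comp (by fun_prop)
  · exact Real.smoothTransition.contDiff.comp (by fun_prop)

theorem contDiff_fR {n : ℕ∞} : ContDiff ℝ n fR :=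
  contDiff_gR.add (contDiff_const.mul contDiff_bR)

theorem compact_bR : HasCompactSupport bR := by
  apply HasCompactSupport.intro (K := Icc (9 / 10) (199 / 200)) isCompact_Icc
  intro s hs
  by_cases h : s ≤ 9 / 10
  · exact bR_zero_left h
  · apply bR_zero_right
    push Not at h
    by_contra h2
    push Not at h2
    exact hs ⟨h.le, h2.le⟩

theorem fR_zero : fR 0 = 0 := by
  rw [fR, bR_zero_left (by norm_num), gR_eq]; norm_num

theorem fR_one : fR 1 = 0 := by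
  rw [fR, bR_zero_right (by norm_num), gR_eq]; norm_num

theorem gR_nonneg {s : ℝ} (h0 : 0 ≤ s) (h1 : s ≤ 1) : 0 ≤ gR s := by
  rw [gR_eq]
  have : 0 ≤ 1 - s := by linarith
  positivity

theorem gR_le {s : ℝ} (h0 : 0 ≤ s) : gR s ≤ s / 10 := by
  rw [gR_eq]
  have h : s * (1 - s) / (1 + s ^ 2) ≤ s := by
    rw [div_le_iff₀ (by positivity)]
    nlinarith [sq_nonneg s, mul_nonneg h0 (sq_nonneg s)]
  linarith

theorem fR_nonneg {s : ℝ} (h0 : 0 ≤ s) (h1 : s ≤ 1) : 0 ≤ fR s := by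
  have := gR_nonneg h0 h1
  have := bR_nonneg s
  rw [fR]; linarith

theorem fR_pos {s : ℝ} (h0 : 0 < s) (h1 : s < 1) : 0 < fR s := by
  have h2 : 0 < gR s := by
    rw [gR_eq]
    have : 0 < 1 - s := by linarith
    positivity
  have := bR_nonneg s
  rw [fR]; linarith

theorem fR_neg {s : ℝ} (h1 : 1 < s) : fR s < 0 := by
  rw [fR, bR_zero_right (by linarith), gR_eq]
  have h2 : 1 - s < 0 := by linarith
  have h3 : s * (1 - s) / (1 + s ^ 2) < 0 := by
    apply div_neg_of_neg_of_pos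
    · nlinarith
    · positivity
  linarith

theorem fR_le_small {s : ℝ} (h0 : 0 ≤ s) (h1 : s ≤ 9 / 10) : fR s ≤ s / 10 := by
  rw [fR, bR_zero_left h1]
  have := gR_le h0
  linarith

theorem fR_le {s : ℝ} (h0 : 0 ≤ s) (h1 : s ≤ 1) : fR s ≤ 81 / 10 := by
  rw [fR]
  have := gR_le h0
  have := bR_le_one s
  linarith

theorem fR_ge {s : ℝ} (h1 : 91 / 100 ≤ s) (h2 : s ≤ 99 / 100) : 8 ≤ fR s := by
  rw [fR, bR_one h1 h2]
  have := gR_nonneg (s := s) (by linarith) (by linarith)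
  linarith

theorem fR_ge_small {s : ℝ} (h0 : 0 ≤ s) (h1 : s ≤ 1 / 10) : 89 / 1000 * s ≤ fR s := by
  rw [fR, bR_zero_left (by linarith), gR_eq]
  have h : 89 / 100 * s ≤ s * (1 - s) / (1 + s ^ 2) := by
    rw [le_div_iff₀ (by positivity)]
    have h2 : (89 / 100) * (1 + s ^ 2) ≤ 1 - s := by nlinarith
    nlinarith
  linarith

/-- auxiliary bounded functions -/
theorem aux_p (s : ℝ) : HasDerivAt (fun s : ℝ => 1 / (1 + s ^ 2))
    (-2 * (s / (1 + s ^ 2)) * (1 / (1 + s ^ 2))) s := by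
  have h1 : HasDerivAt (fun s : ℝ => 1 + s ^ 2) (2 * s) s := by
    simpa using ((hasDerivAt_id' s).pow 2).const_add 1
  have h0 : (1 + s ^ 2) ≠ 0 := by positivity
  have := h1.fun_inv h0
  simp only [one_div]
  refine this.congr_deriv ?_
  field_simp

theorem aux_q (s : ℝ) : HasDerivAt (fun s : ℝ => s / (1 + s ^ 2))
    ((1 / (1 + s ^ 2)) ^ 2 - (s / (1 + s ^ 2)) ^ 2) s := by
  have h1 : HasDerivAt (fun s : ℝ => 1 + s ^ 2) (2 * s) s := by
    simpa using ((hasDerivAt_id' s).pow 2).const_add 1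
  have h0 : (1 + s ^ 2) ≠ 0 := by positivity
  have := (hasDerivAt_id' s).fun_div h1 h0
  refine this.congr_deriv ?_
  field_simp
  ring

theorem abs_p_le (s : ℝ) : |1 / (1 + s ^ 2)| ≤ 1 := by
  rw [abs_of_nonneg (by positivity), div_le_one (by positivity)]
  nlinarith [sq_nonneg s]

theorem abs_q_le (s : ℝ) : |s / (1 + s ^ 2)| ≤ 1 := by
  rw [abs_div, abs_of_pos (by positivity : 0 < 1 + s ^ 2), div_le_one (by positivity)]
  nlinarith [sq_abs s, sq_nonneg (|s| - 1), abs_nonneg s]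

theorem hasDerivAt_gR (s : ℝ) : HasDerivAt gR
    (1 / 10 * (-2 * (s / (1 + s ^ 2)) * (1 / (1 + s ^ 2)) +
      ((1 / (1 + s ^ 2)) ^ 2 - (s / (1 + s ^ 2)) ^ 2))) s := by
  have h := (((aux_p s).add (aux_q s)).sub_const 1).const_mul (1 / 10)
  have e : gR = fun s => 1 / 10 * (1 / (1 + s ^ 2) + s / (1 + s ^ 2) - 1) := by
    ext s; rw [gR, add_div]
  rw [e]
  exact h

theorem lip_gR (x y : ℝ) : |gR x - gR y| ≤ 1 * |x - y| := by
  have h := (convex_univ (𝕜 := ℝ) (E := ℝ)).norm_image_sub_le_of_norm_hasDerivWithin_le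
    (f := gR) (C := 1) (fun x _ => (hasDerivAt_gR x).hasDerivWithinAt) (fun x _ => ?_)
    (mem_univ y) (mem_univ x)
  · simpa using h
  · have h1 := abs_p_le x
    have h2 := abs_q_le x
    rw [abs_le] at h1 h2
    rw [Real.norm_eq_abs, abs_le]
    generalize 1 / (1 + x ^ 2) = p at *
    generalize x / (1 + x ^ 2) = q at *
    constructor <;> nlinarith

theorem lip_deriv_gR (x y : ℝ) : |deriv gR x - deriv gR y| ≤ 2 * |x - y| := by
  have e : deriv gR = fun s => 1 / 10 * (-2 * (s / (1 + s ^ 2)) * (1 / (1 + s ^ 2)) +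
      ((1 / (1 + s ^ 2)) ^ 2 - (s / (1 + s ^ 2)) ^ 2)) := by
    ext s; exact (hasDerivAt_gR s).deriv
  rw [e]
  have hd : ∀ s : ℝ, HasDerivAt (fun s : ℝ => 1 / 10 * (-2 * (s / (1 + s ^ 2)) * (1 / (1 + s ^ 2)) +
      ((1 / (1 + s ^ 2)) ^ 2 - (s / (1 + s ^ 2)) ^ 2))) _ s := fun s =>
    ((((aux_q s).const_mul (-2)).fun_mul (aux_p s)).fun_add
      (((aux_p s).fun_pow 2).fun_sub ((aux_q s).fun_pow 2))).const_mul (1 / 10)
  have h := (convex_univ (𝕜 := ℝ) (E := ℝ)).norm_image_sub_le_of_norm_hasDerivWithin_le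
    (C := 2) (fun x _ => (hd x).hasDerivWithinAt) (fun x _ => ?_)
    (mem_univ y) (mem_univ x)
  · simpa using h
  · have h1 := abs_p_le x
    have h2 := abs_q_le x
    rw [Real.norm_eq_abs]
    generalize 1 / (1 + x ^ 2) = p at *
    generalize x / (1 + x ^ 2) = q at *
    have m : ∀ a b c : ℝ, |a| ≤ 1 → |b| ≤ 1 → |c| ≤ 1 → |a * b * c| ≤ 1 := by
      intro a b c ha hb hc
      rw [abs_mul, abs_mul]
      exact mul_le_one₀ (mul_le_one₀ ha (abs_nonneg _) hb) (abs_nonneg _) hc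
    have m1 := abs_le.1 (m p p p h1 h1 h1)
    have m2 := abs_le.1 (m p q q h1 h2 h2)
    have m3 := abs_le.1 (m p p q h1 h1 h2)
    have m4 := abs_le.1 (m q q q h2 h2 h2)
    have e2 : 1 / 10 * (-2 * (p ^ 2 - q ^ 2) * p + -2 * q * (-2 * q * p) +
        (((2 : ℕ) : ℝ) * p ^ (2 - 1) * (-2 * q * p) - ((2 : ℕ) : ℝ) * q ^ (2 - 1) * (p ^ 2 - q ^ 2))) =
        1 / 10 * (-2 * (p * p * p) + 6 * (p * q * q) - 6 * (p * p * q) + 2 * (q * q * q)) := by
      norm_num
      ring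
    rw [e2, abs_le]
    constructor <;> linarith [m1.1, m1.2, m2.1, m2.2, m3.1, m3.2, m4.1, m4.2]

theorem lip_bR : ∃ C : ℝ, 0 ≤ C ∧ ∀ x y, |bR x - bR y| ≤ C * |x - y| := by
  obtain ⟨C, hC⟩ := (contDiff_bR (n := 1)).lipschitzWith_of_hasCompactSupport compact_bR (by simp)
  refine ⟨C, C.2, fun x y => ?_⟩
  have := hC.dist_le_mul x y
  simpa [Real.dist_eq] using this

theorem lip_deriv_bR : ∃ C : ℝ, 0 ≤ C ∧ ∀ x y, |deriv bR x - deriv bR y| ≤ C * |x - y| := by
  have h1 : ContDiff ℝ 1 (deriv bR) := by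
    have h2 : ContDiff ℝ (1 + 1) bR := by exact_mod_cast contDiff_bR (n := 2)
    exact (contDiff_succ_iff_deriv.1 h2).2.2
  obtain ⟨C, hC⟩ := h1.lipschitzWith_of_hasCompactSupport compact_bR.deriv (by simp)
  refine ⟨C, C.2, fun x y => ?_⟩
  have := hC.dist_le_mul x y
  simpa [Real.dist_eq] using this

theorem lip_fR : ∃ C : ℝ, 0 ≤ C ∧ ∀ x y, |fR x - fR y| ≤ C * |x - y| := by
  obtain ⟨C, hC0, hC⟩ := lip_bR
  refine ⟨1 + 8 * C, by positivity, fun x y => ?_⟩
  have h1 := abs_le.1 (lip_gR x y)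
  have h2 := abs_le.1 (hC x y)
  rw [fR, fR, abs_le]
  constructor <;> nlinarith [h1.1, h1.2, h2.1, h2.2]

theorem lip_deriv_fR : ∃ C : ℝ, 0 ≤ C ∧ ∀ x y, |deriv fR x - deriv fR y| ≤ C * |x - y| := by
  obtain ⟨C, hC0, hC⟩ := lip_deriv_bR
  have hb : Differentiable ℝ bR := (contDiff_bR (n := 1)).differentiable (by norm_num)
  have hg : Differentiable ℝ gR := (contDiff_gR (n := 1)).differentiable (by norm_num)
  have hd : ∀ x, deriv fR x = deriv gR x + 8 * deriv bR x := fun x =>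
    ((hg x).hasDerivAt.add ((hb x).hasDerivAt.const_mul 8)).deriv
  refine ⟨2 + 8 * C, by positivity, fun x y => ?_⟩
  have h1 := abs_le.1 (lip_deriv_gR x y)
  have h2 := abs_le.1 (hC x y)
  rw [hd, hd, abs_le]
  constructor <;> nlinarith [h1.1, h1.2, h2.1, h2.2]

theorem deriv_fR_zero : deriv fR 0 = 1 / 10 := by
  have h : fR =ᶠ[𝓝 0] gR := by
    filter_upwards [eventually_lt_nhds (show (0 : ℝ) < 9 / 10 by norm_num)] with s hs
    rw [fR, bR_zero_left hs.le]; ring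
  rw [h.deriv_eq, (hasDerivAt_gR 0).deriv]
  norm_num

theorem deriv_fR_one : deriv fR 1 = -1 / 20 := by
  have h : fR =ᶠ[𝓝 1] gR := by
    filter_upwards [eventually_gt_nhds (show (199 / 200 : ℝ) < 1 by norm_num)] with s hs
    rw [fR, bR_zero_right hs.le]; ring
  rw [h.deriv_eq, (hasDerivAt_gR 1).deriv]
  norm_num

end Pool.Agent.Lib.MP_dc9025_an
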