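import Pool.Agent.Lib.MP_dc9025_an.Calc
import Pool.Agent.Lib.MP_dc9025_an.Reaction

/-!
# Explicit barriers
-/

set_option autoImplicit false

open Metric Set Filter Topology InnerProductSpace Laplacian

namespace Pool.Agent.Lib.MP_dc9025_an

theorem SupAt.congr {f : ℝ → ℝ} {S S' : ℂ → ℝ} {z : ℂ} (h : SupAt f S z) (he : S' =ᶠ[𝓝 z] S) :
    SupAt f S' z := by
  obtain ⟨σ, h1, h2, h3, h4⟩ := h
  refine ⟨σ, h1, by rw [h2, he.eq_of_nhds], ?_, by rw [he.eq_of_nhds]; exact h4⟩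
  filter_upwards [h3, he] with w hw1 hw2
  rw [hw2]; exact hw1

theorem SupAt.min_left {f : ℝ → ℝ} {S S' : ℂ → ℝ} {z : ℂ} (h : SupAt f S z) (hle : S z ≤ S' z) :
    SupAt f (fun w => min (S w) (S' w)) z := by
  obtain ⟨σ, h1, h2, h3, h4⟩ := h
  refine ⟨σ, h1, by simp only [min_eq_left hle]; exact h2, ?_,
    by simp only [min_eq_left hle]; exact h4⟩
  filter_upwards [h3] with w hw
  exact (min_le_left _ _).trans hw

theorem SupAt.min_right {f : ℝ → ℝ} {S S' : ℂ → ℝ} {z : ℂ} (h : SupAt f S' z) (hle : S' z ≤ S z) :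
    SupAt f (fun w => min (S w) (S' w)) z := by
  have := SupAt.min_left (S' := S) h hle
  refine this.congr (Eventually.of_forall fun w => ?_)
  exact min_comm _ _

theorem SupAt.min {f : ℝ → ℝ} {S S' : ℂ → ℝ} {z : ℂ} (h : SupAt f S z) (h' : SupAt f S' z) :
    SupAt f (fun w => Min.min (S w) (S' w)) z := by
  rcases le_total (S z) (S' z) with hle | hle
  · exact h.min_left hle
  · exact h'.min_right hle

theorem supAt_one {S : ℂ → ℝ} {z : ℂ} (hz : S z = 1) (hle : ∀ᶠ w in 𝓝 z, S w ≤ 1) :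
    SupAt fR S z := by
  refine ⟨fun _ => 1, contDiffAt_const, hz.symm, hle, ?_⟩
  rw [hz, fR_one]
  simp [laplacian_const]

theorem subAt_zero {s : ℂ → ℝ} {z : ℂ} (hz : s z = 0) (hle : ∀ᶠ w in 𝓝 z, 0 ≤ s w) :
    SubAt fR s z := by
  refine ⟨fun _ => 0, contDiffAt_const, hz.symm, hle, ?_⟩
  rw [hz, fR_zero]
  simp [laplacian_const]

/-! ### The radial supersolution -/

/-- profile -/
noncomputable def psi (t : ℝ) : ℝ := 1 - (max 0 (1 - 4 * t)) ^ 2

/-- radial barrier outside a disc -/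
noncomputable def radS (c : ℂ) (r : ℝ) (z : ℂ) : ℝ := psi (‖z - c‖ - r)

theorem continuous_radS (c : ℂ) (r : ℝ) : Continuous (radS c r) := by
  unfold radS psi
  fun_prop

theorem psi_le_one (t : ℝ) : psi t ≤ 1 := by
  rw [psi]
  have := sq_nonneg (max 0 (1 - 4 * t))
  linarith

theorem psi_eq_one {t : ℝ} (ht : 1 / 4 ≤ t) : psi t = 1 := by
  rw [psi, max_eq_left (by linarith)]
  norm_num

theorem psi_nonneg {t : ℝ} (ht : 0 ≤ t) : 0 ≤ psi t := by
  rw [psi]
  have h1 : max 0 (1 - 4 * t) ≤ 1 := max_le (by norm_num) (by linarith)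
  have h2 : 0 ≤ max 0 (1 - 4 * t) := le_max_left _ _
  nlinarith

theorem psi_zero : psi 0 = 0 := by
  rw [psi]; norm_num

theorem psi_mono {s t : ℝ} (h : s ≤ t) : psi s ≤ psi t := by
  rw [psi, psi]
  have h1 : max 0 (1 - 4 * t) ≤ max 0 (1 - 4 * s) := max_le_max le_rfl (by linarith)
  have h2 : 0 ≤ max 0 (1 - 4 * t) := le_max_left _ _
  nlinarith

theorem supAt_radS {c z : ℂ} {r : ℝ} (hr : 1000 ≤ r) (hz : r < ‖z - c‖) :
    SupAt fR (radS c r) z := by
  rcases le_or_gt (1 / 4) (‖z - c‖ - r) with h | h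
  · exact supAt_one (psi_eq_one h) (Eventually.of_forall fun w => psi_le_one _)
  · -- `C²` region
    have hne : z ≠ c := by
      rintro rfl
      simp at hz
      linarith
    have hev : radS c r =ᶠ[𝓝 z] ((fun _ => 1 - (4 * r + 1) ^ 2) +
        (8 * (4 * r + 1)) • (fun w : ℂ => ‖w - c‖)) + (-16 : ℝ) • (fun w : ℂ => ‖w - c‖ ^ 2) := by
      have h1 : ∀ᶠ w in 𝓝 z, ‖w - c‖ - r < 1 / 4 := by
        have hc : ContinuousAt (fun w : ℂ => ‖w - c‖ - r) z := by fun_prop
        exact hc.eventually (gt_mem_nhds h)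
      filter_upwards [h1] with w hw
      simp only [radS, psi, Pi.add_apply, Pi.smul_apply, smul_eq_mul]
      rw [max_eq_right (by linarith)]
      ring
    obtain ⟨d1, d2⟩ := lap_dist hne
    obtain ⟨q1, q2⟩ := laplacian_normSq_sub c z
    have k1 : ContDiffAt ℝ 2 ((8 * (4 * r + 1)) • (fun w : ℂ => ‖w - c‖)) z :=
      ContDiffAt.const_smul (8 * (4 * r + 1)) d1
    have k2 : ContDiffAt ℝ 2 ((-16 : ℝ) • (fun w : ℂ => ‖w - c‖ ^ 2)) z :=
      ContDiffAt.const_smul (-16 : ℝ) q1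
    have k0 : ContDiffAt ℝ 2 (fun _ : ℂ => 1 - (4 * r + 1) ^ 2) z := contDiffAt_const
    refine SupAt.congr (S := ((fun _ => 1 - (4 * r + 1) ^ 2) +
        (8 * (4 * r + 1)) • (fun w : ℂ => ‖w - c‖)) + (-16 : ℝ) • (fun w : ℂ => ‖w - c‖ ^ 2)) ?_ hev
    have k01 : ContDiffAt ℝ 2 ((fun _ : ℂ => 1 - (4 * r + 1) ^ 2) +
        (8 * (4 * r + 1)) • (fun w : ℂ => ‖w - c‖)) z := k0.add k1
    have k012 : ContDiffAt ℝ 2 (((fun _ : ℂ => 1 - (4 * r + 1) ^ 2) +
        (8 * (4 * r + 1)) • (fun w : ℂ => ‖w - c‖)) + (-16 : ℝ) • (fun w : ℂ => ‖w - c‖ ^ 2)) z :=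
      k01.add k2
    refine ⟨_, k012, rfl, Eventually.of_forall fun _ => le_rfl, ?_⟩
    rw [← hev.eq_of_nhds]
    rw [ContDiffAt.laplacian_add k01 k2, ContDiffAt.laplacian_add k0 k1,
      laplacian_smul _ d1, laplacian_smul _ q1, d2, q2, laplacian_const]
    simp only [smul_eq_mul, Pi.zero_apply]
    have hf : fR (radS c r z) ≤ 81 / 10 :=
      fR_le (psi_nonneg (by linarith)) (psi_le_one _)
    have h5 : 8 * (4 * r + 1) * (1 / ‖z - c‖) ≤ 33 := by
      rw [mul_one_div, div_le_iff₀ (by linarith)]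
      nlinarith
    linarith

/-! ### The high subsolution -/

/-- profile of the high subsolution -/
noncomputable def uH (t : ℝ) : ℝ :=
  2471 / 2500 - 4 * (Min.min t (7 / 50)) ^ 2 - 28 / 25 * (t - Min.min t (7 / 50))

theorem uH_of_le {t : ℝ} (h : t ≤ 7 / 50) : uH t = 2471 / 2500 - 4 * t ^ 2 := by
  rw [uH, min_eq_left h]; ring

theorem uH_of_ge {t : ℝ} (h : 7 / 50 ≤ t) : uH t = 91 / 100 - 28 / 25 * (t - 7 / 50) := by
  rw [uH, min_eq_right h]; ring

/-- high subsolution -/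
noncomputable def sH (z : ℂ) : ℝ := max 0 (uH |z.im|)

theorem continuous_sH : Continuous sH := by
  unfold sH uH
  exact continuous_const.max (by
    have : Continuous fun z : ℂ => |z.im| := Complex.continuous_im.abs
    fun_prop)

theorem sH_nonneg (z : ℂ) : 0 ≤ sH z := le_max_left _ _

theorem uH_le {t : ℝ} : uH t ≤ 2471 / 2500 := by
  rcases le_total t (7 / 50) with h | h
  · rw [uH_of_le h]; nlinarith
  · rw [uH_of_ge h]; nlinarith

theorem sH_le (z : ℂ) : sH z ≤ 2471 / 2500 := max_le (by norm_num) uH_le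

theorem sH_zero : sH 0 = 2471 / 2500 := by
  rw [sH, Complex.zero_im, abs_zero, uH_of_le (by norm_num)]
  norm_num

theorem subAt_sH (z : ℂ) : SubAt fR sH z := by
  rcases le_or_gt |z.im| (7 / 50) with hA | hA
  · -- parabola
    have hval : sH z = 2471 / 2500 - 4 * z.im ^ 2 := by
      rw [sH, uH_of_le hA, sq_abs, max_eq_right]
      have : z.im ^ 2 ≤ (7 / 50) ^ 2 := by
        rw [← sq_abs]; gcongr
      nlinarith
    have hC : ContDiffAt ℝ 2 (fun y : ℝ => 2471 / 2500 - 4 * y ^ 2) z.im := by fun_prop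
    obtain ⟨h1, h2, -⟩ := lap_im hC
    have e1 : deriv (fun y : ℝ => 2471 / 2500 - 4 * y ^ 2) = fun y => -8 * y := by
      ext y
      have : HasDerivAt (fun y : ℝ => 2471 / 2500 - 4 * y ^ 2) (-(4 * (2 * y))) y := by
        simpa using (((hasDerivAt_id' y).pow 2).const_mul 4).const_sub (2471 / 2500)
      rw [this.deriv]; ring
    have e2 : deriv (fun y : ℝ => -8 * y) z.im = -8 := by
      simpa using ((hasDerivAt_id' z.im).const_mul (-8)).deriv
    refine ⟨fun w => 2471 / 2500 - 4 * w.im ^ 2, h1, hval.symm, Eventually.of_forall fun w => ?_, ?_⟩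
    · refine le_trans ?_ (le_max_right _ _)
      show 2471 / 2500 - 4 * w.im ^ 2 ≤ uH |w.im|
      rcases le_total |w.im| (7 / 50) with h | h
      · rw [uH_of_le h, sq_abs]
      · rw [uH_of_ge h, ← sq_abs w.im]
        nlinarith [sq_nonneg (|w.im| - 7 / 50)]
    · rw [h2, e1, e2]
      have h3 : z.im ^ 2 ≤ (7 / 50) ^ 2 := by
        rw [← sq_abs]; gcongr
      have h4 : 0 ≤ z.im ^ 2 := sq_nonneg _
      have := fR_ge (s := sH z) (by rw [hval]; nlinarith) (by rw [hval]; nlinarith)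
      linarith
  · rcases le_or_gt (uH |z.im|) 0 with hB | hB
    · exact subAt_zero (max_eq_left hB) (Eventually.of_forall fun w => sH_nonneg w)
    · -- linear part
      have hval : sH z = uH |z.im| := max_eq_right hB.le
      obtain ⟨ε, hε, hεim⟩ : ∃ ε : ℝ, ε * z.im = |z.im| ∧ ∀ᶠ w : ℂ in 𝓝 z, ε * w.im = |w.im| := by
        rcases le_or_gt 0 z.im with h | h
        · have hp : 0 < z.im := by rw [abs_of_nonneg h] at hA; linarith
          refine ⟨1, by rw [abs_of_nonneg h, one_mul], ?_⟩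
          filter_upwards [Complex.continuous_im.continuousAt.eventually (lt_mem_nhds hp)] with w hw
          rw [abs_of_pos hw, one_mul]
        · refine ⟨-1, by rw [abs_of_neg h]; ring, ?_⟩
          filter_upwards [Complex.continuous_im.continuousAt.eventually (gt_mem_nhds h)] with w hw
          rw [abs_of_neg hw]; ring
      have hC : ContDiffAt ℝ 2 (fun y : ℝ => 91 / 100 - 28 / 25 * (ε * y - 7 / 50)) z.im := by
        fun_prop
      obtain ⟨h1, h2, -⟩ := lap_im hC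
      have e1 : deriv (fun y : ℝ => 91 / 100 - 28 / 25 * (ε * y - 7 / 50)) =
          fun _ => -(28 / 25 * ε) := by
        ext y
        have : HasDerivAt (fun y : ℝ => 91 / 100 - 28 / 25 * (ε * y - 7 / 50))
            (-(28 / 25 * (ε * 1))) y :=
          ((((hasDerivAt_id' y).const_mul ε).sub_const (7 / 50)).const_mul (28 / 25)).const_sub
            (91 / 100)
        rw [this.deriv]; ring
      refine ⟨fun w => 91 / 100 - 28 / 25 * (ε * w.im - 7 / 50), h1, ?_, ?_, ?_⟩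
      · show 91 / 100 - 28 / 25 * (ε * z.im - 7 / 50) = sH z
        rw [hval, uH_of_ge hA.le, hε]
      · have hA' : ∀ᶠ w : ℂ in 𝓝 z, 7 / 50 < |w.im| :=
          (Complex.continuous_im.abs.continuousAt).eventually (lt_mem_nhds hA)
        filter_upwards [hεim, hA'] with w hw1 hw2
        rw [hw1, ← uH_of_ge hw2.le]
        exact le_max_right _ _
      · rw [h2, e1]
        simp only [deriv_const', neg_zero]
        exact fR_nonneg (sH_nonneg z) ((sH_le z).trans (by norm_num))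

/-! ### The low subsolution -/

/-- low subsolution: a bump centred at `p` -/
noncomputable def sL (p z : ℂ) : ℝ := 1 / 10 * (max 0 (1 - ‖z - p‖ ^ 2 / 100)) ^ 2

theorem continuous_sL (p : ℂ) : Continuous (sL p) := by
  unfold sL
  fun_prop

theorem sL_nonneg (p z : ℂ) : 0 ≤ sL p z := by
  unfold sL; positivity

theorem sL_le (p z : ℂ) : sL p z ≤ 1 / 10 := by
  unfold sL
  have h1 : max 0 (1 - ‖z - p‖ ^ 2 / 100) ≤ 1 := max_le (by norm_num) (by
    have := sq_nonneg ‖z - p‖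
    linarith)
  have h2 : 0 ≤ max 0 (1 - ‖z - p‖ ^ 2 / 100) := le_max_left _ _
  nlinarith

theorem sL_self (p : ℂ) : sL p p = 1 / 10 := by
  unfold sL
  simp

theorem sL_eq_zero {p z : ℂ} (h : 10 ≤ ‖z - p‖) : sL p z = 0 := by
  unfold sL
  rw [max_eq_left]
  · norm_num
  · nlinarith

theorem grad_normSq (c z : ℂ) : (fderiv ℝ (fun w : ℂ => ‖w - c‖ ^ 2) z 1) ^ 2 +
    (fderiv ℝ (fun w : ℂ => ‖w - c‖ ^ 2) z Complex.I) ^ 2 = 4 * ‖z - c‖ ^ 2 := by
  rw [(hasFDerivAt_normSq_sub c z).fderiv]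
  simp only [gradL_apply]
  rw [← Complex.normSq_eq_norm_sq, Complex.normSq_apply]
  simp
  ring

theorem subAt_sL (p z : ℂ) : SubAt fR (sL p) z := by
  rcases le_or_gt 10 ‖z - p‖ with h | h
  · exact subAt_zero (sL_eq_zero h) (Eventually.of_forall fun w => sL_nonneg p w)
  · have hpos : 0 < 1 - ‖z - p‖ ^ 2 / 100 := by
      have := norm_nonneg (z - p)
      nlinarith
    have hval : sL p z = 1 / 10 * (1 - ‖z - p‖ ^ 2 / 100) ^ 2 := by
      rw [sL, max_eq_right hpos.le]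
    obtain ⟨q1, q2⟩ := laplacian_normSq_sub p z
    have hG : ContDiffAt ℝ 2 (fun x : ℝ => 1 / 10 * (1 - x / 100) ^ 2) (‖z - p‖ ^ 2) := by fun_prop
    obtain ⟨h1, h2⟩ := lap_comp (u := fun w : ℂ => ‖w - p‖ ^ 2) q1 hG
    have e1 : deriv (fun x : ℝ => 1 / 10 * (1 - x / 100) ^ 2) =
        fun x => -(1 / 500) * (1 - x / 100) := by
      ext x
      have : HasDerivAt (fun x : ℝ => 1 / 10 * (1 - x / 100) ^ 2) _ x :=
        ((((hasDerivAt_id' x).div_const 100).const_sub 1).fun_pow 2).const_mul (1 / 10)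
      rw [this.deriv]
      norm_num
      ring
    have e2 : deriv (fun x : ℝ => -(1 / 500) * (1 - x / 100)) (‖z - p‖ ^ 2) = 1 / 50000 := by
      have : HasDerivAt (fun x : ℝ => -(1 / 500) * (1 - x / 100)) _ (‖z - p‖ ^ 2) :=
        (((hasDerivAt_id' (‖z - p‖ ^ 2)).div_const 100).const_sub 1).const_mul (-(1 / 500))
      rw [this.deriv]
      norm_num
    refine ⟨fun w => 1 / 10 * (1 - ‖w - p‖ ^ 2 / 100) ^ 2, h1, hval.symm, ?_, ?_⟩
    · have h3 : ∀ᶠ w in 𝓝 z, ‖w - p‖ < 10 := by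
        have hc : ContinuousAt (fun w : ℂ => ‖w - p‖) z := by fun_prop
        exact hc.eventually (gt_mem_nhds h)
      filter_upwards [h3] with w hw
      have hpos' : 0 < 1 - ‖w - p‖ ^ 2 / 100 := by
        have := norm_nonneg (w - p)
        nlinarith
      rw [sL, max_eq_right hpos'.le]
    · rw [h2, e1, e2, q2, grad_normSq]
      have h5 := fR_ge_small (sL_nonneg p z) (sL_le p z)
      rw [hval] at h5 ⊢
      set Q := 1 - ‖z - p‖ ^ 2 / 100 with hQ
      have h6 : ‖z - p‖ ^ 2 = 100 * (1 - Q) := by rw [hQ]; ring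
      rw [h6]
      nlinarith [sq_nonneg (Q - 1)]

/-! ### The channel supersolution -/

/-- `T = cosh(1.45 x) cos(1.5 y) / 10` -/
noncomputable def TT (z : ℂ) : ℝ := (1 / 10 * Real.cosh (29 / 20 * z.re)) * Real.cos (3 / 2 * z.im)

/-- concave truncation -/
noncomputable def Phi (t : ℝ) : ℝ :=
  Min.min t (11 / 10) - 5 / 2 * (max 0 (Min.min t (11 / 10) - 9 / 10)) ^ 2

theorem continuous_TT : Continuous TT := by
  unfold TT
  exact (continuous_const.mul (Real.continuous_cosh.comp (by fun_prop))).mul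
    (Real.continuous_cos.comp (by fun_prop))

theorem continuous_Phi : Continuous Phi := by
  unfold Phi
  fun_prop

theorem Phi_of_le {t : ℝ} (h : t ≤ 9 / 10) : Phi t = t := by
  rw [Phi, min_eq_left (by linarith), max_eq_left (by linarith)]
  ring

theorem Phi_of_mid {t : ℝ} (h1 : 9 / 10 ≤ t) (h2 : t ≤ 11 / 10) :
    Phi t = t - 5 / 2 * (t - 9 / 10) ^ 2 := by
  rw [Phi, min_eq_left h2, max_eq_right (by linarith)]

theorem Phi_of_ge {t : ℝ} (h : 11 / 10 ≤ t) : Phi t = 1 := by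
  rw [Phi, min_eq_right h, max_eq_right (by norm_num)]
  norm_num

theorem Phi_le_self (t : ℝ) : Phi t ≤ t := by
  rw [Phi]
  have h1 : Min.min t (11 / 10) ≤ t := min_le_left _ _
  have h2 := sq_nonneg (max 0 (Min.min t (11 / 10) - 9 / 10))
  linarith

theorem Phi_le_one (t : ℝ) : Phi t ≤ 1 := by
  rcases le_total t (9 / 10) with h | h
  · rw [Phi_of_le h]; linarith
  · rcases le_total t (11 / 10) with h' | h'
    · rw [Phi_of_mid h h']
      nlinarith [sq_nonneg (t - 11 / 10)]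
    · rw [Phi_of_ge h']

theorem Phi_nonneg {t : ℝ} (ht : 0 ≤ t) : 0 ≤ Phi t := by
  rcases le_total t (9 / 10) with h | h
  · rw [Phi_of_le h]; exact ht
  · rcases le_total t (11 / 10) with h' | h'
    · rw [Phi_of_mid h h']
      nlinarith
    · rw [Phi_of_ge h']; norm_num

theorem TT_facts (z : ℂ) : ContDiffAt ℝ 2 TT z ∧ Δ TT z = -(59 / 400) * TT z ∧
    (29 / 20) ^ 2 * (TT z ^ 2 - 1 / 100) ≤
      (fderiv ℝ TT z 1) ^ 2 + (fderiv ℝ TT z Complex.I) ^ 2 := by
  have hA : ContDiffAt ℝ 2 (fun x : ℝ => 1 / 10 * Real.cosh (29 / 20 * x)) z.re := by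
    apply ContDiffAt.mul contDiffAt_const
    exact (Real.contDiff_cosh.comp (by fun_prop)).contDiffAt
  have hB : ContDiffAt ℝ 2 (fun y : ℝ => Real.cos (3 / 2 * y)) z.im := by
    exact (Real.contDiff_cos.comp (by fun_prop)).contDiffAt
  obtain ⟨a1, a2, a3⟩ := lap_re hA
  obtain ⟨b1, b2, b3⟩ := lap_im hB
  obtain ⟨m1, m2, m3⟩ := lap_mul a1 b1
  have dA : deriv (fun x : ℝ => 1 / 10 * Real.cosh (29 / 20 * x)) =
      fun x => 1 / 10 * (29 / 20 * Real.sinh (29 / 20 * x)) := by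
    ext x
    have : HasDerivAt (fun x : ℝ => 1 / 10 * Real.cosh (29 / 20 * x)) _ x :=
      (((hasDerivAt_id' x).const_mul (29 / 20)).cosh).const_mul (1 / 10)
    rw [this.deriv]; ring
  have dA2 : deriv (fun x : ℝ => 1 / 10 * (29 / 20 * Real.sinh (29 / 20 * x))) z.re =
      (29 / 20) ^ 2 * (1 / 10 * Real.cosh (29 / 20 * z.re)) := by
    have : HasDerivAt (fun x : ℝ => 1 / 10 * (29 / 20 * Real.sinh (29 / 20 * x))) _ z.re :=
      ((((hasDerivAt_id' z.re).const_mul (29 / 20)).sinh).const_mul (29 / 20)).const_mul (1 / 10)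
    rw [this.deriv]; ring
  have dB : deriv (fun y : ℝ => Real.cos (3 / 2 * y)) =
      fun y => -(3 / 2 * Real.sin (3 / 2 * y)) := by
    ext x
    have : HasDerivAt (fun y : ℝ => Real.cos (3 / 2 * y)) _ x :=
      ((hasDerivAt_id' x).const_mul (3 / 2)).cos
    rw [this.deriv]; ring
  have dB2 : deriv (fun y : ℝ => -(3 / 2 * Real.sin (3 / 2 * y))) z.im =
      -((3 / 2) ^ 2 * Real.cos (3 / 2 * z.im)) := by
    have : HasDerivAt (fun y : ℝ => -(3 / 2 * Real.sin (3 / 2 * y))) _ z.im :=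
      ((((hasDerivAt_id' z.im).const_mul (3 / 2)).sin).const_mul (3 / 2)).fun_neg
    rw [this.deriv]; ring
  rw [dA, dA2] at a2
  rw [dB, dB2] at b2
  refine ⟨m1, ?_, ?_⟩
  · have : Δ TT z = _ := m2
    rw [this, a2, b2, a3, a3, b3, b3]
    simp [TT]
    ring
  · have f1 : fderiv ℝ TT z 1 = _ := m3 1
    have f2 : fderiv ℝ TT z Complex.I = _ := m3 Complex.I
    rw [f1, f2, a3, a3, b3, b3, dA, dB]
    simp only [Complex.one_re, Complex.one_im, Complex.I_re, Complex.I_im, mul_zero, mul_one,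
      zero_add, add_zero, TT]
    have hch : Real.cosh (29 / 20 * z.re) ^ 2 - Real.sinh (29 / 20 * z.re) ^ 2 = 1 :=
      Real.cosh_sq_sub_sinh_sq _
    have hcs : Real.sin (3 / 2 * z.im) ^ 2 + Real.cos (3 / 2 * z.im) ^ 2 = 1 :=
      Real.sin_sq_add_cos_sq _
    have hs0 := sq_nonneg (Real.sin (3 / 2 * z.im))
    have hC0 := sq_nonneg (Real.cosh (29 / 20 * z.re))
    have hc0 := sq_nonneg (Real.cos (3 / 2 * z.im))
    generalize Real.cosh (29 / 20 * z.re) = C at *
    generalize Real.sinh (29 / 20 * z.re) = D at *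
    generalize Real.sin (3 / 2 * z.im) = e at *
    generalize Real.cos (3 / 2 * z.im) = c at *
    have hD : D ^ 2 = C ^ 2 - 1 := by linarith
    have hc : c ^ 2 = 1 - e ^ 2 := by linarith
    have e1 : (c * (1 / 10 * (29 / 20 * D))) ^ 2 + (1 / 10 * C * -(3 / 2 * e)) ^ 2 =
        (1 / 100) * ((29 / 20) ^ 2 * (c ^ 2 * D ^ 2) + (3 / 2) ^ 2 * (C ^ 2 * e ^ 2)) := by ring
    have e2 : (29 / 20 : ℝ) ^ 2 * ((1 / 10 * C * c) ^ 2 - 1 / 100) =
        (1 / 100) * ((29 / 20) ^ 2 * (C ^ 2 * c ^ 2 - 1)) := by ring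
    rw [e1, e2, hD, hc]
    have h3 : 0 ≤ C ^ 2 * e ^ 2 := by positivity
    nlinarith

theorem supAt_channel {z : ℂ} (hz : 0 ≤ TT z) : SupAt fR (fun w => Phi (TT w)) z := by
  obtain ⟨t1, t2, t3⟩ := TT_facts z
  rcases le_or_gt (TT z) (9 / 10) with h | h
  · refine ⟨TT, t1, (Phi_of_le h).symm, Eventually.of_forall fun w => Phi_le_self _, ?_⟩
    show fR (Phi (TT z)) ≤ -Δ TT z
    rw [t2, Phi_of_le h]
    have := fR_le_small hz h
    linarith
  · rcases le_or_gt (11 / 10) (TT z) with h' | h'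
    · exact supAt_one (Phi_of_ge h') (Eventually.of_forall fun w => Phi_le_one _)
    · have hG : ContDiffAt ℝ 2 (fun t : ℝ => t - 5 / 2 * (t - 9 / 10) ^ 2) (TT z) := by fun_prop
      obtain ⟨g1, g2⟩ := lap_comp t1 hG
      have e1 : deriv (fun t : ℝ => t - 5 / 2 * (t - 9 / 10) ^ 2) =
          fun t => 1 - 5 * (t - 9 / 10) := by
        ext t
        have : HasDerivAt (fun t : ℝ => t - 5 / 2 * (t - 9 / 10) ^ 2) _ t :=
          (hasDerivAt_id' t).fun_sub
            ((((hasDerivAt_id' t).sub_const (9 / 10)).fun_pow 2).const_mul (5 / 2))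
        rw [this.deriv]
        norm_num
        ring
      have e2 : deriv (fun t : ℝ => 1 - 5 * (t - 9 / 10)) (TT z) = -5 := by
        have : HasDerivAt (fun t : ℝ => 1 - 5 * (t - 9 / 10)) _ (TT z) :=
          (((hasDerivAt_id' (TT z)).sub_const (9 / 10)).const_mul 5).const_sub 1
        rw [this.deriv]
        norm_num
      refine ⟨fun w => TT w - 5 / 2 * (TT w - 9 / 10) ^ 2, g1, ?_, ?_, ?_⟩
      · exact (Phi_of_mid h.le h'.le).symm
      · have h1 : ∀ᶠ w in 𝓝 z, 9 / 10 < TT w :=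
          continuous_TT.continuousAt.eventually (lt_mem_nhds h)
        have h2 : ∀ᶠ w in 𝓝 z, TT w < 11 / 10 :=
          continuous_TT.continuousAt.eventually (gt_mem_nhds h')
        filter_upwards [h1, h2] with w hw1 hw2
        rw [Phi_of_mid hw1.le hw2.le]
      · rw [g2, e1, e2, t2]
        have h5 := fR_le (Phi_nonneg hz) (Phi_le_one (TT z))
        nlinarith

end Pool.Agent.Lib.MP_dc9025_an
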