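import Pool.Agent.Lib.MP_dc9025_an.Compare

/-!
# Computing Laplacians in the plane
-/

set_option autoImplicit false

open Metric Set Filter Topology InnerProductSpace Laplacian

namespace Pool.Agent.Lib.MP_dc9025_an

/-- complex gradient field `u_x - i u_y` -/
noncomputable def cgrad (u : ℂ → ℝ) (z : ℂ) : ℂ :=
  (fderiv ℝ u z 1 : ℝ) - (fderiv ℝ u z Complex.I : ℝ) * Complex.I

theorem gradL_cgrad (u : ℂ → ℝ) (z : ℂ) : gradL (cgrad u z) = fderiv ℝ u z := by
  ext v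
  have hv : v = v.re • (1 : ℂ) + v.im • Complex.I := by
    simp
  conv_rhs => rw [hv]
  rw [map_add, map_smul, map_smul, gradL_apply, cgrad]
  simp
  ring

theorem contDiffAt_cgrad {u : ℂ → ℝ} {z : ℂ} (hu : ContDiffAt ℝ 2 u z) :
    ContDiffAt ℝ 1 (cgrad u) z := by
  have h1 : ContDiffAt ℝ 1 (fderiv ℝ u) z := hu.fderiv_right (by norm_num)
  have h2 : ∀ v : ℂ, ContDiffAt ℝ 1 (fun w => (fderiv ℝ u w v : ℂ)) z := fun v =>
    Complex.ofRealCLM.contDiff.contDiffAt.comp z (h1.clm_apply contDiffAt_const)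
  unfold cgrad
  exact (h2 1).sub ((h2 Complex.I).mul contDiffAt_const)

theorem laplacian_cgrad {u : ℂ → ℝ} {z : ℂ} (hu : ContDiffAt ℝ 2 u z) :
    Δ u z = (fderiv ℝ (cgrad u) z 1).re + (fderiv ℝ (cgrad u) z Complex.I * Complex.I).re := by
  refine (laplacian_of_gradient (contDiffAt_cgrad hu) ?_).2
  filter_upwards [hu.eventually (by simp)] with w hw
  rw [gradL_cgrad]
  exact (hw.differentiableAt (by norm_num)).hasFDerivAt

/-- Laplacian of `G ∘ u`. -/
theorem lap_comp {u : ℂ → ℝ} {z : ℂ} {G : ℝ → ℝ} (hu : ContDiffAt ℝ 2 u z)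
    (hG : ContDiffAt ℝ 2 G (u z)) :
    ContDiffAt ℝ 2 (fun w => G (u w)) z ∧
    Δ (fun w => G (u w)) z = deriv G (u z) * Δ u z + deriv (deriv G) (u z) *
      ((fderiv ℝ u z 1) ^ 2 + (fderiv ℝ u z Complex.I) ^ 2) := by
  have hcomp : ContDiffAt ℝ 2 (fun w => G (u w)) z := hG.comp z hu
  have hG1 : ContDiffAt ℝ 1 (deriv G) (u z) := by
    have h1 : ContDiffAt ℝ 1 (fderiv ℝ G) (u z) := hG.fderiv_right (by norm_num)
    have h2 : deriv G = fun x => fderiv ℝ G x 1 := by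
      ext x; rfl
    rw [h2]
    exact h1.clm_apply contDiffAt_const
  -- the gradient field of the composition
  have hF : ContDiffAt ℝ 1 (fun w => ((deriv G (u w) : ℝ) : ℂ) * cgrad u w) z := by
    have h1 : ContDiffAt ℝ 1 (fun w => ((deriv G (u w) : ℝ) : ℂ)) z :=
      Complex.ofRealCLM.contDiff.contDiffAt.comp z (hG1.comp z (hu.of_le (by norm_num)))
    exact h1.mul (contDiffAt_cgrad hu)
  have hgr : ∀ᶠ w in 𝓝 z, HasFDerivAt (fun w => G (u w))
      (gradL (((deriv G (u w) : ℝ) : ℂ) * cgrad u w)) w := by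
    have e1 : ∀ᶠ w in 𝓝 z, ContDiffAt ℝ 2 u w := hu.eventually (by simp)
    have e2 : ∀ᶠ w in 𝓝 z, ContDiffAt ℝ 2 G (u w) :=
      hu.continuousAt.eventually (hG.eventually (by simp))
    filter_upwards [e1, e2] with w hw1 hw2
    have h1 := (hw2.differentiableAt (by norm_num)).hasDerivAt.comp_hasFDerivAt w
      (hw1.differentiableAt (by norm_num)).hasFDerivAt
    have e3 : gradL (((deriv G (u w) : ℝ) : ℂ) * cgrad u w) = deriv G (u w) • fderiv ℝ u w := by
      rw [← gradL_cgrad, ← map_smul]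
      simp
    rw [e3]
    exact h1
  obtain ⟨h1, h2⟩ := laplacian_of_gradient hF hgr
  refine ⟨hcomp, ?_⟩
  rw [h2, laplacian_cgrad hu]
  have d1 : HasFDerivAt (fun w => ((deriv G (u w) : ℝ) : ℂ))
      (Complex.ofRealCLM.comp (deriv (deriv G) (u z) • fderiv ℝ u z)) z := by
    have h3 := (hG1.differentiableAt (by norm_num)).hasDerivAt.comp_hasFDerivAt z
      (hu.differentiableAt (by norm_num)).hasFDerivAt
    exact Complex.ofRealCLM.hasFDerivAt.comp z h3
  have d2 : HasFDerivAt (cgrad u) (fderiv ℝ (cgrad u) z) z :=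
    ((contDiffAt_cgrad hu).differentiableAt (by norm_num)).hasFDerivAt
  rw [(d1.fun_mul' d2).fderiv]
  simp only [add_apply, smul_apply, smul_eq_mul,
    ContinuousLinearMap.comp_apply, Complex.ofRealCLM_apply]
  unfold cgrad
  simp
  ring

theorem lap_re_aux (z : ℂ) : ContDiffAt ℝ 2 (fun w : ℂ => w.re) z ∧
    Δ (fun w : ℂ => w.re) z = 0 ∧ (∀ v, fderiv ℝ (fun w : ℂ => w.re) z v = v.re) := by
  have h0 : ∀ w, HasFDerivAt (fun w : ℂ => w.re) (gradL 1) w := by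
    intro w
    have : gradL 1 = Complex.reCLM := by ext v; simp
    rw [this]
    exact Complex.reCLM.hasFDerivAt
  obtain ⟨h1, h2⟩ := laplacian_of_gradient (u := fun w : ℂ => w.re) (F := fun _ => 1) (x := z)
    contDiffAt_const (Eventually.of_forall h0)
  refine ⟨h1, by rw [h2]; simp, fun v => ?_⟩
  rw [(h0 z).fderiv]
  simp

theorem lap_im_aux (z : ℂ) : ContDiffAt ℝ 2 (fun w : ℂ => w.im) z ∧
    Δ (fun w : ℂ => w.im) z = 0 ∧ (∀ v, fderiv ℝ (fun w : ℂ => w.im) z v = v.im) := by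
  have h0 : ∀ w, HasFDerivAt (fun w : ℂ => w.im) (gradL (-Complex.I)) w := by
    intro w
    have : gradL (-Complex.I) = Complex.imCLM := by ext v; simp
    rw [this]
    exact Complex.imCLM.hasFDerivAt
  obtain ⟨h1, h2⟩ := laplacian_of_gradient (u := fun w : ℂ => w.im) (F := fun _ => -Complex.I)
    (x := z) contDiffAt_const (Eventually.of_forall h0)
  refine ⟨h1, by rw [h2]; simp, fun v => ?_⟩
  rw [(h0 z).fderiv]
  simp

/-- functions of the real part -/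
theorem lap_re {a : ℝ → ℝ} {z : ℂ} (ha : ContDiffAt ℝ 2 a z.re) :
    ContDiffAt ℝ 2 (fun w : ℂ => a w.re) z ∧ Δ (fun w : ℂ => a w.re) z = deriv (deriv a) z.re ∧
    (∀ v, fderiv ℝ (fun w : ℂ => a w.re) z v = deriv a z.re * v.re) := by
  obtain ⟨h1, h2, h3⟩ := lap_re_aux z
  obtain ⟨h4, h5⟩ := lap_comp (u := fun w : ℂ => w.re) (G := a) h1 ha
  refine ⟨h4, ?_, fun v => ?_⟩
  · rw [h5, h2, h3, h3]; simp
  · have h6 := (ha.differentiableAt (by norm_num)).hasDerivAt.comp_hasFDerivAt z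
      (h1.differentiableAt (by norm_num)).hasFDerivAt
    have : fderiv ℝ (fun w : ℂ => a w.re) z = deriv a z.re • fderiv ℝ (fun w : ℂ => w.re) z :=
      h6.fderiv
    rw [this, smul_apply, h3, smul_eq_mul]

/-- functions of the imaginary part -/
theorem lap_im {a : ℝ → ℝ} {z : ℂ} (ha : ContDiffAt ℝ 2 a z.im) :
    ContDiffAt ℝ 2 (fun w : ℂ => a w.im) z ∧ Δ (fun w : ℂ => a w.im) z = deriv (deriv a) z.im ∧
    (∀ v, fderiv ℝ (fun w : ℂ => a w.im) z v = deriv a z.im * v.im) := by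
  obtain ⟨h1, h2, h3⟩ := lap_im_aux z
  obtain ⟨h4, h5⟩ := lap_comp (u := fun w : ℂ => w.im) (G := a) h1 ha
  refine ⟨h4, ?_, fun v => ?_⟩
  · rw [h5, h2, h3, h3]; simp
  · have h6 := (ha.differentiableAt (by norm_num)).hasDerivAt.comp_hasFDerivAt z
      (h1.differentiableAt (by norm_num)).hasFDerivAt
    have : fderiv ℝ (fun w : ℂ => a w.im) z = deriv a z.im • fderiv ℝ (fun w : ℂ => w.im) z :=
      h6.fderiv
    rw [this, smul_apply, h3, smul_eq_mul]

theorem lap_sq {u : ℂ → ℝ} {z : ℂ} (hu : ContDiffAt ℝ 2 u z) :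
    Δ (fun w => u w ^ 2) z = 2 * u z * Δ u z + 2 *
      ((fderiv ℝ u z 1) ^ 2 + (fderiv ℝ u z Complex.I) ^ 2) := by
  have h1 := (lap_comp (G := fun x => x ^ 2) hu (by fun_prop)).2
  rw [h1]
  have e1 : deriv (fun x : ℝ => x ^ 2) = fun x => 2 * x := by
    ext x; simp
  have e2 : deriv (fun x : ℝ => 2 * x) = fun _ => 2 := by
    ext x
    simpa using ((hasDerivAt_id' x).const_mul 2).deriv
  rw [e1, e2]

theorem lap_mul {u v : ℂ → ℝ} {z : ℂ} (hu : ContDiffAt ℝ 2 u z) (hv : ContDiffAt ℝ 2 v z) :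
    ContDiffAt ℝ 2 (fun w => u w * v w) z ∧
    Δ (fun w => u w * v w) z = u z * Δ v z + v z * Δ u z + 2 * (fderiv ℝ u z 1 * fderiv ℝ v z 1 +
      fderiv ℝ u z Complex.I * fderiv ℝ v z Complex.I) ∧
    (∀ x, fderiv ℝ (fun w => u w * v w) z x = u z * fderiv ℝ v z x + v z * fderiv ℝ u z x) := by
  refine ⟨hu.mul hv, ?_, fun x => ?_⟩
  · have hs : ContDiffAt ℝ 2 (u + v) z := hu.add hv
    have hd : ContDiffAt ℝ 2 (u - v) z := hu.sub hv
    have hs2 : ContDiffAt ℝ 2 (fun w => (u + v) w ^ 2) z := hs.pow 2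
    have hd2 : ContDiffAt ℝ 2 (fun w => (u - v) w ^ 2) z := hd.pow 2
    have e : (fun w => u w * v w) =
        (1 / 4 : ℝ) • ((fun w => (u + v) w ^ 2) - fun w => (u - v) w ^ 2) := by
      ext w
      simp only [Pi.smul_apply, Pi.sub_apply, Pi.add_apply, smul_eq_mul]
      ring
    have hfu := hu.differentiableAt (by norm_num)
    have hfv := hv.differentiableAt (by norm_num)
    have fs : fderiv ℝ (u + v) z = fderiv ℝ u z + fderiv ℝ v z := fderiv_add hfu hfv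
    have fd : fderiv ℝ (u - v) z = fderiv ℝ u z - fderiv ℝ v z := fderiv_sub hfu hfv
    have hsub2 : ContDiffAt ℝ 2 ((fun w => (u + v) w ^ 2) - fun w => (u - v) w ^ 2) z :=
      hs2.sub hd2
    rw [e, laplacian_smul _ hsub2, ContDiffAt.laplacian_sub hs2 hd2, lap_sq hs, lap_sq hd,
      ContDiffAt.laplacian_add hu hv, ContDiffAt.laplacian_sub hu hv, fs, fd]
    simp only [add_apply, sub_apply, Pi.add_apply, Pi.sub_apply, smul_eq_mul]
    ring
  · have := ((hu.differentiableAt (by norm_num)).hasFDerivAt.fun_mul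
      (hv.differentiableAt (by norm_num)).hasFDerivAt).fderiv
    rw [this]
    simp only [add_apply, smul_apply, smul_eq_mul]

/-- Laplacian of the distance to a point. -/
theorem lap_dist {c z : ℂ} (hz : z ≠ c) :
    ContDiffAt ℝ 2 (fun w : ℂ => ‖w - c‖) z ∧ Δ (fun w : ℂ => ‖w - c‖) z = 1 / ‖z - c‖ := by
  have hpos : 0 < ‖z - c‖ := norm_pos_iff.2 (sub_ne_zero.2 hz)
  obtain ⟨h1, h2⟩ := laplacian_normSq_sub c z
  have hsq : ContDiffAt ℝ 2 Real.sqrt (‖z - c‖ ^ 2) :=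
    Real.contDiffAt_sqrt (by positivity)
  obtain ⟨h3, h4⟩ := lap_comp (u := fun w : ℂ => ‖w - c‖ ^ 2) (G := Real.sqrt) h1 hsq
  have e : (fun w : ℂ => √(‖w - c‖ ^ 2)) = fun w => ‖w - c‖ := by
    ext w
    exact Real.sqrt_sq (norm_nonneg _)
  rw [e] at h3 h4
  refine ⟨h3, ?_⟩
  rw [h4, h2, (hasFDerivAt_normSq_sub c z).fderiv]
  have d1 : deriv Real.sqrt (‖z - c‖ ^ 2) = 1 / (2 * ‖z - c‖) := by
    rw [(Real.hasDerivAt_sqrt (by positivity)).deriv, Real.sqrt_sq (norm_nonneg _)]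
  have d2 : deriv (deriv Real.sqrt) (‖z - c‖ ^ 2) = -1 / (4 * ‖z - c‖ ^ 3) := by
    have h5 : deriv Real.sqrt =ᶠ[𝓝 (‖z - c‖ ^ 2)] fun x => 1 / (2 * √x) := by
      have : ∀ᶠ x in 𝓝 (‖z - c‖ ^ 2), x ≠ 0 := by
        have := (isOpen_ne (x := (0 : ℝ))).mem_nhds (show ‖z - c‖ ^ 2 ≠ 0 by positivity)
        exact this
      filter_upwards [this] with x hx
      exact (Real.hasDerivAt_sqrt hx).deriv
    rw [h5.deriv_eq]
    have h6 : HasDerivAt (fun x => 2 * √x) (2 * (1 / (2 * √(‖z - c‖ ^ 2)))) (‖z - c‖ ^ 2) :=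
      (Real.hasDerivAt_sqrt (by positivity)).const_mul 2
    have h7 := (h6.fun_inv (by rw [Real.sqrt_sq (norm_nonneg _)]; positivity))
    have h8 : (fun x : ℝ => 1 / (2 * √x)) = fun x => (2 * √x)⁻¹ := by
      ext x; rw [one_div]
    rw [h8, h7.deriv, Real.sqrt_sq (norm_nonneg _)]
    field_simp
    norm_num
  rw [d1, d2]
  simp only [gradL_apply]
  have e2 : (2 * (starRingEnd ℂ) (z - c) * 1).re ^ 2 +
      (2 * (starRingEnd ℂ) (z - c) * Complex.I).re ^ 2 = 4 * ‖z - c‖ ^ 2 := by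
    rw [← Complex.normSq_eq_norm_sq, Complex.normSq_apply]
    simp
    ring
  rw [e2]
  field_simp
  norm_num

end Pool.Agent.Lib.MP_dc9025_an
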