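import Pool.Agent.Lib.MP_dc9025_an.Solve

/-!
# Touching sub- and supersolutions and the comparison principle on small sets
-/

set_option autoImplicit false

open Metric Set Filter Topology MeasureTheory InnerProductSpace Laplacian

namespace Pool.Agent.Lib.MP_dc9025_an

/-- `S` is touched from above at `z` by a `C²` function `σ` with `-Δσ ≥ f(S)` at `z`. -/
def SupAt (f : ℝ → ℝ) (S : ℂ → ℝ) (z : ℂ) : Prop :=
  ∃ σ : ℂ → ℝ, ContDiffAt ℝ 2 σ z ∧ σ z = S z ∧ (∀ᶠ w in 𝓝 z, S w ≤ σ w) ∧ f (S z) ≤ -Δ σ z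

/-- `s` is touched from below at `z` by a `C²` function `σ` with `-Δσ ≤ f(s)` at `z`. -/
def SubAt (f : ℝ → ℝ) (s : ℂ → ℝ) (z : ℂ) : Prop :=
  ∃ σ : ℂ → ℝ, ContDiffAt ℝ 2 σ z ∧ σ z = s z ∧ (∀ᶠ w in 𝓝 z, σ w ≤ s w) ∧ -Δ σ z ≤ f (s z)

theorem supAt_of_classical {f : ℝ → ℝ} {u : ℂ → ℝ} {z : ℂ} (h1 : ContDiffAt ℝ 2 u z)
    (h2 : Δ u z = -f (u z)) : SupAt f u z :=
  ⟨u, h1, rfl, Eventually.of_forall fun _ => le_rfl, by rw [h2]; simp⟩

theorem subAt_of_classical {f : ℝ → ℝ} {u : ℂ → ℝ} {z : ℂ} (h1 : ContDiffAt ℝ 2 u z)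
    (h2 : Δ u z = -f (u z)) : SubAt f u z :=
  ⟨u, h1, rfl, Eventually.of_forall fun _ => le_rfl, by rw [h2]; simp⟩

/-- The second derivative along a line. -/
theorem second_deriv_line {g : ℂ → ℝ} {z : ℂ} (hg : ContDiffAt ℝ 2 g z) (v : ℂ) :
    (∀ᶠ t : ℝ in 𝓝 0, HasDerivAt (fun t : ℝ => g (z + t • v)) (fderiv ℝ g (z + t • v) v) t) ∧
    HasDerivAt (fun t : ℝ => fderiv ℝ g (z + t • v) v) (iteratedFDeriv ℝ 2 g z ![v, v]) 0 := by
  have hline : ∀ t : ℝ, HasDerivAt (fun t : ℝ => z + t • v) v t := by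
    intro t
    simpa using ((hasDerivAt_id t).smul_const v).const_add z
  have hcont : Tendsto (fun t : ℝ => z + t • v) (𝓝 0) (𝓝 z) := by
    have := (hline 0).continuousAt.tendsto
    simpa using this
  constructor
  · have h1 : ∀ᶠ w in 𝓝 z, ContDiffAt ℝ 2 g w := hg.eventually (by simp)
    filter_upwards [hcont.eventually h1] with t ht
    exact ((ht.differentiableAt (by norm_num)).hasFDerivAt).comp_hasDerivAt t (hline t)
  · have h2 : ContDiffAt ℝ 1 (fderiv ℝ g) z := hg.fderiv_right (by norm_num)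
    have h3 : HasFDerivAt (fderiv ℝ g) (fderiv ℝ (fderiv ℝ g) z) z :=
      (h2.differentiableAt (by norm_num)).hasFDerivAt
    have h3' : HasFDerivAt (fderiv ℝ g) (fderiv ℝ (fderiv ℝ g) z) (z + (0 : ℝ) • v) := by
      simpa using h3
    have h4 : HasDerivAt (fun t : ℝ => fderiv ℝ g (z + t • v)) (fderiv ℝ (fderiv ℝ g) z v) 0 :=
      h3'.comp_hasDerivAt (0 : ℝ) (hline 0)
    have h5 := h4.clm_apply (hasDerivAt_const (0 : ℝ) v)
    rw [iteratedFDeriv_two_apply]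
    simpa using h5

theorem second_deriv_nonpos {g : ℂ → ℝ} {z : ℂ} (hg : ContDiffAt ℝ 2 g z)
    (hmax : IsLocalMax g z) (v : ℂ) : iteratedFDeriv ℝ 2 g z ![v, v] ≤ 0 := by
  obtain ⟨h1, h2⟩ := second_deriv_line hg v
  set h : ℝ → ℝ := fun t => g (z + t • v) with hh
  have hcont : Tendsto (fun t : ℝ => z + t • v) (𝓝 0) (𝓝 z) := by
    have : Tendsto (fun t : ℝ => z + t • v) (𝓝 0) (𝓝 (z + (0 : ℝ) • v)) :=
      Continuous.tendsto (by fun_prop) _
    simpa using this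
  have hd : deriv h =ᶠ[𝓝 0] fun t => fderiv ℝ g (z + t • v) v := by
    filter_upwards [h1] with t ht
    exact ht.deriv
  have hmax' : IsLocalMax h 0 := by
    have := hcont.eventually hmax
    filter_upwards [this] with t ht
    simpa [hh] using ht
  have hd0 : deriv h 0 = 0 := hmax'.deriv_eq_zero
  have hdd : deriv (deriv h) 0 = iteratedFDeriv ℝ 2 g z ![v, v] := by
    rw [hd.deriv_eq]
    exact h2.deriv
  by_contra hpos
  push Not at hpos
  rw [← hdd] at hpos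
  have hcont0 : ContinuousAt h 0 := h1.self_of_nhds.continuousAt
  have hmin := isLocalMin_of_deriv_deriv_pos hpos hd0 hcont0
  have hconst : h =ᶠ[𝓝 0] fun _ => h 0 := by
    filter_upwards [hmax', hmin] with t ht1 ht2
    exact le_antisymm ht1 ht2
  have hdc : deriv h =ᶠ[𝓝 0] deriv (fun _ => h 0) := hconst.deriv
  have : deriv (deriv h) 0 = 0 := by
    rw [hdc.deriv_eq]
    simp
  linarith

theorem laplacian_nonpos {g : ℂ → ℝ} {z : ℂ} (hg : ContDiffAt ℝ 2 g z)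
    (hmax : IsLocalMax g z) : Δ g z ≤ 0 := by
  rw [laplacian_eq_iteratedFDeriv_complexPlane]
  have h1 := second_deriv_nonpos hg hmax 1
  have h2 := second_deriv_nonpos hg hmax Complex.I
  simp only
  linarith

theorem hasFDerivAt_normSq_sub (c z : ℂ) :
    HasFDerivAt (fun z : ℂ => ‖z - c‖ ^ 2) (gradL (2 * (starRingEnd ℂ) (z - c))) z := by
  have h1 : HasFDerivAt (fun z : ℂ => ‖z - c‖ ^ 2) _ z :=
    ((hasFDerivAt_id z).sub_const c).norm_sq
  convert h1 using 1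
  ext v
  simp [gradL_apply, Complex.inner]
  ring

theorem laplacian_normSq_sub (c z : ℂ) :
    ContDiffAt ℝ 2 (fun z : ℂ => ‖z - c‖ ^ 2) z ∧ Δ (fun z : ℂ => ‖z - c‖ ^ 2) z = 4 := by
  have hF : ∀ z : ℂ, HasFDerivAt (fun z : ℂ => 2 * (starRingEnd ℂ) (z - c))
      ((2 : ℂ) • (Complex.conjCLE : ℂ →L[ℝ] ℂ)) z := by
    intro z
    have h1 : HasFDerivAt (fun z : ℂ => (starRingEnd ℂ) (z - c))
        (Complex.conjCLE : ℂ →L[ℝ] ℂ) z := by
      exact (Complex.conjCLE : ℂ →L[ℝ] ℂ).hasFDerivAt.comp z ((hasFDerivAt_id z).sub_const c)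
    simpa using h1.const_mul (2 : ℂ)
  have hC : ContDiff ℝ 1 (fun z : ℂ => 2 * (starRingEnd ℂ) (z - c)) := by
    have h1 : ContDiff ℝ 1 (fun z : ℂ => (starRingEnd ℂ) (z - c)) :=
      (Complex.conjCLE : ℂ →L[ℝ] ℂ).contDiff.comp (contDiff_id.sub contDiff_const)
    exact contDiff_const.mul h1
  obtain ⟨h1, h2⟩ := laplacian_of_gradient (u := fun z : ℂ => ‖z - c‖ ^ 2) (x := z)
    hC.contDiffAt (Eventually.of_forall fun w => hasFDerivAt_normSq_sub c w)
  refine ⟨h1, ?_⟩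
  rw [h2, (hF z).fderiv]
  simp
  norm_num

/-- **Comparison principle** on small sets for touching sub- and supersolutions. -/
theorem cmp {W : Set ℂ} {c : ℂ} {ρ : ℝ} (hWo : IsOpen W) (hWb : W ⊆ ball c ρ) {f : ℝ → ℝ}
    {L : ℝ} (hL0 : 0 ≤ L) (hL : ∀ x y, |f x - f y| ≤ L * |x - y|) (hρ : L * ρ ^ 2 < 4)
    {a b : ℂ → ℝ} (ha : ContinuousOn a (closure W)) (hb : ContinuousOn b (closure W))
    (hsub : ∀ z ∈ W, SubAt f a z) (hsup : ∀ z ∈ W, SupAt f b z)
    (hbd : ∀ z ∈ closure W, z ∉ W → a z ≤ b z) : ∀ z ∈ W, a z ≤ b z := by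
  by_contra hcon
  push Not at hcon
  obtain ⟨z₀, hz₀W, hz₀⟩ := hcon
  have hclb : closure W ⊆ closedBall c ρ := by
    refine (closure_mono hWb).trans ?_
    exact closure_ball_subset_closedBall
  have hcomp : IsCompact (closure W) := (isCompact_closedBall c ρ).of_isClosed_subset
    isClosed_closure hclb
  obtain ⟨x₀, hx₀, hx₀max⟩ := hcomp.exists_isMaxOn ⟨z₀, subset_closure hz₀W⟩ (ha.sub hb)
  set m := a x₀ - b x₀ with hm
  have hmax : ∀ z ∈ closure W, a z - b z ≤ m := fun z hz => hx₀max hz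
  have hmpos : 0 < m := lt_of_lt_of_le (by linarith) (hmax z₀ (subset_closure hz₀W))
  set ε := (m - L * m * ρ ^ 2 / 4) / (2 * (ρ ^ 2 + 1)) with hε
  have hgap : 0 < m - L * m * ρ ^ 2 / 4 := by nlinarith
  have hεpos : 0 < ε := by rw [hε]; positivity
  set κ := L * m / 4 + ε with hκ
  have hκ1 : L * m < 4 * κ := by rw [hκ]; linarith
  have hκ0 : 0 < κ := by
    have : 0 ≤ L * m := mul_nonneg hL0 hmpos.le
    linarith
  have hκ2 : κ * ρ ^ 2 < m := by
    have h1 : ε * ρ ^ 2 < m - L * m * ρ ^ 2 / 4 := by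
      rw [hε, div_mul_eq_mul_div, div_lt_iff₀ (by positivity)]
      nlinarith [sq_nonneg ρ]
    rw [hκ]
    nlinarith
  set D : ℂ → ℝ := fun z => a z - b z + κ * ‖z - c‖ ^ 2 with hD
  have hDc : ContinuousOn D (closure W) :=
    (ha.sub hb).add (Continuous.continuousOn (by fun_prop))
  obtain ⟨y, hy, hymax⟩ := hcomp.exists_isMaxOn ⟨z₀, subset_closure hz₀W⟩ hDc
  have hDy : m ≤ D y := by
    have h1 : D x₀ ≤ D y := hymax hx₀
    have h2 : m ≤ D x₀ := by
      simp only [hD]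
      have : 0 ≤ κ * ‖x₀ - c‖ ^ 2 := by positivity
      linarith
    linarith
  have hyn : ‖y - c‖ ≤ ρ := by
    have := hclb hy
    rwa [mem_closedBall, dist_eq_norm] at this
  have hyk : κ * ‖y - c‖ ^ 2 ≤ κ * ρ ^ 2 := by gcongr
  have hab : 0 < a y - b y := by
    have : D y = a y - b y + κ * ‖y - c‖ ^ 2 := rfl
    linarith
  have hyW : y ∈ W := by
    by_contra hyW
    have := hbd y hy hyW
    linarith
  obtain ⟨σa, sa1, sa2, sa3, sa4⟩ := hsub y hyW
  obtain ⟨σb, sb1, sb2, sb3, sb4⟩ := hsup y hyW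
  obtain ⟨q1, q2⟩ := laplacian_normSq_sub c y
  set g : ℂ → ℝ := (σa - σb) + κ • (fun z : ℂ => ‖z - c‖ ^ 2) with hg
  have hab2 : ContDiffAt ℝ 2 (σa - σb) y := sa1.sub sb1
  have hq2 : ContDiffAt ℝ 2 (κ • (fun z : ℂ => ‖z - c‖ ^ 2)) y := ContDiffAt.const_smul κ q1
  have hgC : ContDiffAt ℝ 2 g y := hab2.add hq2
  have hgmax : IsLocalMax g y := by
    filter_upwards [sa3, sb3, hWo.mem_nhds hyW] with w hw1 hw2 hw3
    have h1 : D w ≤ D y := hymax (subset_closure hw3)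
    simp only [hg, Pi.add_apply, Pi.sub_apply, Pi.smul_apply, smul_eq_mul]
    simp only [hD] at h1
    rw [sa2, sb2]
    linarith
  have hlap := laplacian_nonpos hgC hgmax
  rw [hg, ContDiffAt.laplacian_add hab2 hq2, ContDiffAt.laplacian_sub sa1 sb1,
    laplacian_smul _ q1, q2] at hlap
  simp only [smul_eq_mul] at hlap
  have h1 : f (a y) - f (b y) ≤ L * (a y - b y) := by
    have := (abs_le.1 (hL (a y) (b y))).2
    rwa [abs_of_pos hab] at this
  have h2 : L * (a y - b y) ≤ L * m := mul_le_mul_of_nonneg_left (hmax y hy) hL0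
  linarith

end Pool.Agent.Lib.MP_dc9025_an
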