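import Pool.Agent.Lib.MP_dc9025_an.Compare

/-!
# Strong maximum principle for superharmonic functions in the plane
-/

set_option autoImplicit false

open Metric Set Filter Topology MeasureTheory InnerProductSpace Laplacian

namespace Pool.Agent.Lib.MP_dc9025_an

theorem superharmonic_ge_poi {u : ℂ → ℝ} {c : ℂ} {ρ : ℝ} (hρ : 0 < ρ)
    (hu : ∀ z ∈ closedBall c ρ, ContDiffAt ℝ 2 u z ∧ Δ u z ≤ 0) :
    ∀ z ∈ ball c ρ, poi c ρ u z ≤ u z := by
  have huc : ContinuousOn u (closedBall c ρ) := fun z hz => (hu z hz).1.continuousAt.continuousWithinAt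
  have hus : ContinuousOn u (sphere c ρ) := huc.mono sphere_subset_closedBall
  have hcl : closure (ball c ρ) = closedBall c ρ := closure_ball c hρ.ne'
  have hhc := continuousOn_hext hρ hus
  intro z hz
  have h := cmp (f := fun _ => 0) (L := 0) isOpen_ball (Subset.refl (ball c ρ)) le_rfl
    (by simp) (by simp) (a := hext c ρ u) (b := u) (by rwa [hcl]) (by rwa [hcl]) ?_ ?_ ?_ z hz
  · rwa [hext_of_mem hz] at h
  · intro y hy
    have hh := poi_harmonic (hus.circleIntegrable hρ.le) hy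
    have he : hext c ρ u =ᶠ[𝓝 y] poi c ρ u := by
      filter_upwards [isOpen_ball.mem_nhds hy] with w hw
      exact hext_of_mem hw
    refine ⟨hext c ρ u, hh.1.congr_of_eventuallyEq he, rfl, Eventually.of_forall fun _ => le_rfl, ?_⟩
    rw [(laplacian_congr_nhds he).eq_of_nhds, hh.2.eq_of_nhds]
    simp
  · intro y hy
    refine ⟨u, (hu y (ball_subset_closedBall hy)).1, rfl, Eventually.of_forall fun _ => le_rfl, ?_⟩
    have := (hu y (ball_subset_closedBall hy)).2
    simp only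
    linarith
  · intro y _ hyb
    rw [hext_of_notMem hyb]

theorem zero_on_sphere {u : ℂ → ℝ} {c : ℂ} {ρ : ℝ} (hρ : 0 < ρ)
    (hu : ∀ z ∈ closedBall c ρ, ContDiffAt ℝ 2 u z ∧ Δ u z ≤ 0)
    (h0 : ∀ z ∈ closedBall c ρ, 0 ≤ u z) (hc : u c = 0) : ∀ z ∈ sphere c ρ, u z = 0 := by
  have huc : ContinuousOn u (closedBall c ρ) := fun z hz => (hu z hz).1.continuousAt.continuousWithinAt
  have h1 := superharmonic_ge_poi hρ hu c (mem_ball_self hρ)
  rw [hc] at h1
  by_contra hcon
  push Not at hcon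
  obtain ⟨ζ, hζ, hζ0⟩ := hcon
  have hζpos : 0 < u ζ := lt_of_le_of_ne (h0 ζ (sphere_subset_closedBall hζ)) (Ne.symm hζ0)
  have e1 : poi c ρ u c = Real.circleAverage u c ρ := by
    rw [poi]
    apply Real.circleAverage_congr_sphere
    intro y hy
    rw [abs_of_pos hρ, mem_sphere, dist_eq_norm] at hy
    have : poissonKernel c c y = 1 := by
      rw [poissonKernel_def]
      simp only [sub_self, norm_zero, sub_zero, hy]
      field_simp
      simp
    simp only [this, one_mul]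
  rw [e1, Real.circleAverage_def] at h1
  have hcm : ∀ θ : ℝ, circleMap c ρ θ ∈ closedBall c ρ := fun θ =>
    sphere_subset_closedBall (circleMap_mem_sphere c hρ.le θ)
  have hcc : Continuous (fun θ : ℝ => u (circleMap c ρ θ)) :=
    huc.comp_continuous (continuous_circleMap c ρ) hcm
  have hpos : 0 < ∫ θ in (0 : ℝ)..2 * Real.pi, u (circleMap c ρ θ) := by
    apply intervalIntegral.integral_pos (by positivity) hcc.continuousOn
    · intro θ _
      exact h0 _ (hcm θ)
    · -- the point `ζ` is on the circle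
      have himg : ζ ∈ circleMap c ρ '' Ioc 0 (2 * Real.pi) := by
        rw [image_circleMap_Ioc, abs_of_pos hρ]; exact hζ
      obtain ⟨θ, hθ, hθ2⟩ := himg
      exact ⟨θ, Ioc_subset_Icc_self hθ, by rw [hθ2]; exact hζpos⟩
  have : 0 < (2 * Real.pi)⁻¹ • ∫ θ in (0 : ℝ)..2 * Real.pi, u (circleMap c ρ θ) := by
    rw [smul_eq_mul]; positivity
  linarith

/-- **Strong maximum principle**. -/
theorem strong_max {Ω : Set ℂ} (hΩ : IsOpen Ω) (hpc : IsPreconnected Ω) {u : ℂ → ℝ}
    (hu : ∀ z ∈ Ω, ContDiffAt ℝ 2 u z ∧ Δ u z ≤ 0) (h0 : ∀ z ∈ Ω, 0 ≤ u z)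
    (hne : ∃ z ∈ Ω, 0 < u z) : ∀ z ∈ Ω, 0 < u z := by
  by_contra hcon
  push Not at hcon
  obtain ⟨z₀, hz₀, hz₀u⟩ := hcon
  have hcont : ContinuousOn u Ω := fun z hz => (hu z hz).1.continuousAt.continuousWithinAt
  set A : Set ℂ := {z | z ∈ Ω ∧ 0 < u z} with hA
  set Z : Set ℂ := {z | z ∈ Ω ∧ u z = 0} with hZ
  have hAo : IsOpen A := by
    have : A = Ω ∩ u ⁻¹' Ioi 0 := by ext z; rfl
    rw [this]
    exact hcont.isOpen_inter_preimage hΩ isOpen_Ioi
  have hZo : IsOpen Z := by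
    rw [Metric.isOpen_iff]
    rintro z ⟨hz, hzu⟩
    obtain ⟨ε, hε, hεb⟩ := Metric.isOpen_iff.1 hΩ z hz
    refine ⟨ε, hε, fun y hy => ⟨hεb hy, ?_⟩⟩
    rcases eq_or_ne y z with rfl | hyz
    · exact hzu
    · have hd : 0 < dist y z := dist_pos.2 hyz
      have hsub : closedBall z (dist y z) ⊆ Ω := by
        refine Subset.trans ?_ hεb
        intro w hw
        rw [mem_closedBall] at hw
        rw [mem_ball] at hy ⊢
        linarith
      exact zero_on_sphere hd (fun w hw => hu w (hsub hw)) (fun w hw => h0 w (hsub hw)) hzu y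
        (by rw [mem_sphere])
  obtain ⟨w, hw, hwu⟩ := hne
  have := hpc A Z hAo hZo (fun z hz => by
    rcases (h0 z hz).lt_or_eq with h | h
    · exact Or.inl ⟨hz, h⟩
    · exact Or.inr ⟨hz, h.symm⟩) ⟨w, hw, hw, hwu⟩ ⟨z₀, hz₀, hz₀, le_antisymm hz₀u (h0 z₀ hz₀)⟩
  obtain ⟨x, _, hx1, hx2⟩ := this
  have := hx1.2
  rw [hx2.2] at this
  exact lt_irrefl _ this

end Pool.Agent.Lib.MP_dc9025_an
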