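import Pool.Agent.Lib.MP_dc9025_an.Compare

/-!
# The method of sub- and supersolutions in an arbitrary plane open set
-/

set_option autoImplicit false

open Metric Set Filter Topology MeasureTheory InnerProductSpace Laplacian

namespace Pool.Agent.Lib.MP_dc9025_an

/-! ### Passage to the limit in the integral equation -/

theorem poi_tendsto_dct {c z : ℂ} {r M : ℝ} (hz : z ∈ ball c r) {φs : ℕ → ℂ → ℝ} {φ : ℂ → ℝ}
    (hc : ∀ n, ContinuousOn (φs n) (sphere c r)) (hM : ∀ n, ∀ ζ ∈ sphere c r, |φs n ζ| ≤ M)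
    (hlim : ∀ ζ ∈ sphere c r, Tendsto (fun n => φs n ζ) atTop (𝓝 (φ ζ))) :
    CircleIntegrable φ c r ∧ Tendsto (fun n => poi c r (φs n) z) atTop (𝓝 (poi c r φ z)) := by
  have hr : 0 < r := pos_of_mem_ball hz
  have hcm : ∀ θ : ℝ, circleMap c r θ ∈ sphere c r := fun θ => circleMap_mem_sphere c hr.le θ
  have hcc : ∀ n, Continuous (fun θ : ℝ => φs n (circleMap c r θ)) := fun n =>
    (hc n).comp_continuous (continuous_circleMap c r) hcm
  have hmeas : AEStronglyMeasurable (fun θ : ℝ => φ (circleMap c r θ)) volume :=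
    aestronglyMeasurable_of_tendsto_ae atTop (fun n => (hcc n).aestronglyMeasurable)
      (Eventually.of_forall fun θ => hlim _ (hcm θ))
  have hφM : ∀ ζ ∈ sphere c r, |φ ζ| ≤ M := fun ζ hζ =>
    le_of_tendsto (hlim ζ hζ).abs (Eventually.of_forall fun n => hM n ζ hζ)
  constructor
  · unfold CircleIntegrable
    refine IntervalIntegrable.mono_fun' (g := fun _ => M) intervalIntegrable_const
      hmeas.restrict (Eventually.of_forall fun θ => ?_)
    exact hφM _ (hcm θ)
  · unfold poi Real.circleAverage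
    apply Tendsto.const_smul
    obtain ⟨P, hP⟩ := (isCompact_sphere c r).exists_bound_of_continuousOn
      (abs_of_pos hr ▸ continuousOn_pk hz)
    have hPc : Continuous (fun θ : ℝ => poissonKernel c z (circleMap c r θ)) :=
      (continuousOn_pk hz).comp_continuous (continuous_circleMap c r) (by
        intro θ; rw [abs_of_pos hr]; exact hcm θ)
    refine intervalIntegral.tendsto_integral_filter_of_dominated_convergence (fun _ => P * M)
      (Eventually.of_forall fun n => ?_) (Eventually.of_forall fun n => ?_)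
      intervalIntegrable_const ?_
    · exact (hPc.mul (hcc n)).aestronglyMeasurable
    · refine Eventually.of_forall fun θ _ => ?_
      rw [norm_mul]
      exact mul_le_mul (hP _ (hcm θ)) (hM n _ (hcm θ)) (norm_nonneg _)
        ((norm_nonneg _).trans (hP _ (hcm θ)))
    · refine Eventually.of_forall fun θ _ => ?_
      exact (hlim _ (hcm θ)).const_mul _

theorem pot_tendsto_dct {c : ℂ} {r K : ℝ} {ks : ℕ → ℂ → ℝ} {k : ℂ → ℝ}
    (hk : ∀ n, Dens (ks n) c r K) (hlim : ∀ y, Tendsto (fun n => ks n y) atTop (𝓝 (k y))) :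
    Dens k c r K ∧ (∀ z, Tendsto (fun n => pot (ks n) z) atTop (𝓝 (pot k z))) := by
  have hD : Dens k c r K := by
    refine ⟨(hk 0).hR, aestronglyMeasurable_of_tendsto_ae atTop (fun n => (hk n).meas)
      (Eventually.of_forall hlim), fun y => ?_, fun y hy => ?_⟩
    · exact le_of_tendsto (hlim y).abs (Eventually.of_forall fun n => (hk n).bound y)
    · have : Tendsto (fun n => ks n y) atTop (𝓝 0) := by
        apply tendsto_const_nhds.congr
        intro n
        exact ((hk n).supp y hy).symm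
      exact tendsto_nhds_unique (hlim y) this
  refine ⟨hD, fun z => ?_⟩
  have hK := hD.nonneg
  have hDK : Dens ((closedBall c r).indicator fun _ => K) c r K := by
    refine ⟨(hk 0).hR, ?_, fun y => ?_, fun y hy => indicator_of_notMem hy _⟩
    · exact (aestronglyMeasurable_indicator_iff measurableSet_closedBall).2
        aestronglyMeasurable_const
    · by_cases hy : y ∈ closedBall c r
      · rw [indicator_of_mem hy, abs_of_nonneg hK]
      · rw [indicator_of_notMem hy, abs_zero]; exact hK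
  refine tendsto_integral_of_dominated_convergence
    (fun y => ‖Real.log ‖z - y‖ * (closedBall c r).indicator (fun _ => K) y‖)
    (fun n => ((hk n).int_log z).aestronglyMeasurable) (hDK.int_log z).norm
    (fun n => Eventually.of_forall fun y => ?_) (Eventually.of_forall fun y => ?_)
  · rw [norm_mul, norm_mul]
    apply mul_le_mul_of_nonneg_left _ (norm_nonneg _)
    by_cases hy : y ∈ closedBall c r
    · rw [indicator_of_mem hy, Real.norm_of_nonneg hK]
      exact (hk n).bound y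
    · rw [(hk n).supp y hy]; simp
  · exact (hlim y).const_mul _

theorem pot_unif_bound {c : ℂ} {r K : ℝ} (hr1 : r ≤ 1) (hr : 0 < r) (hK : 0 ≤ K) :
    ∃ M, ∀ k, Dens k c r K → ∀ ζ ∈ closedBall c r, |pot k ζ| ≤ M := by
  have hDK : Dens ((closedBall c r).indicator fun _ => K) c r K := by
    refine ⟨hr.le, ?_, fun y => ?_, fun y hy => indicator_of_notMem hy _⟩
    · exact (aestronglyMeasurable_indicator_iff measurableSet_closedBall).2
        aestronglyMeasurable_const
    · by_cases hy : y ∈ closedBall c r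
      · rw [indicator_of_mem hy, abs_of_nonneg hK]
      · rw [indicator_of_notMem hy, abs_zero]; exact hK
  refine ⟨cG * K * (2 * r) +
    ∫ y, ‖Real.log ‖c - y‖ * (closedBall c r).indicator (fun _ => K) y‖, fun k hk ζ hζ => ?_⟩
  have h1 := hk.pot_sub_le hr1 (mem_closedBall_self hr.le) hζ
  have h2 : |pot k c| ≤
      ∫ y, ‖Real.log ‖c - y‖ * (closedBall c r).indicator (fun _ => K) y‖ := by
    rw [← Real.norm_eq_abs]
    apply norm_integral_le_of_norm_le (hDK.int_log c).norm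
    refine Eventually.of_forall fun y => ?_
    rw [norm_mul, norm_mul]
    apply mul_le_mul_of_nonneg_left _ (norm_nonneg _)
    by_cases hy : y ∈ closedBall c r
    · rw [indicator_of_mem hy, Real.norm_of_nonneg hK]
      exact hk.bound y
    · rw [hk.supp y hy]; simp
  have h3 : |pot k ζ| ≤ |pot k ζ - pot k c| + |pot k c| := by
    have := abs_add_le (pot k ζ - pot k c) (pot k c)
    simpa using this
  linarith

/-- Passage to the limit in lifts. -/
theorem lift_limit {f : ℝ → ℝ} (hf : ContDiff ℝ 1 f) {c : ℂ} {r M : ℝ} (hr : 0 < r) (hr1 : r ≤ 1)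
    {vs ws : ℕ → ℂ → ℝ} {u : ℂ → ℝ}
    (hvc : ∀ n, ContinuousOn (vs n) (closedBall c r))
    (hvM : ∀ n, ∀ z ∈ closedBall c r, |vs n z| ≤ M)
    (hwM : ∀ n, ∀ z ∈ closedBall c r, |ws n z| ≤ M)
    (hv : ∀ z ∈ closedBall c r, Tendsto (fun n => vs n z) atTop (𝓝 (u z)))
    (hw : ∀ z ∈ closedBall c r, Tendsto (fun n => ws n z) atTop (𝓝 (u z)))
    (hl : ∀ n, IsLift f c r (vs n) (ws n)) :
    ∀ z ∈ ball c r, ContDiffAt ℝ 2 u z ∧ Δ u z = -f (u z) := by
  -- bound for `f`
  obtain ⟨K, hK⟩ := (isCompact_Icc (a := -M) (b := M)).exists_bound_of_continuousOn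
    hf.continuous.continuousOn
  have hM0 : 0 ≤ M := (abs_nonneg _).trans (hvM 0 c (mem_closedBall_self hr.le))
  have hK0 : 0 ≤ K := (norm_nonneg _).trans (hK 0 ⟨by linarith, hM0⟩)
  set ks : ℕ → ℂ → ℝ := fun n => (ball c r).indicator (fun y => f (ws n y)) with hks
  set k : ℂ → ℝ := (ball c r).indicator (fun y => f (u y)) with hk
  have hkD : ∀ n, Dens (ks n) c r K := by
    intro n
    apply dens_of_continuousOn hr.le _ hK0
    · intro z hz
      exact hK _ (abs_le.1 (hwM n z (ball_subset_closedBall hz)))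
    · exact hf.continuous.comp_continuousOn ((hl n).cont.mono ball_subset_closedBall)
  have hklim : ∀ y, Tendsto (fun n => ks n y) atTop (𝓝 (k y)) := by
    intro y
    by_cases hy : y ∈ ball c r
    · simp only [hks, hk, indicator_of_mem hy]
      exact (hf.continuous.tendsto _).comp (hw y (ball_subset_closedBall hy))
    · simp only [hks, hk, indicator_of_notMem hy]
      exact tendsto_const_nhds
  obtain ⟨hD, hpot⟩ := pot_tendsto_dct hkD hklim
  obtain ⟨Mp, hMp⟩ := pot_unif_bound (c := c) hr1 hr hK0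
  have hvs : ∀ n, ContinuousOn (vs n) (sphere c r) := fun n =>
    (hvc n).mono sphere_subset_closedBall
  have hcirc : CircleIntegrable u c r :=
    (poi_tendsto_dct (z := c) (mem_ball_self hr) hvs
      (fun n ζ hζ => hvM n ζ (sphere_subset_closedBall hζ))
      (fun ζ hζ => hv ζ (sphere_subset_closedBall hζ))).1
  apply bootstrap hf hr hcirc hD
  intro z hz
  have t1 : Tendsto (fun n => poi c r (vs n) z) atTop (𝓝 (poi c r u z)) :=
    (poi_tendsto_dct hz hvs
      (fun n ζ hζ => hvM n ζ (sphere_subset_closedBall hζ))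
      (fun ζ hζ => hv ζ (sphere_subset_closedBall hζ))).2
  have t2 : Tendsto (fun n => poi c r (pot (ks n)) z) atTop (𝓝 (poi c r (pot k) z)) :=
    (poi_tendsto_dct hz (fun n => (hkD n).continuous_pot.continuousOn)
      (fun n ζ hζ => hMp _ (hkD n) ζ (sphere_subset_closedBall hζ))
      (fun ζ _ => hpot ζ)).2
  have t3 : Tendsto (fun n => poi c r (vs n) z + grn c r (ks n) z) atTop
      (𝓝 (poi c r u z + grn c r k z)) := by
    apply t1.add
    unfold grn
    rw [hext_of_mem hz]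
    simp only [hext_of_mem hz]
    exact (t2.sub (hpot z)).div_const _
  have t4 : Tendsto (fun n => poi c r (vs n) z + grn c r (ks n) z) atTop (𝓝 (u z)) := by
    refine (hw z (ball_subset_closedBall hz)).congr fun n => ?_
    rw [(hl n).eq z, hext_of_mem hz]
  exact tendsto_nhds_unique t4 t3

/-! ### The Schwarz-Perron iteration -/

/-- Standing assumptions on the nonlinearity and the maximal radius. -/
structure Prob (f : ℝ → ℝ) (L r₀ : ℝ) : Prop where
  C1 : ContDiff ℝ 1 f
  L0 : 0 ≤ L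
  lip : ∀ x y, |f x - f y| ≤ L * |x - y|
  r0 : 0 < r₀
  r1 : r₀ ≤ 1
  r2 : cG * L * r₀ ≤ 1 / 2
  r3 : L * r₀ ^ 2 < 4

theorem Prob.exists_radius {f : ℝ → ℝ} {L : ℝ} (h1 : ContDiff ℝ 1 f) (h2 : 0 ≤ L)
    (h3 : ∀ x y, |f x - f y| ≤ L * |x - y|) : ∃ r₀, Prob f L r₀ := by
  have hG := cG_nonneg
  have hGL : 0 ≤ cG * L := mul_nonneg hG h2
  set D := 2 * (cG * L + L + 1) with hD
  have hDpos : 0 < D := by rw [hD]; positivity
  have hD1 : 1 ≤ D := by rw [hD]; linarith
  refine ⟨1 / D, h1, h2, h3, by positivity, ?_, ?_, ?_⟩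
  · rw [div_le_one hDpos]; exact hD1
  · rw [mul_one_div, div_le_iff₀ hDpos]
    rw [hD]; linarith
  · have e : L * (1 / D) ^ 2 = L / D * (1 / D) := by ring
    have h4 : L / D ≤ 1 := by rw [div_le_one hDpos, hD]; linarith
    have h5 : 1 / D ≤ 1 := by rw [div_le_one hDpos]; exact hD1
    have h6 : 0 ≤ L / D := by positivity
    have h7 : 0 ≤ 1 / D := by positivity
    rw [e]; nlinarith

variable {f : ℝ → ℝ} {L r₀ : ℝ}

theorem Prob.lt4 (P : Prob f L r₀) {r : ℝ} (hr : 0 < r) (hr0 : r ≤ r₀) : L * r ^ 2 < 4 := by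
  have h1 : r ^ 2 ≤ r₀ ^ 2 := by gcongr
  have h2 := mul_le_mul_of_nonneg_left h1 P.L0
  linarith [P.r3]

theorem Prob.exists_lift (P : Prob f L r₀) {c : ℂ} {r : ℝ} (hr : 0 < r) (hr0 : r ≤ r₀)
    {v : ℂ → ℝ} (hv : ContinuousOn v (sphere c r)) : ∃ v', IsLift f c r v v' := by
  refine Pool.Agent.Lib.MP_dc9025_an.exists_lift P.L0 P.lip P.C1.continuous hr
    (hr0.trans P.r1) ?_ hv
  have h2 := mul_le_mul_of_nonneg_left hr0 (mul_nonneg cG_nonneg P.L0)
  linarith [P.r2]

theorem lift_continuousOn {Ω : Set ℂ} {c : ℂ} {r : ℝ} {v v' : ℂ → ℝ}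
    (hv : ContinuousOn v Ω) (h : IsLift f c r v v') :
    ContinuousOn v' Ω := by
  intro z hz
  by_cases hzb : z ∈ closedBall c r
  · -- `Ω ⊆ closedBall ∪ (Ω \ ball)`
    by_cases hzb' : z ∈ ball c r
    · have h1 : ContinuousAt v' z :=
        (h.cont z hzb).continuousAt (Filter.mem_of_superset (isOpen_ball.mem_nhds hzb')
          ball_subset_closedBall)
      exact h1.continuousWithinAt
    · have h1 : ContinuousWithinAt v' (closedBall c r) z := h.cont z hzb
      have h2 : ContinuousWithinAt v' (Ω \ ball c r) z := by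
        have h3 : ContinuousWithinAt v (Ω \ ball c r) z := (hv z hz).mono sdiff_subset
        apply h3.congr
        · intro y hy
          exact h.eq_of_notMem hy.2
        · exact h.eq_of_notMem hzb'
      apply (h1.union h2).mono
      intro y hy
      by_cases hyb : y ∈ ball c r
      · exact Or.inl (ball_subset_closedBall hyb)
      · exact Or.inr ⟨hy, hyb⟩
  · have h1 : v' =ᶠ[𝓝[Ω] z] v := by
      apply eventually_nhdsWithin_of_eventually_nhds
      filter_upwards [isClosed_closedBall.isOpen_compl.mem_nhds hzb] with y hy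
      exact h.eq_of_notMem fun h' => hy (ball_subset_closedBall h')
    apply (hv z hz).congr_of_eventuallyEq h1
    exact h.eq_of_notMem fun h' => hzb (ball_subset_closedBall h')

theorem lift_supAt (P : Prob f L r₀) {c : ℂ} {r : ℝ} (hr : 0 < r) {v v' : ℂ → ℝ}
    (hv : ContinuousOn v (sphere c r)) (h : IsLift f c r v v') {z : ℂ} (hz : z ∈ ball c r) :
    SupAt f v' z :=
  supAt_of_classical (h.classical P.C1 hr hv z hz).1 (h.classical P.C1 hr hv z hz).2

theorem lift_subAt (P : Prob f L r₀) {c : ℂ} {r : ℝ} (hr : 0 < r) {v v' : ℂ → ℝ}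
    (hv : ContinuousOn v (sphere c r)) (h : IsLift f c r v v') {z : ℂ} (hz : z ∈ ball c r) :
    SubAt f v' z :=
  subAt_of_classical (h.classical P.C1 hr hv z hz).1 (h.classical P.C1 hr hv z hz).2

/-- comparison on a small disc -/
theorem Prob.cmp_ball (P : Prob f L r₀) {c : ℂ} {r : ℝ} (hr : 0 < r) (hr0 : r ≤ r₀)
    {a b : ℂ → ℝ} (ha : ContinuousOn a (closedBall c r)) (hb : ContinuousOn b (closedBall c r))
    (hsub : ∀ z ∈ ball c r, SubAt f a z) (hsup : ∀ z ∈ ball c r, SupAt f b z)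
    (hbd : ∀ z ∈ sphere c r, a z ≤ b z) : ∀ z ∈ ball c r, a z ≤ b z := by
  have hcl : closure (ball c r) = closedBall c r := closure_ball c hr.ne'
  apply cmp isOpen_ball (Subset.refl _) P.L0 P.lip (P.lt4 hr hr0) (by rwa [hcl]) (by rwa [hcl])
    hsub hsup
  intro z hz hzb
  rw [hcl, mem_closedBall] at hz
  rw [mem_ball, not_lt] at hzb
  exact hbd z (le_antisymm hz hzb)

theorem lift_mono (P : Prob f L r₀) {c : ℂ} {r : ℝ} (hr : 0 < r) (hr0 : r ≤ r₀)
    {v₁ v₂ v₁' v₂' : ℂ → ℝ} (h₁ : IsLift f c r v₁ v₁') (h₂ : IsLift f c r v₂ v₂')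
    (hv₁ : ContinuousOn v₁ (sphere c r)) (hv₂ : ContinuousOn v₂ (sphere c r))
    (hle : ∀ z ∈ sphere c r, v₁ z ≤ v₂ z) : ∀ z ∈ ball c r, v₁' z ≤ v₂' z := by
  apply P.cmp_ball hr hr0 h₁.cont h₂.cont (fun z hz => lift_subAt P hr hv₁ h₁ hz)
    (fun z hz => lift_supAt P hr hv₂ h₂ hz)
  intro z hz
  have hzb : z ∉ ball c r := by
    rw [mem_sphere] at hz
    rw [mem_ball]; linarith
  rw [h₁.eq_of_notMem hzb, h₂.eq_of_notMem hzb]
  exact hle z hz

/-- The class of admissible functions in the iteration. -/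
structure Cls (f : ℝ → ℝ) (Ω : Set ℂ) (r₀ : ℝ) (s S v : ℂ → ℝ) : Prop where
  cont : ContinuousOn v Ω
  lo : ∀ z ∈ Ω, s z ≤ v z
  hi : ∀ z ∈ Ω, v z ≤ S z
  sup : ∀ (c : ℂ) (r : ℝ) (v' : ℂ → ℝ), 0 < r → r ≤ r₀ → closedBall c r ⊆ Ω →
    IsLift f c r v v' → ∀ z ∈ Ω, v' z ≤ v z

theorem Cls.base (P : Prob f L r₀) {Ω : Set ℂ} {s S : ℂ → ℝ} (hS : ContinuousOn S Ω)
    (hle : ∀ z ∈ Ω, s z ≤ S z) (hsup : ∀ z ∈ Ω, SupAt f S z) : Cls f Ω r₀ s S S := by
  refine ⟨hS, hle, fun _ _ => le_rfl, ?_⟩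
  intro c r v' hr hr0 hsub hl z hz
  have hSs : ContinuousOn S (sphere c r) := hS.mono (sphere_subset_closedBall.trans hsub)
  by_cases hzb : z ∈ ball c r
  · apply P.cmp_ball hr hr0 hl.cont (hS.mono hsub) (fun y hy => lift_subAt P hr hSs hl hy)
      (fun y hy => hsup y (hsub (ball_subset_closedBall hy))) _ z hzb
    intro y hy
    have hyb : y ∉ ball c r := by
      rw [mem_sphere] at hy
      rw [mem_ball]; linarith
    rw [hl.eq_of_notMem hyb]
  · rw [hl.eq_of_notMem hzb]

theorem Cls.step (P : Prob f L r₀) {Ω : Set ℂ} {s S v v' : ℂ → ℝ} (hv : Cls f Ω r₀ s S v)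
    (hs : ContinuousOn s Ω) (hsub : ∀ z ∈ Ω, SubAt f s z) {c : ℂ} {r : ℝ} (hr : 0 < r)
    (hr0 : r ≤ r₀) (hΩ : closedBall c r ⊆ Ω) (hl : IsLift f c r v v') :
    Cls f Ω r₀ s S v' := by
  have hle := hv.sup c r v' hr hr0 hΩ hl
  have hvs : ContinuousOn v (sphere c r) := hv.cont.mono (sphere_subset_closedBall.trans hΩ)
  have hv'c : ContinuousOn v' Ω := lift_continuousOn hv.cont hl
  refine ⟨hv'c, ?_, fun z hz => (hle z hz).trans (hv.hi z hz), ?_⟩
  · intro z hz
    by_cases hzb : z ∈ ball c r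
    · apply P.cmp_ball hr hr0 (hs.mono hΩ) hl.cont
        (fun y hy => hsub y (hΩ (ball_subset_closedBall hy)))
        (fun y hy => lift_supAt P hr hvs hl hy) _ z hzb
      intro y hy
      have hyb : y ∉ ball c r := by
        rw [mem_sphere] at hy
        rw [mem_ball]; linarith
      rw [hl.eq_of_notMem hyb]
      exact hv.lo y (hΩ (sphere_subset_closedBall hy))
    · rw [hl.eq_of_notMem hzb]
      exact hv.lo z hz
  · intro c₂ r₂ v'' hr₂ hr₂0 hΩ₂ hl₂ z hz
    by_cases hzb : z ∈ ball c₂ r₂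
    swap
    · rw [hl₂.eq_of_notMem hzb]
    have hvs₂ : ContinuousOn v (sphere c₂ r₂) :=
      hv.cont.mono (sphere_subset_closedBall.trans hΩ₂)
    have hv's₂ : ContinuousOn v' (sphere c₂ r₂) :=
      hv'c.mono (sphere_subset_closedBall.trans hΩ₂)
    obtain ⟨v₂, hv₂⟩ := P.exists_lift hr₂ hr₂0 hvs₂
    have hmono : ∀ y ∈ ball c₂ r₂, v'' y ≤ v₂ y :=
      lift_mono P hr₂ hr₂0 hl₂ hv₂ hv's₂ hvs₂ fun y hy =>
        hle y (hΩ₂ (sphere_subset_closedBall hy))
    have hv₂le := hv.sup c₂ r₂ v₂ hr₂ hr₂0 hΩ₂ hv₂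
    have hkey : ∀ y ∈ Ω, v'' y ≤ v y := by
      intro y hy
      by_cases hyb : y ∈ ball c₂ r₂
      · exact (hmono y hyb).trans (hv₂le y hy)
      · rw [hl₂.eq_of_notMem hyb]
        exact hle y hy
    by_cases hzc : z ∈ ball c r
    swap
    · rw [hl.eq_of_notMem hzc]
      exact hkey z hz
    -- comparison on the intersection
    have hW : IsOpen (ball c r ∩ ball c₂ r₂) := isOpen_ball.inter isOpen_ball
    have hcl1 : closure (ball c r ∩ ball c₂ r₂) ⊆ closedBall c r :=
      (closure_mono inter_subset_left).trans closure_ball_subset_closedBall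
    have hcl2 : closure (ball c r ∩ ball c₂ r₂) ⊆ closedBall c₂ r₂ :=
      (closure_mono inter_subset_right).trans closure_ball_subset_closedBall
    apply cmp hW inter_subset_left P.L0 P.lip (P.lt4 hr hr0) (hl₂.cont.mono hcl2)
      (hl.cont.mono hcl1) (fun y hy => lift_subAt P hr₂ hv's₂ hl₂ hy.2)
      (fun y hy => lift_supAt P hr hvs hl hy.1) _ z ⟨hzc, hzb⟩
    intro y hy hyW
    by_cases hy1 : y ∈ ball c r
    · have hy2 : y ∉ ball c₂ r₂ := fun h => hyW ⟨hy1, h⟩
      rw [hl₂.eq_of_notMem hy2]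
    · rw [hl.eq_of_notMem hy1]
      exact hkey y (hΩ (hcl1 hy))

/-- **Sub/supersolution theorem** in an arbitrary plane open set. -/
theorem sub_super {Ω : Set ℂ} (hΩ : IsOpen Ω) (hf : ContDiff ℝ 1 f) (hL0 : 0 ≤ L)
    (hL : ∀ x y, |f x - f y| ≤ L * |x - y|) {s S : ℂ → ℝ} (hs : ContinuousOn s Ω)
    (hS : ContinuousOn S Ω) {M : ℝ} (hsM : ∀ z ∈ Ω, -M ≤ s z) (hSM : ∀ z ∈ Ω, S z ≤ M)
    (hle : ∀ z ∈ Ω, s z ≤ S z) (hsub : ∀ z ∈ Ω, SubAt f s z) (hsup : ∀ z ∈ Ω, SupAt f S z) :
    ∃ u : ℂ → ℝ, (∀ z ∈ Ω, ContDiffAt ℝ 2 u z ∧ Δ u z = -f (u z)) ∧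
      (∀ z ∈ Ω, s z ≤ u z ∧ u z ≤ S z) := by
  obtain ⟨r₀, P⟩ := Prob.exists_radius hf hL0 hL
  -- the countable family of discs
  let C : ℕ → ℂ := fun t => TopologicalSpace.denseSeq ℂ (Nat.unpair t).1
  let rr : ℕ → ℝ := fun t => r₀ / ((Nat.unpair t).2 + 1)
  have hrr0 : ∀ t, 0 < rr t := fun t => by
    have := P.r0
    simp only [rr]; positivity
  have hrr1 : ∀ t, rr t ≤ r₀ := fun t => by
    simp only [rr]
    apply div_le_self P.r0.le
    have : (0 : ℝ) ≤ (Nat.unpair t).2 := Nat.cast_nonneg _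
    linarith
  have step : ∀ (n : ℕ) (v : {v : ℂ → ℝ // Cls f Ω r₀ s S v}),
      ∃ v' : {v : ℂ → ℝ // Cls f Ω r₀ s S v},
        (closedBall (C (Nat.unpair n).1) (rr (Nat.unpair n).1) ⊆ Ω →
          IsLift f (C (Nat.unpair n).1) (rr (Nat.unpair n).1) v.1 v'.1) ∧
        ∀ z ∈ Ω, v'.1 z ≤ v.1 z := by
    intro n v
    by_cases hb : closedBall (C (Nat.unpair n).1) (rr (Nat.unpair n).1) ⊆ Ω
    · obtain ⟨v', hv'⟩ := P.exists_lift (hrr0 (Nat.unpair n).1) (hrr1 _)
        (v.2.cont.mono (sphere_subset_closedBall.trans hb))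
      exact ⟨⟨v', v.2.step P hs hsub (hrr0 _) (hrr1 _) hb hv'⟩, fun _ => hv',
        v.2.sup _ _ _ (hrr0 _) (hrr1 _) hb hv'⟩
    · exact ⟨v, fun h => absurd h hb, fun _ _ => le_rfl⟩
  choose g hg1 hg2 using step
  let seq : ℕ → {v : ℂ → ℝ // Cls f Ω r₀ s S v} := fun n =>
    Nat.rec ⟨S, Cls.base P hS hle hsup⟩ (fun n v => g n v) n
  have hseq : ∀ n, seq (n + 1) = g n (seq n) := fun n => rfl
  have hanti : ∀ z ∈ Ω, Antitone fun n => (seq n).1 z := by
    intro z hz
    apply antitone_nat_of_succ_le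
    intro n
    rw [hseq]
    exact hg2 n (seq n) z hz
  let u : ℂ → ℝ := fun z => ⨅ n, (seq n).1 z
  have hbdd : ∀ z ∈ Ω, BddBelow (range fun n => (seq n).1 z) := by
    intro z hz
    refine ⟨s z, ?_⟩
    rintro _ ⟨n, rfl⟩
    exact (seq n).2.lo z hz
  have hu : ∀ z ∈ Ω, Tendsto (fun n => (seq n).1 z) atTop (𝓝 (u z)) := fun z hz =>
    tendsto_atTop_ciInf (hanti z hz) (hbdd z hz)
  have hbound : ∀ n, ∀ z ∈ Ω, |(seq n).1 z| ≤ M := by
    intro n z hz
    have h1 := (seq n).2.lo z hz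
    have h2 := (seq n).2.hi z hz
    have h3 := hsM z hz
    have h4 := hSM z hz
    rw [abs_le]
    constructor <;> linarith
  refine ⟨u, ?_, ?_⟩
  · intro z hz
    -- find a disc of the family containing `z`
    obtain ⟨ε, hε, hεb⟩ := Metric.isOpen_iff.1 hΩ z hz
    obtain ⟨m, hm⟩ := exists_nat_gt (2 * r₀ / ε)
    set r := r₀ / ((m : ℝ) + 1) with hr
    have hr0 : 0 < r := by have := P.r0; positivity
    have h2r : 2 * r < ε := by
      rw [hr, ← mul_div_assoc, div_lt_iff₀ (by positivity)]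
      rw [div_lt_iff₀ hε] at hm
      nlinarith
    obtain ⟨i, hi⟩ := (TopologicalSpace.denseRange_denseSeq ℂ).exists_dist_lt z hr0
    set t := Nat.pair i m with ht
    have hCt : C t = TopologicalSpace.denseSeq ℂ i := by simp [C, ht]
    have hrt : rr t = r := by simp [rr, ht, hr]
    have hzb : z ∈ ball (C t) (rr t) := by rw [hCt, hrt]; exact hi
    have hbsub : closedBall (C t) (rr t) ⊆ Ω := by
      refine Subset.trans ?_ hεb
      intro y hy
      rw [mem_closedBall, hCt, hrt] at hy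
      rw [mem_ball]
      have := dist_triangle y (TopologicalSpace.denseSeq ℂ i) z
      rw [dist_comm (TopologicalSpace.denseSeq ℂ i) z] at this
      linarith
    -- the subsequence at which this disc is used
    have hn : ∀ k, (Nat.unpair (Nat.pair t k)).1 = t := fun k => by simp
    have hnk : Tendsto (fun k => Nat.pair t k) atTop atTop :=
      tendsto_atTop_mono (fun k => Nat.right_le_pair t k) tendsto_id
    have hnk1 : Tendsto (fun k => Nat.pair t k + 1) atTop atTop :=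
      tendsto_atTop_mono (fun k => Nat.le_succ _) hnk
    refine lift_limit P.C1 (c := C t) (r := rr t) (M := M) (hrr0 t) ((hrr1 t).trans P.r1)
      (vs := fun k => (seq (Nat.pair t k)).1) (ws := fun k => (seq (Nat.pair t k + 1)).1)
      (fun k => (seq _).2.cont.mono hbsub) (fun k y hy => hbound (Nat.pair t k) y (hbsub hy))
      (fun k y hy => hbound (Nat.pair t k + 1) y (hbsub hy)) (fun y hy => (hu y (hbsub hy)).comp hnk)
      (fun y hy => (hu y (hbsub hy)).comp hnk1) (fun k => ?_) z hzb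
    have := hg1 (Nat.pair t k) (seq (Nat.pair t k))
    rw [hn k] at this
    exact this hbsub
  · intro z hz
    constructor
    · exact le_ciInf fun n => (seq n).2.lo z hz
    · exact (ciInf_le (hbdd z hz) 0).trans ((seq 0).2.hi z hz)

end Pool.Agent.Lib.MP_dc9025_an
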