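import Pool.Agent.Lib.MP_dc9025_an.Barriers
import Pool.Agent.Lib.MP_dc9025_an.SubSuper
import Pool.Agent.Lib.MP_dc9025_an.MaxPrin

/-!
# Two solutions outside two discs in standard position
-/

set_option autoImplicit false

open Metric Set Filter Topology InnerProductSpace Laplacian

namespace Pool.Agent.Lib.MP_dc9025_an

/-- A positive bounded classical solution of `-Δu = f(u)` in `Ω`, `u = 0` on `∂Ω`. -/
structure IsPosBddSol {E : Type*} [NormedAddCommGroup E] [InnerProductSpace ℝ E]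
    [FiniteDimensional ℝ E] (f : ℝ → ℝ) (Ω : Set E) (u : E → ℝ) : Prop where
  contDiffOn : ContDiffOn ℝ 2 u Ω
  continuousOn : ContinuousOn u (closure Ω)
  equation : ∀ x ∈ Ω, -(Δ u x) = f (u x)
  boundary : ∀ x ∈ frontier Ω, u x = 0
  positive : ∀ x ∈ Ω, 0 < u x
  bounded : ∃ M : ℝ, ∀ x ∈ Ω, |u x| ≤ M

/-- upper centre -/
noncomputable def c1 (r a : ℝ) : ℂ := ((r + a : ℝ) : ℂ) * Complex.I

/-- lower centre -/
noncomputable def c2 (r a : ℝ) : ℂ := -(((r + a : ℝ) : ℂ) * Complex.I)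

/-- the exterior of the two discs -/
def Om (r₁ r₂ a : ℝ) : Set ℂ := {z | r₁ < ‖z - c1 r₁ a‖ ∧ r₂ < ‖z - c2 r₂ a‖}

theorem sq_norm_c1 (z : ℂ) (r a : ℝ) : ‖z - c1 r a‖ ^ 2 = z.re ^ 2 + (z.im - (r + a)) ^ 2 := by
  rw [← Complex.normSq_eq_norm_sq, Complex.normSq_apply, c1]
  simp
  ring

theorem sq_norm_c2 (z : ℂ) (r a : ℝ) : ‖z - c2 r a‖ ^ 2 = z.re ^ 2 + (z.im + (r + a)) ^ 2 := by
  rw [← Complex.normSq_eq_norm_sq, Complex.normSq_apply, c2]
  simp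
  ring

theorem lt_norm_iff {w : ℂ} {r : ℝ} (hr : 0 ≤ r) : r < ‖w‖ ↔ r ^ 2 < ‖w‖ ^ 2 :=
  ⟨fun h => by gcongr, fun h => lt_of_pow_lt_pow_left₀ 2 (norm_nonneg _) h⟩

theorem mem_Om {r₁ r₂ a : ℝ} (h₁ : 0 ≤ r₁) (h₂ : 0 ≤ r₂) {z : ℂ} : z ∈ Om r₁ r₂ a ↔
    r₁ ^ 2 < z.re ^ 2 + (z.im - (r₁ + a)) ^ 2 ∧ r₂ ^ 2 < z.re ^ 2 + (z.im + (r₂ + a)) ^ 2 := by
  rw [Om, mem_ofPred_eq, lt_norm_iff h₁, lt_norm_iff h₂, sq_norm_c1, sq_norm_c2]

theorem isOpen_Om (r₁ r₂ a : ℝ) : IsOpen (Om r₁ r₂ a) := by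
  have k1 : IsOpen {z : ℂ | r₁ < ‖z - c1 r₁ a‖} := isOpen_lt continuous_const (by fun_prop)
  have k2 : IsOpen {z : ℂ | r₂ < ‖z - c2 r₂ a‖} := isOpen_lt continuous_const (by fun_prop)
  exact k1.inter k2

theorem isPreconnected_Om {r₁ r₂ a : ℝ} (h₁ : 0 < r₁) (h₂ : 0 < r₂) (ha : 0 < a) :
    IsPreconnected (Om r₁ r₂ a) := by
  have h0 : ∀ t : ℝ, (t : ℂ) ∈ Om r₁ r₂ a := by
    intro t
    rw [mem_Om h₁.le h₂.le]
    simp only [Complex.ofReal_re, Complex.ofReal_im]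
    constructor <;> nlinarith [sq_nonneg t]
  have hpc : IsPathConnected (Om r₁ r₂ a) := by
    refine ⟨0, by simpa using h0 0, ?_⟩
    intro z hz
    -- choose the direction
    obtain ⟨ε, hε, hεz⟩ : ∃ ε : ℝ, ε ^ 2 = 1 ∧ 0 ≤ ε * z.re := by
      rcases le_total 0 z.re with h | h
      · exact ⟨1, by norm_num, by linarith⟩
      · exact ⟨-1, by norm_num, by linarith⟩
    set R := r₁ + r₂ with hR
    set w₁ : ℂ := z + ((ε * R : ℝ) : ℂ) with hw₁
    set w₂ : ℂ := ((z.re + ε * R : ℝ) : ℂ) with hw₂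
    have hz' := (mem_Om h₁.le h₂.le).1 hz
    have s1 : JoinedIn (Om r₁ r₂ a) z w₁ := by
      apply JoinedIn.of_segment_subset
      rw [segment_eq_image']
      rintro _ ⟨t, ⟨ht0, ht1⟩, rfl⟩
      rw [mem_Om h₁.le h₂.le]
      have e1 : (z + t • (w₁ - z)).re = z.re + t * (ε * R) := by
        rw [hw₁]; simp
      have e2 : (z + t • (w₁ - z)).im = z.im := by
        rw [hw₁]; simp
      rw [e1, e2]
      have h3 : z.re ^ 2 ≤ (z.re + t * (ε * R)) ^ 2 := by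
        have h4 : 0 ≤ t * R * (ε * z.re) := by positivity
        have h5 : 0 ≤ (t * (ε * R)) ^ 2 := sq_nonneg _
        nlinarith
      constructor <;> linarith [hz'.1, hz'.2]
    have hbig : R ^ 2 ≤ (z.re + ε * R) ^ 2 := by
      have h4 : 0 ≤ R * (ε * z.re) := by positivity
      nlinarith [sq_nonneg z.re]
    have s2 : JoinedIn (Om r₁ r₂ a) w₁ w₂ := by
      apply JoinedIn.of_segment_subset
      rw [segment_eq_image']
      rintro _ ⟨t, ⟨ht0, ht1⟩, rfl⟩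
      rw [mem_Om h₁.le h₂.le]
      have e1 : (w₁ + t • (w₂ - w₁)).re = z.re + ε * R := by
        rw [hw₁, hw₂]; simp
      rw [e1]
      have h3 : r₁ ^ 2 < R ^ 2 := by rw [hR]; nlinarith
      have h4 : r₂ ^ 2 < R ^ 2 := by rw [hR]; nlinarith
      constructor
      · nlinarith [sq_nonneg ((w₁ + t • (w₂ - w₁)).im - (r₁ + a))]
      · nlinarith [sq_nonneg ((w₁ + t • (w₂ - w₁)).im + (r₂ + a))]
    have s3 : JoinedIn (Om r₁ r₂ a) w₂ 0 := by
      apply JoinedIn.of_segment_subset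
      rw [segment_eq_image']
      rintro _ ⟨t, ⟨ht0, ht1⟩, rfl⟩
      have e : w₂ + t • (0 - w₂) = (((1 - t) * (z.re + ε * R) : ℝ) : ℂ) := by
        rw [hw₂]
        simp
        ring
      simp only [e]
      exact h0 _
    exact ((s1.trans s2).trans s3).symm
  exact hpc.isConnected.isPreconnected

theorem zero_mem_Om {r₁ r₂ a : ℝ} (h₁ : 0 < r₁) (h₂ : 0 < r₂) (ha : 0 < a) :
    (0 : ℂ) ∈ Om r₁ r₂ a := by
  rw [mem_Om h₁.le h₂.le]
  simp only [Complex.zero_re, Complex.zero_im]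
  constructor <;> nlinarith

/-- the high supersolution -/
noncomputable def S0 (r₁ r₂ a : ℝ) (z : ℂ) : ℝ :=
  min (radS (c1 r₁ a) r₁ z) (radS (c2 r₂ a) r₂ z)

theorem continuous_S0 (r₁ r₂ a : ℝ) : Continuous (S0 r₁ r₂ a) :=
  (continuous_radS _ _).min (continuous_radS _ _)

theorem S0_le_one (r₁ r₂ a : ℝ) (z : ℂ) : S0 r₁ r₂ a z ≤ 1 :=
  (min_le_left _ _).trans (psi_le_one _)

theorem supAt_S0 {r₁ r₂ a : ℝ} (h₁ : 1000 ≤ r₁) (h₂ : 1000 ≤ r₂) {z : ℂ} (hz : z ∈ Om r₁ r₂ a) :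
    SupAt fR (S0 r₁ r₂ a) z :=
  SupAt.min (supAt_radS h₁ hz.1) (supAt_radS h₂ hz.2)

theorem S0_nonneg {r₁ r₂ a : ℝ} {z : ℂ} (hz : z ∈ Om r₁ r₂ a) : 0 ≤ S0 r₁ r₂ a z :=
  le_min (psi_nonneg (by linarith [hz.1])) (psi_nonneg (by linarith [hz.2]))

theorem S0_boundary {r₁ r₂ a : ℝ} {z : ℂ} (hz : z ∈ closure (Om r₁ r₂ a)) (hz' : z ∉ Om r₁ r₂ a) :
    S0 r₁ r₂ a z = 0 := by
  have hcl : closure (Om r₁ r₂ a) ⊆ {z | r₁ ≤ ‖z - c1 r₁ a‖ ∧ r₂ ≤ ‖z - c2 r₂ a‖} := by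
    apply closure_minimal
    · intro w hw
      exact ⟨hw.1.le, hw.2.le⟩
    · have k1 : IsClosed {z : ℂ | r₁ ≤ ‖z - c1 r₁ a‖} :=
        isClosed_le continuous_const (by fun_prop)
      have k2 : IsClosed {z : ℂ | r₂ ≤ ‖z - c2 r₂ a‖} :=
        isClosed_le continuous_const (by fun_prop)
      exact k1.inter k2
  obtain ⟨h1, h2⟩ := hcl hz
  have h3 : 0 ≤ radS (c1 r₁ a) r₁ z := psi_nonneg (by linarith)
  have h4 : 0 ≤ radS (c2 r₂ a) r₂ z := psi_nonneg (by linarith)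
  by_cases h5 : r₁ < ‖z - c1 r₁ a‖
  · have h6 : ‖z - c2 r₂ a‖ = r₂ := by
      apply le_antisymm _ h2
      by_contra h7
      push Not at h7
      exact hz' ⟨h5, h7⟩
    have h7 : radS (c2 r₂ a) r₂ z = 0 := by rw [radS, h6, sub_self, psi_zero]
    rw [S0, h7, min_eq_right h3]
  · push Not at h5
    have h6 : ‖z - c1 r₁ a‖ = r₁ := le_antisymm h5 h1
    have h7 : radS (c1 r₁ a) r₁ z = 0 := by rw [radS, h6, sub_self, psi_zero]
    rw [S0, h7, min_eq_left h4]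

/-- Building a positive bounded solution from a function squeezed between barriers. -/
theorem make_sol {r₁ r₂ a : ℝ} (h₁ : 1000 ≤ r₁) (h₂ : 1000 ≤ r₂) (ha : 0 < a) {u₀ : ℂ → ℝ}
    (hu : ∀ z ∈ Om r₁ r₂ a, ContDiffAt ℝ 2 u₀ z ∧ Δ u₀ z = -fR (u₀ z))
    (h0 : ∀ z ∈ Om r₁ r₂ a, 0 ≤ u₀ z) (hS : ∀ z ∈ Om r₁ r₂ a, u₀ z ≤ S0 r₁ r₂ a z)
    (hne : ∃ z ∈ Om r₁ r₂ a, 0 < u₀ z) :
    ∃ u : ℂ → ℝ, IsPosBddSol fR (Om r₁ r₂ a) u ∧ ∀ z ∈ Om r₁ r₂ a, u z = u₀ z := by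
  classical
  have hop := isOpen_Om r₁ r₂ a
  set u : ℂ → ℝ := fun z => if z ∈ Om r₁ r₂ a then u₀ z else 0 with hudef
  have hueq : ∀ z ∈ Om r₁ r₂ a, u z = u₀ z := fun z hz => if_pos hz
  have hev : ∀ z ∈ Om r₁ r₂ a, u =ᶠ[𝓝 z] u₀ := fun z hz => by
    filter_upwards [hop.mem_nhds hz] with w hw
    exact hueq w hw
  have h1 : ∀ z ∈ Om r₁ r₂ a, u₀ z ≤ 1 := fun z hz => (hS z hz).trans (S0_le_one _ _ _ _)
  refine ⟨u, ⟨?_, ?_, ?_, ?_, ?_, ?_⟩, hueq⟩
  · intro z hz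
    exact ((hu z hz).1.congr_of_eventuallyEq (hev z hz)).contDiffWithinAt
  · intro z hz
    by_cases hzO : z ∈ Om r₁ r₂ a
    · exact (((hu z hzO).1.continuousAt).congr (hev z hzO).symm).continuousWithinAt
    · have hS0 := S0_boundary hz hzO
      have hbound : ∀ w, ‖u w‖ ≤ |S0 r₁ r₂ a w| := by
        intro w
        by_cases hw : w ∈ Om r₁ r₂ a
        · rw [hueq w hw, Real.norm_eq_abs, abs_of_nonneg (h0 w hw), abs_of_nonneg (S0_nonneg hw)]
          exact hS w hw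
        · simp only [hudef, if_neg hw, norm_zero]
          positivity
      have hlim : Tendsto (fun w => |S0 r₁ r₂ a w|) (𝓝[closure (Om r₁ r₂ a)] z) (𝓝 0) := by
        have : Tendsto (fun w => |S0 r₁ r₂ a w|) (𝓝 z) (𝓝 |S0 r₁ r₂ a z|) :=
          (continuous_S0 r₁ r₂ a).abs.tendsto z
        rw [hS0, abs_zero] at this
        exact this.mono_left nhdsWithin_le_nhds
      rw [ContinuousWithinAt]
      have huz : u z = 0 := if_neg hzO
      rw [huz]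
      exact squeeze_zero_norm hbound hlim
  · intro z hz
    rw [(laplacian_congr_nhds (hev z hz)).eq_of_nhds, (hu z hz).2, hueq z hz, neg_neg]
  · intro z hz
    have : z ∉ Om r₁ r₂ a := by
      rw [hop.frontier_eq] at hz
      exact hz.2
    exact if_neg this
  · intro z hz
    rw [hueq z hz]
    refine strong_max hop (isPreconnected_Om (by linarith) (by linarith) ha) ?_ h0 hne z hz
    intro w hw
    refine ⟨(hu w hw).1, ?_⟩
    rw [(hu w hw).2]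
    have := fR_nonneg (h0 w hw) (h1 w hw)
    linarith
  · refine ⟨1, fun z hz => ?_⟩
    rw [hueq z hz, abs_of_nonneg (h0 z hz)]
    exact h1 z hz

/-! ### The high solution -/

theorem abs_im_le_norm_sub (z c : ℂ) : |z.im - c.im| ≤ ‖z - c‖ := by
  have := Complex.abs_im_le_norm (z - c)
  simpa using this

theorem psi_ge_uH {t d : ℝ} (hd : d ≤ t) (hd0 : 0 ≤ d) : uH (1 - d) ≤ psi t := by
  refine le_trans ?_ (psi_mono hd)
  rcases le_total (1 / 4) d with h | h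
  · rw [psi_eq_one h]
    exact uH_le.trans (by norm_num)
  · rw [uH_of_ge (by linarith), psi, max_eq_right (by linarith)]
    nlinarith

theorem sH_le_S0 {r₁ r₂ a : ℝ} (ha : 1 ≤ a) {z : ℂ}
    (hz : z ∈ Om r₁ r₂ a) : sH z ≤ S0 r₁ r₂ a z := by
  rcases le_or_gt 1 |z.im| with h | h
  · have : sH z = 0 := by
      rw [sH, uH_of_ge (by linarith)]
      apply max_eq_left
      nlinarith
    rw [this]
    exact S0_nonneg hz
  · apply le_min
    · apply max_le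
      · exact psi_nonneg (by linarith [hz.1])
      · have h1 := abs_im_le_norm_sub z (c1 r₁ a)
        have h2 : (c1 r₁ a).im = r₁ + a := by simp [c1]
        rw [h2] at h1
        have h3 := (abs_le.1 h1).1
        have h4 := le_abs_self z.im
        have h5 := abs_nonneg z.im
        have e : |z.im| = 1 - (1 - |z.im|) := by ring
        rw [e]
        exact psi_ge_uH (by linarith) (by linarith)
    · apply max_le
      · exact psi_nonneg (by linarith [hz.2])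
      · have h1 := abs_im_le_norm_sub z (c2 r₂ a)
        have h2 : (c2 r₂ a).im = -(r₂ + a) := by simp [c2]
        rw [h2] at h1
        have h3 := (abs_le.1 h1).2
        have h4 := neg_abs_le z.im
        have h5 := abs_nonneg z.im
        have e : |z.im| = 1 - (1 - |z.im|) := by ring
        rw [e]
        exact psi_ge_uH (by linarith) (by linarith)

theorem exists_high {r₁ r₂ a : ℝ} (h₁ : 1000 ≤ r₁) (h₂ : 1000 ≤ r₂) (ha : 1 ≤ a) :
    ∃ u : ℂ → ℝ, IsPosBddSol fR (Om r₁ r₂ a) u ∧ 2471 / 2500 ≤ u 0 := by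
  obtain ⟨L, hL0, hL⟩ := lip_fR
  have hop := isOpen_Om r₁ r₂ a
  have h0 := zero_mem_Om (r₁ := r₁) (r₂ := r₂) (a := a) (by linarith) (by linarith) (by linarith)
  obtain ⟨u₀, hu1, hu2⟩ := sub_super hop (contDiff_fR (n := 1)) hL0 hL
    (s := sH) (S := S0 r₁ r₂ a) continuous_sH.continuousOn (continuous_S0 r₁ r₂ a).continuousOn
    (M := 1) (fun z _ => by linarith [sH_nonneg z]) (fun z _ => S0_le_one r₁ r₂ a z)
    (fun z hz => sH_le_S0 ha hz) (fun z _ => subAt_sH z) (fun z hz => supAt_S0 h₁ h₂ hz)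
  have hz0 : 2471 / 2500 ≤ u₀ 0 := by
    rw [← sH_zero]
    exact (hu2 0 h0).1
  obtain ⟨u, hu, hue⟩ := make_sol h₁ h₂ (by linarith) hu1
    (fun z hz => (sH_nonneg z).trans (hu2 z hz).1) (fun z hz => (hu2 z hz).2)
    ⟨0, h0, by linarith⟩
  exact ⟨u, hu, by rw [hue 0 h0]; exact hz0⟩

/-! ### The low solution -/

/-- geometry of the channel -/
theorem channel_im {r₁ r₂ a : ℝ} (h₁ : 1000 ≤ r₁) (h₂ : 1000 ≤ r₂) (ha : 1 ≤ a)
    (ha' : a ≤ 101 / 100) {z : ℂ} (hz : z ∈ Om r₁ r₂ a) (hx : |z.re| < 5) (hy : |z.im| < 2) :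
    |z.im| ≤ 128 / 125 := by
  rw [mem_Om (by linarith) (by linarith)] at hz
  obtain ⟨hz1, hz2⟩ := hz
  have hx2 : z.re ^ 2 < 25 := by
    rw [← sq_abs]
    nlinarith [abs_nonneg z.re]
  rw [abs_lt] at hy
  rw [abs_le]
  constructor
  · by_contra hcon
    push Not at hcon
    have k1 : 0 ≤ z.im + (r₂ + a) := by linarith
    have k2 : z.im + (r₂ + a) ≤ r₂ - 7 / 500 := by linarith
    have k3 : (z.im + (r₂ + a)) ^ 2 ≤ (r₂ - 7 / 500) ^ 2 := by gcongr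
    nlinarith
  · by_contra hcon
    push Not at hcon
    have k1 : 0 ≤ (r₁ + a) - z.im := by linarith
    have k2 : (r₁ + a) - z.im ≤ r₁ - 7 / 500 := by linarith
    have k3 : ((r₁ + a) - z.im) ^ 2 ≤ (r₁ - 7 / 500) ^ 2 := by gcongr
    nlinarith

theorem cos_channel {y : ℝ} (hy : |y| ≤ 128 / 125) : 1 / 50 ≤ Real.cos (3 / 2 * y) := by
  have hpi := Real.pi_gt_d4
  have hpi2 := Real.pi_lt_d4
  have e : Real.cos (3 / 2 * y) = Real.sin (Real.pi / 2 - 3 / 2 * |y|) := by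
    rw [Real.sin_pi_div_two_sub]
    rcases abs_cases y with ⟨h, _⟩ | ⟨h, _⟩
    · rw [h]
    · rw [h, ← Real.cos_neg]
      congr 1
      ring
  rw [e]
  have h1 : 0 ≤ Real.pi / 2 - 3 / 2 * |y| := by linarith
  have h2 : Real.pi / 2 - 3 / 2 * |y| ≤ Real.pi / 2 := by linarith [abs_nonneg y]
  have h3 := Real.mul_le_sin h1 h2
  refine le_trans ?_ h3
  rw [div_mul_eq_mul_div, le_div_iff₀ Real.pi_pos]
  linarith

theorem TT_nonneg {z : ℂ} (hy : |z.im| ≤ 128 / 125) : 0 ≤ TT z := by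
  have h1 := cos_channel hy
  have h2 := Real.cosh_pos (29 / 20 * z.re)
  unfold TT
  have : 0 ≤ Real.cos (3 / 2 * z.im) := by linarith
  positivity

theorem cosh_big {x : ℝ} (hx : 49 / 10 ≤ |x|) : 550 ≤ Real.cosh (29 / 20 * x) := by
  have e : Real.cosh (29 / 20 * x) = Real.cosh (29 / 20 * |x|) := by
    rcases abs_cases x with ⟨h, _⟩ | ⟨h, _⟩
    · rw [h]
    · rw [h, ← Real.cosh_neg]
      congr 1
      ring
  rw [e, Real.cosh_eq]
  have h1 : 0 < Real.exp (-(29 / 20 * |x|)) := Real.exp_pos _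
  have h2 : Real.exp 7.1 ≤ Real.exp (29 / 20 * |x|) := by
    apply Real.exp_le_exp.2
    linarith
  have h3 : (1100 : ℝ) ≤ Real.exp 7.1 := by
    have h4 : Real.exp 7.1 = Real.exp 1 ^ 7 * Real.exp (1 / 10) := by
      rw [← Real.exp_nat_mul, ← Real.exp_add]
      norm_num
    have h5 := Real.exp_one_gt_d9
    have h6 : (11 / 10 : ℝ) ≤ Real.exp (1 / 10) := by
      have := Real.add_one_le_exp (1 / 10 : ℝ)
      linarith
    have h7 : (1090 : ℝ) ≤ Real.exp 1 ^ 7 := by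
      have : (2.718 : ℝ) ^ 7 ≤ Real.exp 1 ^ 7 := by
        gcongr
        linarith
      refine le_trans ?_ this
      norm_num
    rw [h4]
    nlinarith
  linarith

theorem TT_big {z : ℂ} (hx : 49 / 10 ≤ |z.re|) (hy : |z.im| ≤ 128 / 125) : 11 / 10 ≤ TT z := by
  have h1 := cos_channel hy
  have h2 := cosh_big hx
  unfold TT
  nlinarith

/-- the low supersolution -/
noncomputable def S1 (r₁ r₂ a : ℝ) (z : ℂ) : ℝ :=
  open Classical in
  if |z.re| < 5 ∧ |z.im| < 2 then min (S0 r₁ r₂ a z) (Phi (TT z)) else S0 r₁ r₂ a z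

theorem S1_le_S0 (r₁ r₂ a : ℝ) (z : ℂ) : S1 r₁ r₂ a z ≤ S0 r₁ r₂ a z := by
  unfold S1
  split_ifs
  · exact min_le_left _ _
  · exact le_rfl

theorem isOpen_channel : IsOpen {z : ℂ | |z.re| < 5 ∧ |z.im| < 2} := by
  have k1 : IsOpen {z : ℂ | |z.re| < 5} := isOpen_lt Complex.continuous_re.abs continuous_const
  have k2 : IsOpen {z : ℂ | |z.im| < 2} := isOpen_lt Complex.continuous_im.abs continuous_const
  exact k1.inter k2

theorem S1_cases {r₁ r₂ a : ℝ} (h₁ : 1000 ≤ r₁) (h₂ : 1000 ≤ r₂) (ha : 1 ≤ a)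
    (ha' : a ≤ 101 / 100) {z : ℂ} (hz : z ∈ Om r₁ r₂ a) :
    ((|z.re| < 5 ∧ |z.im| < 2) ∧
      S1 r₁ r₂ a =ᶠ[𝓝 z] fun w => min (S0 r₁ r₂ a w) (Phi (TT w))) ∨
    S1 r₁ r₂ a =ᶠ[𝓝 z] S0 r₁ r₂ a := by
  classical
  by_cases hc : |z.re| < 5 ∧ |z.im| < 2
  · left
    refine ⟨hc, ?_⟩
    filter_upwards [isOpen_channel.mem_nhds hc] with w hw
    exact if_pos hw
  · right
    have hnear : ∀ᶠ w in 𝓝 z, 49 / 10 < |w.re| ∨ 3 / 2 < |w.im| := by
      rcases not_and_or.1 hc with h | h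
      · push Not at h
        have : ∀ᶠ w : ℂ in 𝓝 z, 49 / 10 < |w.re| :=
          Complex.continuous_re.abs.continuousAt.eventually (lt_mem_nhds (by linarith))
        exact this.mono fun w hw => Or.inl hw
      · push Not at h
        have : ∀ᶠ w : ℂ in 𝓝 z, 3 / 2 < |w.im| :=
          Complex.continuous_im.abs.continuousAt.eventually (lt_mem_nhds (by linarith))
        exact this.mono fun w hw => Or.inr hw
    filter_upwards [hnear, (isOpen_Om r₁ r₂ a).mem_nhds hz] with w hw hwO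
    unfold S1
    split_ifs with hcw
    · have him := channel_im h₁ h₂ ha ha' hwO hcw.1 hcw.2
      rcases hw with hw | hw
      · rw [Phi_of_ge (TT_big hw.le him)]
        exact min_eq_left (S0_le_one _ _ _ _)
      · linarith
    · rfl

theorem continuousOn_S1 {r₁ r₂ a : ℝ} (h₁ : 1000 ≤ r₁) (h₂ : 1000 ≤ r₂) (ha : 1 ≤ a)
    (ha' : a ≤ 101 / 100) : ContinuousOn (S1 r₁ r₂ a) (Om r₁ r₂ a) := by
  intro z hz
  apply ContinuousAt.continuousWithinAt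
  rcases S1_cases h₁ h₂ ha ha' hz with ⟨-, h⟩ | h
  · refine ContinuousAt.congr ?_ h.symm
    exact ((continuous_S0 r₁ r₂ a).min (continuous_Phi.comp continuous_TT)).continuousAt
  · exact (continuous_S0 r₁ r₂ a).continuousAt.congr h.symm

theorem supAt_S1 {r₁ r₂ a : ℝ} (h₁ : 1000 ≤ r₁) (h₂ : 1000 ≤ r₂) (ha : 1 ≤ a)
    (ha' : a ≤ 101 / 100) {z : ℂ} (hz : z ∈ Om r₁ r₂ a) : SupAt fR (S1 r₁ r₂ a) z := by
  rcases S1_cases h₁ h₂ ha ha' hz with ⟨hc, h⟩ | h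
  · refine SupAt.congr ?_ h
    exact SupAt.min (supAt_S0 h₁ h₂ hz)
      (supAt_channel (TT_nonneg (channel_im h₁ h₂ ha ha' hz hc.1 hc.2)))
  · exact (supAt_S0 h₁ h₂ hz).congr h

theorem S1_nonneg {r₁ r₂ a : ℝ} (h₁ : 1000 ≤ r₁) (h₂ : 1000 ≤ r₂) (ha : 1 ≤ a)
    (ha' : a ≤ 101 / 100) {z : ℂ} (hz : z ∈ Om r₁ r₂ a) : 0 ≤ S1 r₁ r₂ a z := by
  unfold S1
  split_ifs with hc
  · exact le_min (S0_nonneg hz)
      (Phi_nonneg (TT_nonneg (channel_im h₁ h₂ ha ha' hz hc.1 hc.2)))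
  · exact S0_nonneg hz

theorem sL_le_S1 {r₁ r₂ a : ℝ} (h₁ : 1000 ≤ r₁) (h₂ : 1000 ≤ r₂) (ha : 1 ≤ a)
    (ha' : a ≤ 101 / 100) {z : ℂ} (hz : z ∈ Om r₁ r₂ a) :
    sL ((r₁ + r₂ : ℝ) : ℂ) z ≤ S1 r₁ r₂ a z := by
  rcases le_or_gt 10 ‖z - ((r₁ + r₂ : ℝ) : ℂ)‖ with h | h
  · rw [sL_eq_zero h]
    exact S1_nonneg h₁ h₂ ha ha' hz
  · have h3 : r₁ + r₂ - 10 < z.re := by
      have := Complex.abs_re_le_norm (z - ((r₁ + r₂ : ℝ) : ℂ))
      simp only [Complex.sub_re, Complex.ofReal_re] at this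
      have := (abs_le.1 this).1
      linarith
    have hS : S1 r₁ r₂ a z = 1 := by
      unfold S1
      rw [if_neg]
      · have k1 : radS (c1 r₁ a) r₁ z = 1 := by
          apply psi_eq_one
          have := Complex.abs_re_le_norm (z - c1 r₁ a)
          have e : (z - c1 r₁ a).re = z.re := by simp [c1]
          rw [e] at this
          have := (le_abs_self z.re).trans this
          linarith
        have k2 : radS (c2 r₂ a) r₂ z = 1 := by
          apply psi_eq_one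
          have := Complex.abs_re_le_norm (z - c2 r₂ a)
          have e : (z - c2 r₂ a).re = z.re := by simp [c2]
          rw [e] at this
          have := (le_abs_self z.re).trans this
          linarith
        rw [S0, k1, k2, min_self]
      · rintro ⟨h5, -⟩
        have := le_abs_self z.re
        linarith
    rw [hS]
    exact (sL_le _ _).trans (by norm_num)

theorem exists_low {r₁ r₂ a : ℝ} (h₁ : 1000 ≤ r₁) (h₂ : 1000 ≤ r₂) (ha : 1 ≤ a)
    (ha' : a ≤ 101 / 100) :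
    ∃ u : ℂ → ℝ, IsPosBddSol fR (Om r₁ r₂ a) u ∧ u 0 ≤ 1 / 10 := by
  obtain ⟨L, hL0, hL⟩ := lip_fR
  have hop := isOpen_Om r₁ r₂ a
  have h0 := zero_mem_Om (r₁ := r₁) (r₂ := r₂) (a := a) (by linarith) (by linarith) (by linarith)
  obtain ⟨u₀, hu1, hu2⟩ := sub_super hop (contDiff_fR (n := 1)) hL0 hL
    (s := sL ((r₁ + r₂ : ℝ) : ℂ)) (S := S1 r₁ r₂ a) (continuous_sL _).continuousOn
    (continuousOn_S1 h₁ h₂ ha ha')
    (M := 1) (fun z _ => by linarith [sL_nonneg ((r₁ + r₂ : ℝ) : ℂ) z])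
    (fun z _ => (S1_le_S0 _ _ _ _).trans (S0_le_one r₁ r₂ a z))
    (fun z hz => sL_le_S1 h₁ h₂ ha ha' hz) (fun z _ => subAt_sL _ z)
    (fun z hz => supAt_S1 h₁ h₂ ha ha' hz)
  have hp : ((r₁ + r₂ : ℝ) : ℂ) ∈ Om r₁ r₂ a := by
    rw [mem_Om (by linarith) (by linarith)]
    simp only [Complex.ofReal_re, Complex.ofReal_im]
    constructor <;> nlinarith
  have hz0 : u₀ 0 ≤ 1 / 10 := by
    refine (hu2 0 h0).2.trans ?_
    unfold S1
    rw [if_pos (by simp)]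
    refine (min_le_right _ _).trans ((Phi_le_self _).trans ?_)
    simp [TT]
  obtain ⟨u, hu, hue⟩ := make_sol h₁ h₂ (by linarith) hu1
    (fun z hz => (sL_nonneg _ z).trans (hu2 z hz).1)
    (fun z hz => (hu2 z hz).2.trans (S1_le_S0 _ _ _ _))
    ⟨((r₁ + r₂ : ℝ) : ℂ), hp, by
      have := (hu2 _ hp).1
      rw [sL_self] at this
      linarith⟩
  exact ⟨u, hu, by rw [hue 0 h0]; exact hz0⟩

end Pool.Agent.Lib.MP_dc9025_an
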