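import Mathlib

/-!
# Kernel estimates for the logarithmic and Cauchy kernels in the plane
-/

set_option autoImplicit false

open Metric Set Filter Topology MeasureTheory

namespace Pool.Agent.Lib.MP_dc9025_an

/-- The dominating singular weight `‖w‖ ^ (-3/2)`. -/
noncomputable def kap (w : ℂ) : ℝ := ‖w‖ ^ (-(3 / 2) : ℝ)

theorem kap_nonneg (w : ℂ) : 0 ≤ kap w := Real.rpow_nonneg (norm_nonneg _) _

theorem measurable_kap : Measurable kap := by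
  unfold kap
  fun_prop

theorem kap_neg (w : ℂ) : kap (-w) = kap w := by simp [kap]

theorem integrableOn_kap (R : ℝ) : IntegrableOn kap (ball 0 R) := by
  have h1 : 1 ≤ Module.finrank ℝ ℂ := by rw [Complex.finrank_real_complex]; norm_num
  have h2 : (3 / 2 : ℝ) < Module.finrank ℝ ℂ := by rw [Complex.finrank_real_complex]; norm_num
  refine integrableOn_ball_of_norm_le_rpow (μ := volume) (C := 1) h1 h2 ?_
    measurable_kap.aestronglyMeasurable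
  refine Eventually.of_forall fun x => ?_
  rw [Real.norm_of_nonneg (kap_nonneg x), one_mul]
  exact le_of_eq rfl

/-- total mass of the weight on a ball -/
noncomputable def kapMass (R : ℝ) : ℝ := ∫ w in ball (0 : ℂ) R, kap w

theorem kapMass_nonneg (R : ℝ) : 0 ≤ kapMass R :=
  setIntegral_nonneg measurableSet_ball fun w _ => kap_nonneg w

theorem integrableOn_kap_sub (z : ℂ) (R : ℝ) : IntegrableOn (fun y => kap (z - y)) (ball z R) := by
  have h1 : MeasurePreserving (fun y : ℂ => z - y) volume volume :=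
    Measure.measurePreserving_sub_left volume z
  have h2 : MeasurableEmbedding (fun y : ℂ => z - y) :=
    (MeasurableEquiv.subLeft z).measurableEmbedding
  have h3 := (h1.integrableOn_comp_preimage h2 (f := kap) (s := ball (0 : ℂ) R)).2
    (integrableOn_kap R)
  have : (fun y : ℂ => z - y) ⁻¹' ball 0 R = ball z R := by
    ext y
    simp only [mem_ball, mem_preimage, dist_eq_norm, sub_zero]
    rw [norm_sub_rev]
  rw [this] at h3
  exact h3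

theorem setIntegral_kap_sub (z : ℂ) (R : ℝ) :
    ∫ y in ball z R, kap (z - y) = kapMass R := by
  have h1 : MeasurePreserving (fun y : ℂ => z - y) volume volume :=
    Measure.measurePreserving_sub_left volume z
  have h2 : MeasurableEmbedding (fun y : ℂ => z - y) :=
    (MeasurableEquiv.subLeft z).measurableEmbedding
  have h3 := h1.setIntegral_preimage_emb h2 kap (ball (0 : ℂ) R)
  rw [kapMass, ← h3]
  have : (fun y : ℂ => z - y) ⁻¹' ball 0 R = ball z R := by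
    ext y
    simp only [mem_ball, mem_preimage, dist_eq_norm, sub_zero]
    rw [norm_sub_rev]
  rw [this]

theorem log_abs_le {s : ℝ} (hs : 0 < s) : |Real.log s| ≤ s + s ^ (-(3 / 2) : ℝ) := by
  have h0 : 0 < s ^ (-(3 / 2) : ℝ) := Real.rpow_pos_of_pos hs _
  rw [abs_le]
  constructor
  · have h1 : Real.log s⁻¹ ≤ (s⁻¹) ^ (3 / 2 : ℝ) / (3 / 2) :=
      Real.log_le_rpow_div (by positivity) (by norm_num)
    rw [Real.log_inv, Real.inv_rpow hs.le, ← Real.rpow_neg hs.le] at h1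
    have : s ^ (-(3 / 2) : ℝ) / (3 / 2) ≤ s ^ (-(3 / 2) : ℝ) := by
      apply div_le_self h0.le; norm_num
    linarith
  · have := Real.log_le_sub_one_of_pos hs
    linarith

/-- Normalised first order estimate for the logarithm. -/
theorem log_taylor_aux {t : ℂ} (ht : 1 + t ≠ 0) (ht0 : t ≠ 0) :
    |Real.log ‖1 + t‖ - t.re| ≤
      4 * (‖t‖ ^ (3 / 2 : ℝ) + (‖t‖ / ‖1 + t‖) ^ (3 / 2 : ℝ)) := by
  have htp : 0 < ‖t‖ := norm_pos_iff.2 ht0
  have h1p : 0 < ‖1 + t‖ := norm_pos_iff.2 ht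
  have hB : 0 ≤ (‖t‖ / ‖1 + t‖) ^ (3 / 2 : ℝ) := by positivity
  rcases le_or_gt ‖t‖ (1 / 2) with h | h
  · have h1 : ‖Complex.log (1 + t) - t‖ ≤ ‖t‖ ^ 2 * (1 - ‖t‖)⁻¹ / 2 :=
      Complex.norm_log_one_add_sub_self_le (by linarith)
    have h2 : (1 - ‖t‖)⁻¹ ≤ 2 := by
      rw [inv_le_comm₀ (by linarith) (by norm_num)]
      linarith
    have h3 : |Real.log ‖1 + t‖ - t.re| ≤ ‖Complex.log (1 + t) - t‖ := by
      have : Real.log ‖1 + t‖ - t.re = (Complex.log (1 + t) - t).re := by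
        simp [Complex.log_re]
      rw [this]
      exact Complex.abs_re_le_norm _
    have h4 : ‖t‖ ^ 2 ≤ ‖t‖ ^ (3 / 2 : ℝ) := by
      rw [← Real.rpow_natCast]
      apply Real.rpow_le_rpow_of_exponent_ge htp (by linarith)
      norm_num
    have h5 : ‖t‖ ^ 2 * (1 - ‖t‖)⁻¹ / 2 ≤ ‖t‖ ^ 2 := by
      have := mul_le_mul_of_nonneg_left h2 (sq_nonneg ‖t‖)
      linarith
    have h6 : 0 ≤ ‖t‖ ^ (3 / 2 : ℝ) := by positivity
    nlinarith
  · -- `‖t‖ ≤ 2 ‖t‖^{3/2}`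
    have hsq : (1 / 2 : ℝ) ≤ ‖t‖ ^ (1 / 2 : ℝ) := by
      have h1 : (1 / 2 : ℝ) ^ (1 / 2 : ℝ) ≤ ‖t‖ ^ (1 / 2 : ℝ) :=
        Real.rpow_le_rpow (by norm_num) h.le (by norm_num)
      have h2 : (1 / 2 : ℝ) ^ (1 : ℝ) ≤ (1 / 2 : ℝ) ^ (1 / 2 : ℝ) :=
        Real.rpow_le_rpow_of_exponent_ge (by norm_num) (by norm_num) (by norm_num)
      rw [Real.rpow_one] at h2
      linarith
    have hA : ‖t‖ ≤ 2 * ‖t‖ ^ (3 / 2 : ℝ) := by
      have e : ‖t‖ ^ (3 / 2 : ℝ) = ‖t‖ * ‖t‖ ^ (1 / 2 : ℝ) := by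
        have : (3 / 2 : ℝ) = 1 + 1 / 2 := by norm_num
        rw [this, Real.rpow_add htp, Real.rpow_one]
      rw [e]
      nlinarith
    have hre : |t.re| ≤ ‖t‖ := Complex.abs_re_le_norm t
    have hlogup : Real.log ‖1 + t‖ ≤ ‖t‖ := by
      have h1 := Real.log_le_sub_one_of_pos h1p
      have h2 : ‖1 + t‖ ≤ 1 + ‖t‖ := by
        have := norm_add_le (1 : ℂ) t
        simpa using this
      linarith
    have hloglo : -Real.log ‖1 + t‖ ≤ 2 * (‖t‖ / ‖1 + t‖) ^ (3 / 2 : ℝ) := by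
      have h1 : Real.log (‖1 + t‖)⁻¹ ≤ ((‖1 + t‖)⁻¹) ^ (3 / 2 : ℝ) / (3 / 2) :=
        Real.log_le_rpow_div (by positivity) (by norm_num)
      rw [Real.log_inv] at h1
      have e : (‖t‖ / ‖1 + t‖) ^ (3 / 2 : ℝ) =
          ‖t‖ ^ (3 / 2 : ℝ) * ((‖1 + t‖)⁻¹) ^ (3 / 2 : ℝ) := by
        rw [div_eq_mul_inv, Real.mul_rpow htp.le (by positivity)]
      have h3 : (1 / 3 : ℝ) ≤ ‖t‖ ^ (3 / 2 : ℝ) := by
        have e2 : ‖t‖ ^ (3 / 2 : ℝ) = ‖t‖ * ‖t‖ ^ (1 / 2 : ℝ) := by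
          have : (3 / 2 : ℝ) = 1 + 1 / 2 := by norm_num
          rw [this, Real.rpow_add htp, Real.rpow_one]
        have h4 : (7 / 10 : ℝ) ≤ ‖t‖ ^ (1 / 2 : ℝ) := by
          have h5 : (1 / 2 : ℝ) ^ (1 / 2 : ℝ) ≤ ‖t‖ ^ (1 / 2 : ℝ) :=
            Real.rpow_le_rpow (by norm_num) h.le (by norm_num)
          have h6 : (7 / 10 : ℝ) ≤ (1 / 2 : ℝ) ^ (1 / 2 : ℝ) := by
            rw [← Real.sqrt_eq_rpow]
            apply Real.le_sqrt_of_sq_le
            norm_num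
          linarith
        rw [e2]
        nlinarith
      have h7 : 0 ≤ ((‖1 + t‖)⁻¹) ^ (3 / 2 : ℝ) := by positivity
      rw [e]
      nlinarith
    have h8 : 0 ≤ ‖t‖ ^ (3 / 2 : ℝ) := by positivity
    rw [abs_le] at hre ⊢
    constructor <;> linarith [hre.1, hre.2]

theorem log_taylor {w v : ℂ} (hw : w ≠ 0) (hwv : w + v ≠ 0) :
    |Real.log ‖w + v‖ - Real.log ‖w‖ - (v / w).re| ≤
      4 * ‖v‖ ^ (3 / 2 : ℝ) * (kap w + kap (w + v)) := by
  rcases eq_or_ne v 0 with rfl | hv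
  · simp
  have hwp : 0 < ‖w‖ := norm_pos_iff.2 hw
  have hwvp : 0 < ‖w + v‖ := norm_pos_iff.2 hwv
  have hvp : 0 < ‖v‖ := norm_pos_iff.2 hv
  have e1 : w + v = w * (1 + v / w) := by field_simp
  have ht : 1 + v / w ≠ 0 := by
    intro h
    rw [h, mul_zero] at e1
    exact hwv e1
  have ht0 : v / w ≠ 0 := div_ne_zero hv hw
  have h := log_taylor_aux ht ht0
  have e2 : Real.log ‖w + v‖ - Real.log ‖w‖ = Real.log ‖1 + v / w‖ := by
    rw [e1, norm_mul, Real.log_mul (norm_ne_zero_iff.2 hw) (norm_ne_zero_iff.2 ht)]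
    ring
  rw [e2]
  refine h.trans (le_of_eq ?_)
  have e3 : ‖v / w‖ ^ (3 / 2 : ℝ) = ‖v‖ ^ (3 / 2 : ℝ) * kap w := by
    rw [norm_div, Real.div_rpow hvp.le hwp.le, kap, Real.rpow_neg hwp.le]
    rfl
  have e4 : (‖v / w‖ / ‖1 + v / w‖) ^ (3 / 2 : ℝ) = ‖v‖ ^ (3 / 2 : ℝ) * kap (w + v) := by
    have : ‖v / w‖ / ‖1 + v / w‖ = ‖v‖ / ‖w + v‖ := by
      rw [e1, norm_mul, norm_div]
      have := norm_ne_zero_iff.2 ht
      field_simp
    rw [this, Real.div_rpow hvp.le hwvp.le, kap, Real.rpow_neg hwvp.le]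
    rfl
  rw [e3, e4]
  ring

theorem inv_sub_inv_le {w v : ℂ} (hw : w ≠ 0) (hwv : w + v ≠ 0) :
    ‖(w + v)⁻¹ - w⁻¹‖ ≤ ‖v‖ ^ (1 / 2 : ℝ) * (kap w + kap (w + v)) := by
  have hwp : 0 < ‖w‖ := norm_pos_iff.2 hw
  have hwvp : 0 < ‖w + v‖ := norm_pos_iff.2 hwv
  have e1 : (w + v)⁻¹ - w⁻¹ = -v / (w * (w + v)) := by
    field_simp
    ring
  rw [e1, norm_div, norm_neg, norm_mul]
  set a := Real.sqrt ‖w‖ with ha
  set b := Real.sqrt ‖w + v‖ with hb
  set d := Real.sqrt ‖v‖ with hd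
  have hap : 0 < a := Real.sqrt_pos.2 hwp
  have hbp : 0 < b := Real.sqrt_pos.2 hwvp
  have hdp : 0 ≤ d := Real.sqrt_nonneg _
  have ha2 : ‖w‖ = a ^ 2 := (Real.sq_sqrt (norm_nonneg _)).symm
  have hb2 : ‖w + v‖ = b ^ 2 := (Real.sq_sqrt (norm_nonneg _)).symm
  have hd2 : ‖v‖ = d ^ 2 := (Real.sq_sqrt (norm_nonneg _)).symm
  have hdle : d ≤ a + b := by
    rw [hd]
    apply Real.sqrt_le_iff.2
    constructor
    · positivity
    · have : ‖v‖ ≤ ‖w‖ + ‖w + v‖ := by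
        have h1 : v = (w + v) - w := by ring
        calc ‖v‖ = ‖(w + v) - w‖ := by rw [← h1]
          _ ≤ ‖w + v‖ + ‖w‖ := norm_sub_le _ _
          _ = _ := by ring
      nlinarith
  have e2 : ‖v‖ ^ (1 / 2 : ℝ) = d := by rw [hd, Real.sqrt_eq_rpow]
  have e3 : kap w = (a ^ 3)⁻¹ := by
    rw [kap, Real.rpow_neg hwp.le, ha, Real.sqrt_eq_rpow, ← Real.rpow_natCast,
      ← Real.rpow_mul hwp.le]
    norm_num
  have e4 : kap (w + v) = (b ^ 3)⁻¹ := by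
    rw [kap, Real.rpow_neg hwvp.le, hb, Real.sqrt_eq_rpow, ← Real.rpow_natCast,
      ← Real.rpow_mul hwvp.le]
    norm_num
  rw [e2, e3, e4, ha2, hb2, hd2]
  have key : d / (a ^ 2 * b ^ 2) ≤ (a ^ 3)⁻¹ + (b ^ 3)⁻¹ := by
    have h1 : d / (a ^ 2 * b ^ 2) ≤ (a + b) / (a ^ 2 * b ^ 2) := by gcongr
    have h2 : (a + b) / (a ^ 2 * b ^ 2) ≤ (a ^ 3)⁻¹ + (b ^ 3)⁻¹ := by
      rw [div_le_iff₀ (by positivity)]
      have : ((a ^ 3)⁻¹ + (b ^ 3)⁻¹) * (a ^ 2 * b ^ 2) = b ^ 2 / a + a ^ 2 / b := by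
        field_simp
      rw [this, div_add_div _ _ hap.ne' hbp.ne', le_div_iff₀ (by positivity)]
      nlinarith [mul_nonneg (add_nonneg hap.le hbp.le) (sq_nonneg (a - b))]
    linarith
  calc d ^ 2 / (a ^ 2 * b ^ 2) = d * (d / (a ^ 2 * b ^ 2)) := by ring
    _ ≤ d * ((a ^ 3)⁻¹ + (b ^ 3)⁻¹) := by gcongr

end Pool.Agent.Lib.MP_dc9025_an
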