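import Mathlib

/-!
# The Poisson integral on a disc: harmonicity, bounds and boundary continuity
-/

set_option autoImplicit false

open Metric Set Filter Topology MeasureTheory InnerProductSpace Laplacian

namespace Pool.Agent.Lib.MP_dc9025_an

/-- Poisson integral of `φ` on the circle `sphere c r` -/
noncomputable def poi (c : ℂ) (r : ℝ) (φ : ℂ → ℝ) (z : ℂ) : ℝ :=
  Real.circleAverage (fun ζ => poissonKernel c z ζ * φ ζ) c r

variable {c z : ℂ} {r : ℝ} {φ : ℂ → ℝ}

theorem pk_pos {ζ : ℂ} (hζ : ζ ∈ sphere c r) (hz : z ∈ ball c r) : 0 < poissonKernel c z ζ := by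
  rw [poissonKernel_def]
  rw [mem_sphere, dist_eq_norm] at hζ
  rw [mem_ball, dist_eq_norm] at hz
  apply div_pos
  · rw [hζ]
    have := norm_nonneg (z - c)
    nlinarith
  · have : (ζ - c) - (z - c) ≠ 0 := by
      intro h
      rw [sub_eq_zero] at h
      rw [h] at hζ
      linarith
    positivity

theorem continuousOn_pk (hz : z ∈ ball c r) : ContinuousOn (poissonKernel c z) (sphere c |r|) := by
  rw [poissonKernel_eq_re_herglotzRieszKernel]
  exact Complex.continuous_re.comp_continuousOn (continuousOn_herglotzRieszKernel_sphere hz)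

theorem poi_int (hφ : CircleIntegrable φ c r) (hz : z ∈ ball c r) :
    CircleIntegrable (fun ζ => poissonKernel c z ζ * φ ζ) c r := by
  exact hφ.continuousOn_smul (continuousOn_pk hz)

theorem poi_const (a : ℝ) (hz : z ∈ ball c r) : poi c r (fun _ => a) z = a := by
  have h : HarmonicOnNhd (fun _ : ℂ => a) (closedBall c r) := by
    intro x _
    exact harmonicAt_const a
  exact h.circleAverage_poissonKernel_smul hz

theorem poi_add {ψ : ℂ → ℝ} (hφ : CircleIntegrable φ c r) (hψ : CircleIntegrable ψ c r)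
    (hz : z ∈ ball c r) : poi c r (fun ζ => φ ζ + ψ ζ) z = poi c r φ z + poi c r ψ z := by
  rw [poi, poi, poi, ← Real.circleAverage_fun_add (poi_int hφ hz) (poi_int hψ hz)]
  congr 1
  ext ζ
  ring

theorem poi_sub {ψ : ℂ → ℝ} (hφ : CircleIntegrable φ c r) (hψ : CircleIntegrable ψ c r)
    (hz : z ∈ ball c r) : poi c r (fun ζ => φ ζ - ψ ζ) z = poi c r φ z - poi c r ψ z := by
  rw [poi, poi, poi, ← Real.circleAverage_fun_sub (poi_int hφ hz) (poi_int hψ hz)]
  congr 1
  ext ζ
  ring

theorem poi_mono {ψ : ℂ → ℝ} (hφ : CircleIntegrable φ c r) (hψ : CircleIntegrable ψ c r)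
    (hz : z ∈ ball c r) (h : ∀ ζ ∈ sphere c r, φ ζ ≤ ψ ζ) : poi c r φ z ≤ poi c r ψ z := by
  have hr : 0 < r := pos_of_mem_ball hz
  apply Real.circleAverage_mono (poi_int hφ hz) (poi_int hψ hz)
  intro ζ hζ
  rw [abs_of_pos hr] at hζ
  exact mul_le_mul_of_nonneg_left (h ζ hζ) (pk_pos hζ hz).le

theorem poi_congr {ψ : ℂ → ℝ} (hr : 0 < r) (h : ∀ ζ ∈ sphere c r, φ ζ = ψ ζ) :
    poi c r φ z = poi c r ψ z := by
  apply Real.circleAverage_congr_sphere
  intro ζ hζ
  rw [abs_of_pos hr] at hζ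
  simp only
  rw [h ζ hζ]

theorem poi_abs_sub_le (hφ : CircleIntegrable φ c r) (hz : z ∈ ball c r) {a M : ℝ}
    (h : ∀ ζ ∈ sphere c r, |φ ζ - a| ≤ M) : |poi c r φ z - a| ≤ M := by
  have h1 : poi c r φ z ≤ a + M := by
    rw [← poi_const (a + M) hz]
    apply poi_mono hφ (circleIntegrable_const _ _ _) hz
    intro ζ hζ
    linarith [(abs_le.1 (h ζ hζ)).2]
  have h2 : a - M ≤ poi c r φ z := by
    rw [← poi_const (a - M) hz]
    apply poi_mono (circleIntegrable_const _ _ _) hφ hz
    intro ζ hζ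
    linarith [(abs_le.1 (h ζ hζ)).1]
  rw [abs_le]
  constructor <;> linarith

theorem poi_harmonic (hφ : CircleIntegrable φ c r) (hz : z ∈ ball c r) :
    HarmonicAt (poi c r φ) z := by
  have hφ' : CircleIntegrable (fun ζ => φ (ζ + c)) 0 r := by
    have h := hφ
    unfold CircleIntegrable at h ⊢
    convert h using 2 with θ
    simp [circleMap, add_comm]
  have hφC : CircleIntegrable (fun ζ => (φ (ζ + c) : ℂ)) 0 r := by
    simp only [CircleIntegrable, intervalIntegrable_iff] at hφ' ⊢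
    exact Complex.ofRealCLM.integrable_comp hφ'
  have hana := analyticOnNhd_circleAverage_herglotzRieszKernel_smul hφC
  have hzc : z - c ∈ ball (0 : ℂ) r := by
    rw [mem_ball, dist_eq_norm] at hz
    simpa using hz
  have h1 : AnalyticAt ℂ (fun w : ℂ => Real.circleAverage
      (fun ζ ↦ herglotzRieszKernel 0 (w - c) ζ • (φ (ζ + c) : ℂ)) 0 r) z := by
    have := (hana (z - c) hzc).comp (g := fun w : ℂ => Real.circleAverage
      (fun ζ ↦ herglotzRieszKernel 0 w ζ • (φ (ζ + c) : ℂ)) 0 r) (f := fun w : ℂ => w - c)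
      (x := z) (by fun_prop)
    exact this
  have h2 := h1.harmonicAt_re
  rw [harmonicAt_congr_nhds (f₂ := fun w : ℂ => (Real.circleAverage
      (fun ζ ↦ herglotzRieszKernel 0 (w - c) ζ • (φ (ζ + c) : ℂ)) 0 r).re)]
  · exact h2
  · filter_upwards [isOpen_ball.mem_nhds hz] with w hw
    have hwc : w - c ∈ ball (0 : ℂ) r := by
      rw [mem_ball, dist_eq_norm] at hw
      simpa using hw
    rw [re_circleAverage_herglotzRieszKernel_smul hφ' hwc]
    rw [poi, ← Real.circleAverage_map_add_const]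
    congr 1
    ext ζ
    rw [← poissonKernel_eq_re_herglotzRieszKernel]
    simp only [Pi.smul_apply', smul_eq_mul]
    congr 1
    simp only [poissonKernel_def]
    simp

theorem circleIntegrable_of_continuousOn (hr : 0 < r) (hφ : ContinuousOn φ (sphere c r)) :
    CircleIntegrable φ c r := ContinuousOn.circleIntegrable hr.le hφ

/-- Boundary values of the Poisson integral. -/
theorem poi_tendsto (hr : 0 < r) (hφ : ContinuousOn φ (sphere c r)) {ζ₀ : ℂ}
    (hζ₀ : ζ₀ ∈ sphere c r) : Tendsto (poi c r φ) (𝓝[ball c r] ζ₀) (𝓝 (φ ζ₀)) := by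
  have hci := circleIntegrable_of_continuousOn hr hφ
  obtain ⟨M, hM⟩ := (isCompact_sphere c r).exists_bound_of_continuousOn hφ
  have hM0 : 0 ≤ M := (norm_nonneg _).trans (hM ζ₀ hζ₀)
  rw [Metric.tendsto_nhdsWithin_nhds]
  intro ε hε
  obtain ⟨δ, hδ, hδφ⟩ := Metric.continuousWithinAt_iff.1 (hφ ζ₀ hζ₀) (ε / 2) (by positivity)
  -- choose the neighbourhood
  have hcont : Tendsto (fun z : ℂ => 2 * M * (4 / δ ^ 2) * (r ^ 2 - ‖z - c‖ ^ 2)) (𝓝 ζ₀)
      (𝓝 (2 * M * (4 / δ ^ 2) * (r ^ 2 - ‖ζ₀ - c‖ ^ 2))) := by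
    apply Continuous.tendsto
    fun_prop
  have hnr : ‖ζ₀ - c‖ = r := by rwa [mem_sphere, dist_eq_norm] at hζ₀
  rw [hnr, sub_self, mul_zero] at hcont
  obtain ⟨η, hη, hηb⟩ := Metric.tendsto_nhds_nhds.1 hcont (ε / 2) (by positivity)
  refine ⟨min η (δ / 2), by positivity, ?_⟩
  intro z hz hzd
  have h1 : dist z ζ₀ < η := lt_of_lt_of_le hzd (min_le_left _ _)
  have h2 : dist z ζ₀ < δ / 2 := lt_of_lt_of_le hzd (min_le_right _ _)
  have h3 := hηb h1
  rw [Real.dist_eq, sub_zero] at h3
  set Q : ℝ := 2 * M * (4 / δ ^ 2) * (r ^ 2 - ‖z - c‖ ^ 2) with hQ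
  have h3' : Q < ε / 2 := (abs_lt.1 h3).2
  have hzn : ‖z - c‖ < r := by rwa [mem_ball, dist_eq_norm] at hz
  have hpos : 0 ≤ r ^ 2 - ‖z - c‖ ^ 2 := by
    have := norm_nonneg (z - c)
    nlinarith
  have key : ∀ ζ ∈ sphere c r, |poissonKernel c z ζ * (φ ζ - φ ζ₀)| ≤
      poissonKernel c z ζ * (ε / 2) + Q := by
    intro ζ hζ
    have hp := (pk_pos hζ hz).le
    rw [abs_mul, abs_of_nonneg hp]
    by_cases hd : dist ζ ζ₀ < δ
    · have h4 := hδφ hζ hd
      rw [Real.dist_eq] at h4
      have h5 : poissonKernel c z ζ * |φ ζ - φ ζ₀| ≤ poissonKernel c z ζ * (ε / 2) :=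
        mul_le_mul_of_nonneg_left h4.le hp
      have h6 : 0 ≤ Q := by rw [hQ]; positivity
      linarith
    · push Not at hd
      have hζn : ‖ζ - c‖ = r := by rwa [mem_sphere, dist_eq_norm] at hζ
      have h4 : δ / 2 ≤ ‖(ζ - c) - (z - c)‖ := by
        have : (ζ - c) - (z - c) = ζ - z := by ring
        rw [this, ← dist_eq_norm]
        have := dist_triangle ζ z ζ₀
        linarith
      have h5 : poissonKernel c z ζ ≤ 4 / δ ^ 2 * (r ^ 2 - ‖z - c‖ ^ 2) := by
        rw [poissonKernel_def, hζn]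
        rw [div_le_iff₀ (by have := lt_of_lt_of_le (by positivity : 0 < δ / 2) h4; positivity)]
        have h6 : (δ / 2) ^ 2 ≤ ‖(ζ - c) - (z - c)‖ ^ 2 := by
          apply pow_le_pow_left₀ (by positivity) h4
        calc r ^ 2 - ‖z - c‖ ^ 2 = 4 / δ ^ 2 * (r ^ 2 - ‖z - c‖ ^ 2) * (δ / 2) ^ 2 := by
              field_simp; ring
          _ ≤ _ := by gcongr
      have h6 : |φ ζ - φ ζ₀| ≤ 2 * M := by
        have a1 := hM ζ hζ
        have a2 := hM ζ₀ hζ₀
        rw [Real.norm_eq_abs] at a1 a2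
        have := abs_sub (φ ζ) (φ ζ₀)
        linarith
      have h7 : poissonKernel c z ζ * |φ ζ - φ ζ₀| ≤ 4 / δ ^ 2 * (r ^ 2 - ‖z - c‖ ^ 2) * (2 * M) := by
        gcongr
      have h8 : 0 ≤ poissonKernel c z ζ * (ε / 2) := by positivity
      have h9 : 4 / δ ^ 2 * (r ^ 2 - ‖z - c‖ ^ 2) * (2 * M) = Q := by rw [hQ]; ring
      linarith
  have hint1 : CircleIntegrable (fun ζ => φ ζ - φ ζ₀) c r :=
    hci.fun_sub (circleIntegrable_const _ _ _)
  have e1 : poi c r φ z - φ ζ₀ = poi c r (fun ζ => φ ζ - φ ζ₀) z := by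
    rw [poi_sub hci (circleIntegrable_const _ _ _) hz, poi_const _ hz]
  have hint2 := poi_int hint1 hz
  have hint3 : CircleIntegrable (fun ζ => poissonKernel c z ζ * (ε / 2) + Q) c r :=
    (poi_int (circleIntegrable_const (ε / 2) c r) hz).fun_add (circleIntegrable_const _ _ _)
  rw [Real.dist_eq, e1, poi]
  have h10 : |Real.circleAverage (fun ζ => poissonKernel c z ζ * (φ ζ - φ ζ₀)) c r| ≤
      Real.circleAverage (fun ζ => poissonKernel c z ζ * (ε / 2) + Q) c r := by
    refine Real.abs_circleAverage_le_circleAverage_abs.trans ?_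
    apply Real.circleAverage_mono _ hint3
    · intro ζ hζ
      rw [abs_of_pos hr] at hζ
      exact key ζ hζ
    · exact hint2.abs
  have h11 : Real.circleAverage (fun ζ => poissonKernel c z ζ * (ε / 2) + Q) c r = ε / 2 + Q := by
    rw [Real.circleAverage_fun_add (poi_int (circleIntegrable_const (ε / 2) c r) hz)
      (circleIntegrable_const _ _ _), Real.circleAverage_const]
    have := poi_const (ε / 2) hz
    rw [poi] at this
    rw [this]
  linarith

/-- harmonic extension of the boundary values of `φ` into the disc -/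
noncomputable def hext (c : ℂ) (r : ℝ) (φ : ℂ → ℝ) (z : ℂ) : ℝ :=
  open Classical in if z ∈ ball c r then poi c r φ z else φ z

theorem hext_of_mem (hz : z ∈ ball c r) : hext c r φ z = poi c r φ z := if_pos hz

theorem hext_of_notMem (hz : z ∉ ball c r) : hext c r φ z = φ z := if_neg hz

theorem continuousOn_hext (hr : 0 < r) (hφ : ContinuousOn φ (sphere c r)) :
    ContinuousOn (hext c r φ) (closedBall c r) := by
  intro z hz
  by_cases hzb : z ∈ ball c r
  · have h1 : ContinuousAt (poi c r φ) z :=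
      (poi_harmonic (circleIntegrable_of_continuousOn hr hφ) hzb).1.continuousAt
    have h2 : hext c r φ =ᶠ[𝓝 z] poi c r φ := by
      filter_upwards [isOpen_ball.mem_nhds hzb] with w hw
      exact hext_of_mem hw
    exact (h1.congr h2.symm).continuousWithinAt
  · have hzs : z ∈ sphere c r := by
      rw [mem_closedBall] at hz
      rw [mem_ball, not_lt] at hzb
      rw [mem_sphere]
      linarith
    have e : closedBall c r = ball c r ∪ sphere c r := ball_union_sphere.symm
    rw [e]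
    apply ContinuousWithinAt.union
    · rw [ContinuousWithinAt, hext_of_notMem hzb]
      apply (poi_tendsto hr hφ hzs).congr'
      filter_upwards [self_mem_nhdsWithin] with w hw
      exact (hext_of_mem hw).symm
    · rw [ContinuousWithinAt, hext_of_notMem hzb]
      have := hφ z hzs
      rw [ContinuousWithinAt] at this
      apply this.congr'
      filter_upwards [self_mem_nhdsWithin] with w hw
      have : w ∉ ball c r := by
        rw [mem_sphere] at hw
        rw [mem_ball]; linarith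
      exact (hext_of_notMem this).symm

end Pool.Agent.Lib.MP_dc9025_an
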