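import Pool.Agent.Lib.MP_dc9025_an.Kernel

/-!
# Logarithmic potentials of bounded densities with bounded support
-/

set_option autoImplicit false

open Metric Set Filter Topology MeasureTheory

namespace Pool.Agent.Lib.MP_dc9025_an

/-- A bounded measurable density supported in a closed disc. -/
structure Dens (k : ℂ → ℝ) (c : ℂ) (R K : ℝ) : Prop where
  hR : 0 ≤ R
  meas : AEStronglyMeasurable k volume
  bound : ∀ y, |k y| ≤ K
  supp : ∀ y, y ∉ closedBall c R → k y = 0

/-- logarithmic potential -/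
noncomputable def pot (k : ℂ → ℝ) (z : ℂ) : ℝ := ∫ y, Real.log ‖z - y‖ * k y

/-- Cauchy transform -/
noncomputable def cau (k : ℂ → ℝ) (z : ℂ) : ℂ := ∫ y, (z - y)⁻¹ * (k y : ℂ)

/-- the real linear form `v ↦ Re (a v)` -/
noncomputable def gradL : ℂ →L[ℝ] ℂ →L[ℝ] ℝ :=
  (ContinuousLinearMap.compL ℝ ℂ ℂ ℝ Complex.reCLM).comp (ContinuousLinearMap.mul ℝ ℂ)

@[simp] theorem gradL_apply (a v : ℂ) : gradL a v = (a * v).re := rfl

variable {k : ℂ → ℝ} {c : ℂ} {R K : ℝ}

theorem Dens.nonneg (hk : Dens k c R K) : 0 ≤ K := (abs_nonneg _).trans (hk.bound 0)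

theorem Dens.integrable (hk : Dens k c R K) : Integrable k := by
  have h1 : Integrable ((closedBall c R).indicator (fun _ => K)) :=
    (integrable_indicator_iff measurableSet_closedBall).2
      (integrableOn_const (measure_closedBall_lt_top).ne)
  refine h1.mono' hk.meas (Eventually.of_forall fun y => ?_)
  by_cases hy : y ∈ closedBall c R
  · rw [indicator_of_mem hy]; exact hk.bound y
  · rw [indicator_of_notMem hy, hk.supp y hy]; simp

theorem Dens.kap_int (hk : Dens k c R K) {z : ℂ} {ρ : ℝ} (hρ : dist z c + R < ρ) :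
    Integrable (fun y => kap (z - y) * |k y|) ∧
      ∫ y, kap (z - y) * |k y| ≤ K * kapMass ρ := by
  have hsub : closedBall c R ⊆ ball z ρ := by
    intro y hy
    rw [mem_ball]
    rw [mem_closedBall] at hy
    have := dist_triangle y c z
    rw [dist_comm c z] at this
    linarith
  have h1 : Integrable ((ball z ρ).indicator (fun y => kap (z - y) * K)) :=
    (integrable_indicator_iff measurableSet_ball).2 ((integrableOn_kap_sub z ρ).mul_const K)
  have hle : ∀ y, kap (z - y) * |k y| ≤ (ball z ρ).indicator (fun y => kap (z - y) * K) y := by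
    intro y
    by_cases hy : y ∈ ball z ρ
    · rw [indicator_of_mem hy]
      exact mul_le_mul_of_nonneg_left (hk.bound y) (kap_nonneg _)
    · rw [indicator_of_notMem hy, hk.supp y (fun h => hy (hsub h))]
      simp
  have hmeas : AEStronglyMeasurable (fun y => kap (z - y) * |k y|) volume := by
    apply AEStronglyMeasurable.mul
    · exact (measurable_kap.comp (measurable_const.sub measurable_id)).aestronglyMeasurable
    · exact hk.meas.norm
  have hint : Integrable (fun y => kap (z - y) * |k y|) := by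
    refine h1.mono' hmeas (Eventually.of_forall fun y => ?_)
    rw [Real.norm_of_nonneg (mul_nonneg (kap_nonneg _) (abs_nonneg _))]
    exact hle y
  refine ⟨hint, ?_⟩
  calc ∫ y, kap (z - y) * |k y| ≤ ∫ y, (ball z ρ).indicator (fun y => kap (z - y) * K) y :=
        integral_mono hint h1 hle
    _ = ∫ y in ball z ρ, kap (z - y) * K := integral_indicator measurableSet_ball
    _ = K * kapMass ρ := by
        rw [integral_mul_const, setIntegral_kap_sub]; ring

/-- A function of `y` dominated by `(C₀ + C₁ κ(z-y)) |k y|` is integrable. -/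
theorem Dens.dom {E : Type*} [NormedAddCommGroup E] (hk : Dens k c R K) (z : ℂ) (C₀ C₁ : ℝ)
    {g : ℂ → E} (hg : AEStronglyMeasurable g volume)
    (hle : ∀ᵐ y, ‖g y‖ ≤ (C₀ + C₁ * kap (z - y)) * |k y|) : Integrable g := by
  have h1 : Integrable (fun y => C₀ * |k y| + C₁ * (kap (z - y) * |k y|)) := by
    apply Integrable.add
    · exact hk.integrable.abs.const_mul C₀
    · exact (hk.kap_int (z := z) (ρ := dist z c + R + 1) (by linarith)).1.const_mul C₁
  refine h1.mono' hg ?_
  filter_upwards [hle] with y hy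
  refine hy.trans (le_of_eq (by ring))

theorem ae_ne (z : ℂ) : ∀ᵐ y : ℂ, y ≠ z := by
  have : (volume : Measure ℂ) {z} = 0 := measure_singleton z
  rw [ae_iff]
  simpa using this

theorem inv_le_kap {w : ℂ} (hw : w ≠ 0) : ‖w‖⁻¹ ≤ (1 + ‖w‖) * kap w := by
  have hwp : 0 < ‖w‖ := norm_pos_iff.2 hw
  have e : ‖w‖⁻¹ = ‖w‖ ^ (1 / 2 : ℝ) * kap w := by
    rw [kap, ← Real.rpow_add hwp]
    norm_num
    rw [Real.rpow_neg_one]
  rw [e]
  apply mul_le_mul_of_nonneg_right _ (kap_nonneg _)
  rw [← Real.sqrt_eq_rpow]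
  apply Real.sqrt_le_iff.2
  constructor
  · positivity
  · nlinarith

theorem Dens.int_log (hk : Dens k c R K) (z : ℂ) :
    Integrable (fun y => Real.log ‖z - y‖ * k y) := by
  apply hk.dom z (dist z c + R) 1
  · apply AEStronglyMeasurable.mul _ hk.meas
    exact (Measurable.log (by fun_prop)).aestronglyMeasurable
  · filter_upwards [ae_ne z] with y hy
    have hy' : z - y ≠ 0 := sub_ne_zero.2 (Ne.symm hy)
    rw [norm_mul]
    by_cases hyb : y ∈ closedBall c R
    · apply mul_le_mul_of_nonneg_right _ (abs_nonneg _)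
      have h1 := log_abs_le (norm_pos_iff.2 hy')
      have h2 : ‖z - y‖ ≤ dist z c + R := by
        rw [← dist_eq_norm]
        have := dist_triangle z c y
        rw [mem_closedBall, dist_comm] at hyb
        linarith
      rw [Real.norm_eq_abs, one_mul]
      exact h1.trans (by unfold kap; linarith)
    · rw [hk.supp y hyb]; simp

theorem Dens.int_cau (hk : Dens k c R K) (z : ℂ) :
    Integrable (fun y => (z - y)⁻¹ * (k y : ℂ)) := by
  apply hk.dom z 0 (1 + dist z c + R)
  · apply AEStronglyMeasurable.mul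
    · exact (Measurable.inv (by fun_prop)).aestronglyMeasurable
    · exact Complex.continuous_ofReal.comp_aestronglyMeasurable hk.meas
  · filter_upwards [ae_ne z] with y hy
    have hy' : z - y ≠ 0 := sub_ne_zero.2 (Ne.symm hy)
    rw [norm_mul, Complex.norm_real, Real.norm_eq_abs]
    by_cases hyb : y ∈ closedBall c R
    · apply mul_le_mul_of_nonneg_right _ (abs_nonneg _)
      have h1 := inv_le_kap hy'
      have h2 : ‖z - y‖ ≤ dist z c + R := by
        rw [← dist_eq_norm]
        have := dist_triangle z c y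
        rw [mem_closedBall, dist_comm] at hyb
        linarith
      rw [norm_inv, zero_add]
      refine h1.trans (mul_le_mul_of_nonneg_right (by linarith) (kap_nonneg _))
    · rw [hk.supp y hyb]; simp

/-- bound for the Cauchy transform -/
theorem Dens.cau_bound (hk : Dens k c R K) {z : ℂ} {ρ : ℝ} (hρ : dist z c + R < ρ) :
    ‖cau k z‖ ≤ (1 + ρ) * (K * kapMass ρ) := by
  obtain ⟨h1, h2⟩ := hk.kap_int hρ
  have h3 : ‖cau k z‖ ≤ ∫ y, (1 + ρ) * (kap (z - y) * |k y|) := by
    apply norm_integral_le_of_norm_le (h1.const_mul _)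
    filter_upwards [ae_ne z] with y hy
    have hy' : z - y ≠ 0 := sub_ne_zero.2 (Ne.symm hy)
    rw [norm_mul, Complex.norm_real, Real.norm_eq_abs]
    by_cases hyb : y ∈ closedBall c R
    · have h1 := inv_le_kap hy'
      have h2 : ‖z - y‖ ≤ dist z c + R := by
        rw [← dist_eq_norm]
        have := dist_triangle z c y
        rw [mem_closedBall, dist_comm] at hyb
        linarith
      rw [norm_inv, ← mul_assoc]
      apply mul_le_mul_of_nonneg_right _ (abs_nonneg _)
      refine h1.trans (mul_le_mul_of_nonneg_right (by linarith) (kap_nonneg _))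
    · rw [hk.supp y hyb]; simp
  rw [integral_const_mul] at h3
  have h0 : (0 : ℝ) ≤ 1 + ρ := by
    have := dist_nonneg (x := z) (y := c)
    have := hk.hR
    linarith
  exact h3.trans (mul_le_mul_of_nonneg_left h2 h0)

/-- Quantitative differentiability of the logarithmic potential. -/
theorem Dens.pot_taylor (hk : Dens k c R K) {z v : ℂ} {ρ : ℝ} (h1 : dist z c + R < ρ)
    (h2 : dist (z + v) c + R < ρ) :
    |pot k (z + v) - pot k z - gradL (cau k z) v| ≤
      8 * K * kapMass ρ * ‖v‖ ^ (3 / 2 : ℝ) := by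
  obtain ⟨i1, b1⟩ := hk.kap_int h1
  obtain ⟨i2, b2⟩ := hk.kap_int h2
  have e : pot k (z + v) - pot k z - gradL (cau k z) v =
      ∫ y, (Real.log ‖z + v - y‖ - Real.log ‖z - y‖ - (v / (z - y)).re) * k y := by
    have e1 : gradL (cau k z) v = ∫ y, (v / (z - y)).re * k y := by
      rw [gradL_apply, cau, ← integral_mul_const]
      have : (∫ y, (z - y)⁻¹ * (k y : ℂ) * v).re = ∫ y, ((z - y)⁻¹ * (k y : ℂ) * v).re :=
        (integral_re ((hk.int_cau z).mul_const v)).symm
      rw [this]
      congr 1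
      ext y
      have : (z - y)⁻¹ * (k y : ℂ) * v = v / (z - y) * (k y : ℂ) := by
        rw [div_eq_mul_inv]; ring
      rw [this, Complex.re_mul_ofReal]
    have i3 : Integrable (fun y => (v / (z - y)).re * k y) := by
      have h := ((hk.int_cau z).mul_const v).re
      refine h.congr (Eventually.of_forall fun y => ?_)
      have : (z - y)⁻¹ * (k y : ℂ) * v = v / (z - y) * (k y : ℂ) := by
        rw [div_eq_mul_inv]; ring
      simp only [this]
      exact Complex.re_mul_ofReal _ _
    have i4 : Integrable (fun y => Real.log ‖z + v - y‖ * k y - Real.log ‖z - y‖ * k y) :=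
      (hk.int_log (z + v)).sub (hk.int_log z)
    rw [e1, pot, pot, ← integral_sub (hk.int_log (z + v)) (hk.int_log z),
      ← integral_sub i4 i3]
    congr 1
    ext y
    ring
  rw [e]
  have h3 : ‖∫ y, (Real.log ‖z + v - y‖ - Real.log ‖z - y‖ - (v / (z - y)).re) * k y‖ ≤
      ∫ y, 4 * ‖v‖ ^ (3 / 2 : ℝ) * (kap (z - y) * |k y| + kap (z + v - y) * |k y|) := by
    apply norm_integral_le_of_norm_le ((i1.add i2).const_mul _)
    filter_upwards [ae_ne z, ae_ne (z + v)] with y hy hy2
    have hy' : z - y ≠ 0 := sub_ne_zero.2 (Ne.symm hy)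
    have hy2' : z - y + v ≠ 0 := by
      have : z - y + v = z + v - y := by ring
      rw [this]; exact sub_ne_zero.2 (Ne.symm hy2)
    have h := log_taylor hy' hy2'
    have e3 : z - y + v = z + v - y := by ring
    rw [e3] at h
    rw [norm_mul, Real.norm_eq_abs, Real.norm_eq_abs]
    calc _ ≤ 4 * ‖v‖ ^ (3 / 2 : ℝ) * (kap (z - y) + kap (z + v - y)) * |k y| :=
          mul_le_mul_of_nonneg_right h (abs_nonneg _)
      _ = _ := by simp only [Pi.add_apply]; ring
  rw [Real.norm_eq_abs, integral_const_mul, integral_add i1 i2] at h3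
  refine h3.trans ?_
  have h5 : 0 ≤ ‖v‖ ^ (3 / 2 : ℝ) := by positivity
  calc _ ≤ 4 * ‖v‖ ^ (3 / 2 : ℝ) * (K * kapMass ρ + K * kapMass ρ) := by gcongr
    _ = _ := by ring

theorem Dens.hasFDerivAt_pot (hk : Dens k c R K) (z : ℂ) :
    HasFDerivAt (pot k) (gradL (cau k z)) z := by
  rw [hasFDerivAt_iff_isLittleO_nhds_zero]
  set ρ := dist z c + R + 2 with hρ
  have hO : (fun v : ℂ => pot k (z + v) - pot k z - gradL (cau k z) v) =O[𝓝 0]
      fun v => ‖v‖ ^ (3 / 2 : ℝ) := by
    apply Asymptotics.IsBigO.of_bound (8 * K * kapMass ρ)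
    filter_upwards [ball_mem_nhds (0 : ℂ) one_pos] with v hv
    rw [mem_ball, dist_zero_right] at hv
    rw [Real.norm_eq_abs, Real.norm_of_nonneg (by positivity : (0 : ℝ) ≤ ‖v‖ ^ (3 / 2 : ℝ))]
    apply hk.pot_taylor (by linarith)
    have := dist_triangle (z + v) z c
    have h2 : dist (z + v) z = ‖v‖ := by simp [dist_eq_norm]
    linarith
  refine hO.trans_isLittleO ?_
  have h1 : (fun v : ℂ => ‖v‖ ^ (3 / 2 : ℝ)) =ᶠ[𝓝 0] fun v => ‖v‖ ^ (1 / 2 : ℝ) * ‖v‖ := by
    refine Eventually.of_forall fun v => ?_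
    rcases eq_or_ne v 0 with rfl | hv
    · simp
    have : (3 / 2 : ℝ) = 1 / 2 + 1 := by norm_num
    show ‖v‖ ^ (3 / 2 : ℝ) = _
    rw [this, Real.rpow_add (norm_pos_iff.2 hv), Real.rpow_one]
  refine h1.trans_isLittleO ?_
  have h2 : Tendsto (fun v : ℂ => ‖v‖ ^ (1 / 2 : ℝ)) (𝓝 0) (𝓝 0) := by
    have : Tendsto (fun v : ℂ => ‖v‖ ^ (1 / 2 : ℝ)) (𝓝 0) (𝓝 (‖(0 : ℂ)‖ ^ (1 / 2 : ℝ))) := by
      apply Tendsto.rpow_const
      · exact (continuous_norm.tendsto 0)
      · right; norm_num
    simpa using this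
  have h3 : (fun v : ℂ => ‖v‖ ^ (1 / 2 : ℝ)) =o[𝓝 0] fun _ : ℂ => (1 : ℝ) :=
    (Asymptotics.isLittleO_one_iff ℝ).2 h2
  have h4 := h3.mul_isBigO (Asymptotics.isBigO_refl (fun v : ℂ => ‖v‖) (𝓝 0))
  simp only [one_mul] at h4
  exact h4.trans_isBigO (Asymptotics.isBigO_norm_left.2 (Asymptotics.isBigO_refl _ _))

theorem Dens.cau_sub_le (hk : Dens k c R K) {z v : ℂ} {ρ : ℝ} (h1 : dist z c + R < ρ)
    (h2 : dist (z + v) c + R < ρ) :
    ‖cau k (z + v) - cau k z‖ ≤ 2 * K * kapMass ρ * ‖v‖ ^ (1 / 2 : ℝ) := by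
  obtain ⟨i1, b1⟩ := hk.kap_int h1
  obtain ⟨i2, b2⟩ := hk.kap_int h2
  have e : cau k (z + v) - cau k z =
      ∫ y, ((z + v - y)⁻¹ * (k y : ℂ) - (z - y)⁻¹ * (k y : ℂ)) := by
    rw [cau, cau, integral_sub (hk.int_cau (z + v)) (hk.int_cau z)]
  rw [e]
  have h3 : ‖∫ y, ((z + v - y)⁻¹ * (k y : ℂ) - (z - y)⁻¹ * (k y : ℂ))‖ ≤
      ∫ y, ‖v‖ ^ (1 / 2 : ℝ) * (kap (z - y) * |k y| + kap (z + v - y) * |k y|) := by
    apply norm_integral_le_of_norm_le ((i1.add i2).const_mul _)
    filter_upwards [ae_ne z, ae_ne (z + v)] with y hy hy2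
    have hy' : z - y ≠ 0 := sub_ne_zero.2 (Ne.symm hy)
    have hy2' : z - y + v ≠ 0 := by
      have : z - y + v = z + v - y := by ring
      rw [this]; exact sub_ne_zero.2 (Ne.symm hy2)
    have h := inv_sub_inv_le hy' hy2'
    have e3 : z - y + v = z + v - y := by ring
    rw [e3] at h
    rw [← sub_mul, norm_mul, Complex.norm_real, Real.norm_eq_abs]
    calc _ ≤ ‖v‖ ^ (1 / 2 : ℝ) * (kap (z - y) + kap (z + v - y)) * |k y| :=
          mul_le_mul_of_nonneg_right h (abs_nonneg _)
      _ = _ := by simp only [Pi.add_apply]; ring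
  rw [integral_const_mul, integral_add i1 i2] at h3
  refine h3.trans ?_
  have h5 : 0 ≤ ‖v‖ ^ (1 / 2 : ℝ) := by positivity
  calc _ ≤ ‖v‖ ^ (1 / 2 : ℝ) * (K * kapMass ρ + K * kapMass ρ) := by gcongr
    _ = _ := by ring

theorem Dens.continuous_cau (hk : Dens k c R K) : Continuous (cau k) := by
  rw [continuous_iff_continuousAt]
  intro z
  rw [ContinuousAt, tendsto_iff_norm_sub_tendsto_zero]
  set ρ := dist z c + R + 2 with hρ
  have h2 : Tendsto (fun w : ℂ => 2 * K * kapMass ρ * ‖w - z‖ ^ (1 / 2 : ℝ)) (𝓝 z) (𝓝 0) := by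
    have : Tendsto (fun w : ℂ => 2 * K * kapMass ρ * ‖w - z‖ ^ (1 / 2 : ℝ)) (𝓝 z)
        (𝓝 (2 * K * kapMass ρ * ‖z - z‖ ^ (1 / 2 : ℝ))) := by
      apply Tendsto.const_mul
      apply Tendsto.rpow_const
      · exact ((continuous_id.sub continuous_const).norm.tendsto z)
      · right; norm_num
    simpa using this
  refine tendsto_of_tendsto_of_tendsto_of_le_of_le' tendsto_const_nhds h2
    (Eventually.of_forall fun w => norm_nonneg _) ?_
  filter_upwards [ball_mem_nhds z one_pos] with w hw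
  rw [mem_ball, dist_eq_norm] at hw
  have h := hk.cau_sub_le (z := z) (v := w - z) (ρ := ρ) (by linarith) (by
    have := dist_triangle (z + (w - z)) z c
    have h2 : dist (z + (w - z)) z = ‖w - z‖ := by simp [dist_eq_norm]
    linarith)
  have e : z + (w - z) = w := by ring
  rwa [e] at h

theorem Dens.continuous_pot (hk : Dens k c R K) : Continuous (pot k) :=
  continuous_iff_continuousAt.2 fun z => (hk.hasFDerivAt_pot z).continuousAt

/-- The Cauchy transform is holomorphic off the support. -/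
theorem Dens.hasDerivAt_cau (hk : Dens k c R K) {x : ℂ} {δ : ℝ} (hδ : 0 < δ)
    (h0 : ∀ y ∈ ball x δ, k y = 0) : HasDerivAt (cau k) (∫ y, -((x - y) ^ 2)⁻¹ * (k y : ℂ)) x := by
  have hball : ball x (δ / 2) ∈ 𝓝 x := ball_mem_nhds x (by positivity)
  have hmk : AEStronglyMeasurable (fun y => (k y : ℂ)) volume :=
    Complex.continuous_ofReal.comp_aestronglyMeasurable hk.meas
  refine (hasDerivAt_integral_of_dominated_loc_of_deriv_le (μ := volume)
    (F := fun z y => (z - y)⁻¹ * (k y : ℂ)) (F' := fun z y => -((z - y) ^ 2)⁻¹ * (k y : ℂ))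
    (bound := fun y => (2 / δ) ^ 2 * |k y|) hball ?_ (hk.int_cau x) ?_ ?_ ?_ ?_).2
  · refine Eventually.of_forall fun z => ?_
    apply AEStronglyMeasurable.mul _ hmk
    exact (Measurable.inv (by fun_prop)).aestronglyMeasurable
  · apply AEStronglyMeasurable.mul _ hmk
    exact (Measurable.neg (Measurable.inv (by fun_prop))).aestronglyMeasurable
  · refine Eventually.of_forall fun y z hz => ?_
    by_cases hy : y ∈ ball x δ
    · simp [h0 y hy]
    · rw [norm_mul, Complex.norm_real, Real.norm_eq_abs, norm_neg, norm_inv, norm_pow]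
      apply mul_le_mul_of_nonneg_right _ (abs_nonneg _)
      rw [mem_ball, not_lt] at hy
      rw [mem_ball] at hz
      have h1 : δ / 2 ≤ ‖z - y‖ := by
        rw [← dist_eq_norm]
        have := dist_triangle y z x
        rw [dist_comm y z] at this
        linarith
      rw [← inv_pow]
      apply pow_le_pow_left₀ (by positivity)
      rw [inv_le_comm₀ (by linarith) (by positivity)]
      rw [inv_div]
      exact h1
  · exact hk.integrable.abs.const_mul _
  · refine Eventually.of_forall fun y z hz => ?_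
    by_cases hy : y ∈ ball x δ
    · simp only [h0 y hy, Complex.ofReal_zero, mul_zero]
      exact hasDerivAt_const _ _
    · apply HasDerivAt.mul_const
      have h1 : z - y ≠ 0 := by
        intro h
        apply hy
        rw [sub_eq_zero] at h
        rw [← h]
        exact ball_subset_ball (by linarith) hz
      have := ((hasDerivAt_id' z).sub_const y).fun_inv h1
      convert this using 1
      rw [neg_div, one_div]

end Pool.Agent.Lib.MP_dc9025_an
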