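import Pool.Agent.Lib.MP_dc9025_an.Potential

/-!
# Second order regularity of logarithmic potentials
-/

set_option autoImplicit false

open Metric Set Filter Topology MeasureTheory InnerProductSpace Laplacian Convolution

namespace Pool.Agent.Lib.MP_dc9025_an

/-- A function whose gradient is a `C¹` complex field `F` is `C²`, with the expected Laplacian. -/
theorem laplacian_of_gradient {u : ℂ → ℝ} {F : ℂ → ℂ} {x : ℂ} (hF : ContDiffAt ℝ 1 F x)
    (hu : ∀ᶠ z in 𝓝 x, HasFDerivAt u (gradL (F z)) z) :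
    ContDiffAt ℝ 2 u x ∧
      Δ u x = (fderiv ℝ F x 1).re + (fderiv ℝ F x Complex.I * Complex.I).re := by
  have hF' : ContDiffAt ℝ 1 (fun z => gradL (F z)) x :=
    gradL.contDiff.contDiffAt.comp x hF
  have hC : ContDiffAt ℝ 2 u x := by
    have h2 : (2 : WithTop ℕ∞) = ((1 : ℕ) : WithTop ℕ∞) + 1 := by norm_num
    rw [h2, contDiffAt_succ_iff_hasFDerivAt]
    refine ⟨fun z => gradL (F z), ⟨_, hu, fun z hz => hz⟩, ?_⟩
    exact_mod_cast hF'
  refine ⟨hC, ?_⟩
  have e1 : fderiv ℝ u =ᶠ[𝓝 x] fun z => gradL (F z) := by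
    filter_upwards [hu] with z hz
    exact hz.fderiv
  have hd : DifferentiableAt ℝ F x := hF.differentiableAt (by norm_num)
  have e2 : fderiv ℝ (fderiv ℝ u) x = gradL.comp (fderiv ℝ F x) := by
    rw [e1.fderiv_eq]
    exact (gradL.hasFDerivAt.comp x hd.hasFDerivAt).fderiv
  rw [laplacian_eq_iteratedFDeriv_complexPlane]
  simp only [iteratedFDeriv_two_apply]
  rw [e2]
  simp

theorem locallyIntegrable_inv : LocallyIntegrable (fun w : ℂ => w⁻¹) volume := by
  have h1 : 1 ≤ Module.finrank ℝ ℂ := by rw [Complex.finrank_real_complex]; norm_num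
  have h2 : (1 : ℝ) < Module.finrank ℝ ℂ := by rw [Complex.finrank_real_complex]; norm_num
  refine locallyIntegrable_of_norm_le_rpow (μ := volume) (C := 1) h1 h2 ?_ ?_
  · refine Eventually.of_forall fun x => ?_
    rw [norm_inv, one_mul, Real.rpow_neg_one]
  · exact (Measurable.inv measurable_id).aestronglyMeasurable

theorem cau_eq_convolution (h : ℂ → ℝ) :
    cau h = ((fun w : ℂ => w⁻¹) ⋆[ContinuousLinearMap.mul ℝ ℂ, volume] fun y => (h y : ℂ)) := by
  ext z
  rw [cau, convolution_def, ← integral_sub_left_eq_self _ volume z]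
  congr 1
  ext t
  simp

theorem contDiff_cau {h : ℂ → ℝ} (hh : ContDiff ℝ 1 h) (hc : HasCompactSupport h) :
    ContDiff ℝ 1 (cau h) := by
  rw [cau_eq_convolution]
  have h1 : HasCompactSupport (fun y => (h y : ℂ)) := by
    have := hc.comp_left (g := fun x : ℝ => (x : ℂ)) (by simp)
    exact this
  have h2 : ContDiff ℝ 1 (fun y => (h y : ℂ)) := Complex.ofRealCLM.contDiff.comp hh
  exact_mod_cast h1.contDiff_convolution_right (n := 1) (ContinuousLinearMap.mul ℝ ℂ)
    locallyIntegrable_inv (by exact_mod_cast h2)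

theorem fderiv_cau {h : ℂ → ℝ} (hh : ContDiff ℝ 1 h) (hc : HasCompactSupport h) (z v : ℂ) :
    fderiv ℝ (cau h) z v = cau (fun y => fderiv ℝ h y v) z := by
  have h1 : HasCompactSupport (fun y => (h y : ℂ)) := by
    have := hc.comp_left (g := fun x : ℝ => (x : ℂ)) (by simp)
    exact this
  have h2 : ContDiff ℝ 1 (fun y => (h y : ℂ)) := Complex.ofRealCLM.contDiff.comp hh
  have h3 := (h1.hasFDerivAt_convolution_right (ContinuousLinearMap.mul ℝ ℂ)
    locallyIntegrable_inv h2 z).fderiv
  rw [cau_eq_convolution, h3, convolution_precompR_apply _ locallyIntegrable_inv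
    (h1.fderiv (𝕜 := ℝ)) (h2.continuous_fderiv (by norm_num)), cau_eq_convolution]
  congr 1
  ext y
  have : fderiv ℝ (fun y => (h y : ℂ)) y = Complex.ofRealCLM.comp (fderiv ℝ h y) :=
    (Complex.ofRealCLM.hasFDerivAt.comp y
      (hh.differentiable (by norm_num) y).hasFDerivAt).fderiv
  rw [this]
  simp

theorem dens_of_compact {k : ℂ → ℝ} (hk : Continuous k) (hc : HasCompactSupport k) :
    ∃ R K, Dens k 0 R K := by
  obtain ⟨K, hK⟩ := hc.exists_bound_of_continuous hk
  obtain ⟨R, hR⟩ := hc.isBounded.subset_closedBall 0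
  refine ⟨max R 0, K, le_max_right _ _, hk.aestronglyMeasurable, fun y => hK y, fun y hy => ?_⟩
  by_contra hne
  exact hy (closedBall_subset_closedBall (le_max_left _ _) (hR (subset_tsupport _ hne)))

/-- The Cauchy-Pompeiu identity, real part. -/
theorem pompeiu {h : ℂ → ℝ} (hh : ContDiff ℝ 1 h) (hc : HasCompactSupport h) (z : ℂ) :
    (cau (fun y => fderiv ℝ h y 1) z).re +
      (cau (fun y => fderiv ℝ h y Complex.I) z * Complex.I).re = 2 * Real.pi * h z := by
  have hcf : Continuous (fderiv ℝ h) := hh.continuous_fderiv (by norm_num)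
  have hca : ∀ v : ℂ, Continuous (fun y => fderiv ℝ h y v) := fun v => hcf.clm_apply continuous_const
  have hsa : ∀ v : ℂ, HasCompactSupport (fun y => fderiv ℝ h y v) := fun v => by
    have := (hc.fderiv (𝕜 := ℝ)).comp_left (g := fun L : ℂ →L[ℝ] ℝ => L v) (by simp)
    exact this
  obtain ⟨R1, K1, hD1⟩ := dens_of_compact (hca 1) (hsa 1)
  obtain ⟨R2, K2, hD2⟩ := dens_of_compact (hca Complex.I) (hsa Complex.I)
  set e : ℝ → ℂ := fun θ => (Real.cos θ : ℂ) + (Real.sin θ : ℂ) * Complex.I with he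
  have hece : Continuous e := by
    rw [he]; fun_prop
  -- step 1: a single integral
  have s1 : (cau (fun y => fderiv ℝ h y 1) z).re +
      (cau (fun y => fderiv ℝ h y Complex.I) z * Complex.I).re =
      ∫ y, ((z - y)⁻¹ * ((fderiv ℝ h y 1 : ℝ) + (fderiv ℝ h y Complex.I : ℝ) * Complex.I)).re := by
    have i1 := hD1.int_cau z
    have i2 := (hD2.int_cau z).mul_const Complex.I
    rw [cau, cau, ← integral_mul_const, ← Complex.add_re, ← integral_add i1 i2]
    have h3 := (Complex.reCLM.integral_comp_comm (i1.add i2)).symm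
    simp only [Pi.add_apply, Complex.reCLM_apply] at h3
    rw [h3]
    congr 1
    ext y
    congr 1
    ring
  -- step 2: translate and pass to polar coordinates
  have s2 : ∫ y, ((z - y)⁻¹ *
        ((fderiv ℝ h y 1 : ℝ) + (fderiv ℝ h y Complex.I : ℝ) * Complex.I)).re =
      ∫ p in Ioi (0 : ℝ) ×ˢ Ioo (-Real.pi) Real.pi,
        -(fderiv ℝ h (z + p.1 * e p.2) (e p.2)) := by
    rw [← integral_add_left_eq_self _ z, ← Complex.integral_comp_polarCoord_symm]
    rw [polarCoord_target]
    apply setIntegral_congr_fun (measurableSet_Ioi.prod measurableSet_Ioo)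
    rintro ⟨ρ, θ⟩ ⟨hρ, hθ⟩
    simp only [mem_Ioi] at hρ
    simp only [Complex.polarCoord_symm_apply]
    have hl : fderiv ℝ h (z + ρ * e θ) (e θ) =
        Real.cos θ * fderiv ℝ h (z + ρ * e θ) 1 + Real.sin θ * fderiv ℝ h (z + ρ * e θ) Complex.I := by
      have : e θ = Real.cos θ • (1 : ℂ) + Real.sin θ • Complex.I := by
        simp [he]
      conv_lhs => rw [this]
      rw [map_add, map_smul, map_smul]
      simp only [smul_eq_mul]
      rw [← this]
    have hcs : Real.cos θ ^ 2 + Real.sin θ ^ 2 = 1 := Real.cos_sq_add_sin_sq θ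
    change ρ • ((z - (z + ρ * e θ))⁻¹ * ((fderiv ℝ h (z + ρ * e θ) 1 : ℝ) +
      (fderiv ℝ h (z + ρ * e θ) Complex.I : ℝ) * Complex.I)).re = _
    rw [hl]
    generalize fderiv ℝ h (z + ρ * e θ) 1 = a
    generalize fderiv ℝ h (z + ρ * e θ) Complex.I = b
    have e3 : (z - (z + ρ * e θ))⁻¹ = -((ρ : ℂ)⁻¹ * ((Real.cos θ : ℂ) - (Real.sin θ : ℂ) * Complex.I)) := by
      have hρ' : (ρ : ℂ) ≠ 0 := by exact_mod_cast hρ.ne'
      have h1 : (z - (z + ρ * e θ)) = -((ρ : ℂ) * e θ) := by ring
      rw [h1]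
      apply inv_eq_of_mul_eq_one_right
      have h2 : e θ * ((Real.cos θ : ℂ) - (Real.sin θ : ℂ) * Complex.I) = 1 := by
        simp only [he]
        have : ((Real.cos θ : ℂ) ^ 2 + (Real.sin θ : ℂ) ^ 2) = 1 := by exact_mod_cast hcs
        linear_combination this - (Real.sin θ : ℂ) ^ 2 * Complex.I_sq
      linear_combination (ρ : ℂ) * (ρ : ℂ)⁻¹ * h2 + mul_inv_cancel₀ hρ'
    rw [e3]
    have e4 : ((ρ : ℂ)⁻¹) = ((ρ⁻¹ : ℝ) : ℂ) := by push_cast; rfl
    rw [e4]
    simp only [Complex.mul_re, Complex.neg_re, Complex.add_re, Complex.sub_re, Complex.ofReal_re,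
      Complex.I_re, Complex.ofReal_im, Complex.I_im, Complex.mul_im, Complex.neg_im,
      Complex.add_im, Complex.sub_im, smul_eq_mul]
    field_simp
    ring
  -- step 3: Fubini
  have hnorm : ∀ θ : ℝ, ‖e θ‖ = 1 := by
    intro θ
    have : e θ = Complex.exp (θ * Complex.I) := by
      rw [Complex.exp_mul_I]; simp [he]
    rw [this]
    exact Complex.norm_exp_ofReal_mul_I θ
  obtain ⟨ρ₀, hρ₀⟩ := hc.isBounded.subset_closedBall z
  have hzero : ∀ (ρ θ : ℝ), ρ₀ < ρ → 0 < ρ → z + ρ * e θ ∉ tsupport h := by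
    intro ρ θ h1 h2 h3
    have := hρ₀ h3
    rw [mem_closedBall, dist_eq_norm] at this
    have e5 : z + ρ * e θ - z = ρ * e θ := by ring
    rw [e5, norm_mul, hnorm, mul_one, Complex.norm_real, Real.norm_of_nonneg h2.le] at this
    linarith
  have hzero' : ∀ (ρ θ : ℝ), ρ₀ < ρ → 0 < ρ → fderiv ℝ h (z + ρ * e θ) = 0 := by
    intro ρ θ h1 h2
    by_contra hne
    exact hzero ρ θ h1 h2 (support_fderiv_subset ℝ hne)
  set F : ℝ × ℝ → ℝ := fun p => -(fderiv ℝ h (z + p.1 * e p.2) (e p.2)) with hF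
  have hFc : Continuous F := by
    rw [hF]
    apply Continuous.neg
    apply Continuous.clm_apply
    · apply hcf.comp
      exact continuous_const.add ((Complex.continuous_ofReal.comp continuous_fst).mul
        (hece.comp continuous_snd))
    · exact hece.comp continuous_snd
  have hFi : IntegrableOn F (Ioi (0 : ℝ) ×ˢ Ioo (-Real.pi) Real.pi) volume := by
    have h1 : IntegrableOn F (Icc 0 ρ₀ ×ˢ Icc (-Real.pi) Real.pi) volume :=
      hFc.continuousOn.integrableOn_compact (isCompact_Icc.prod isCompact_Icc)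
    refine h1.of_forall_sdiff_eq_zero (measurableSet_Ioi.prod measurableSet_Ioo) ?_
    rintro ⟨ρ, θ⟩ ⟨⟨h2, h3⟩, h4⟩
    have h2' : 0 < ρ := h2
    have h5 : ρ₀ < ρ := by
      by_contra hle
      push Not at hle
      exact h4 ⟨⟨h2'.le, hle⟩, Ioo_subset_Icc_self h3⟩
    simp only [hF]
    rw [hzero' ρ θ h5 h2']
    simp
  have s3 : ∫ p in Ioi (0 : ℝ) ×ˢ Ioo (-Real.pi) Real.pi, F p =
      ∫ θ in Ioo (-Real.pi) Real.pi, ∫ ρ in Ioi (0 : ℝ), F (ρ, θ) := by
    rw [Measure.volume_eq_prod, ← Measure.prod_restrict]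
    rw [IntegrableOn, Measure.volume_eq_prod, ← Measure.prod_restrict] at hFi
    exact integral_prod_symm F hFi
  have s4 : ∀ θ : ℝ, ∫ ρ in Ioi (0 : ℝ), F (ρ, θ) = h z := by
    intro θ
    have hf : ∀ ρ : ℝ, HasDerivAt (fun ρ : ℝ => -h (z + ρ * e θ)) (F (ρ, θ)) ρ := by
      intro ρ
      have h1 : HasDerivAt (fun ρ : ℝ => z + (ρ : ℂ) * e θ) (e θ) ρ := by
        have := ((Complex.ofRealCLM.hasDerivAt (x := ρ)).mul_const (e θ)).const_add z
        simpa using this
      have h2 := ((hh.differentiable (by norm_num) (z + ρ * e θ)).hasFDerivAt.comp_hasDerivAt ρ h1).neg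
      exact h2
    have hint : IntegrableOn (fun ρ => F (ρ, θ)) (Ioi 0) := by
      have h1 : IntegrableOn (fun ρ => F (ρ, θ)) (Icc 0 ρ₀) :=
        (hFc.comp (continuous_id.prodMk continuous_const)).continuousOn.integrableOn_compact
          isCompact_Icc
      refine h1.of_forall_sdiff_eq_zero measurableSet_Ioi ?_
      rintro ρ ⟨h2, h4⟩
      have h2' : 0 < ρ := h2
      have h5 : ρ₀ < ρ := by
        by_contra hle
        push Not at hle
        exact h4 ⟨h2'.le, hle⟩
      simp only [hF]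
      rw [hzero' ρ θ h5 h2']
      simp
    have htend : Tendsto (fun ρ : ℝ => -h (z + ρ * e θ)) atTop (𝓝 0) := by
      apply tendsto_const_nhds.congr'
      filter_upwards [eventually_gt_atTop ρ₀, eventually_gt_atTop 0] with ρ h1 h2
      rw [image_eq_zero_of_notMem_tsupport (hzero ρ θ h1 h2), neg_zero]
    have := integral_Ioi_of_hasDerivAt_of_tendsto' (a := 0) (fun ρ _ => hf ρ) hint htend
    rw [this]
    simp
  rw [s1, s2, s3]
  simp only [s4]
  rw [integral_const]
  simp only [MeasurableSet.univ, measureReal_restrict_apply, univ_inter, Real.volume_real_Ioo,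
    smul_eq_mul]
  rw [max_eq_left (by linarith [Real.pi_pos])]
  ring

/-- Local regularity of the potential: where the density is `C¹`, the potential is `C²` and
solves `Δ u = 2 π k`. -/
theorem Dens.regular {k : ℂ → ℝ} {c : ℂ} {R K : ℝ} (hk : Dens k c R K) {x : ℂ} {δ : ℝ}
    (hδ : 0 < δ) (hkx : ContDiffOn ℝ 1 k (ball x δ)) :
    ContDiffAt ℝ 2 (pot k) x ∧ Δ (pot k) x = 2 * Real.pi * k x := by
  let χ : ContDiffBump x := ⟨δ / 4, δ / 2, by positivity, by linarith⟩
  have hχd : ContDiff ℝ 1 χ := χ.contDiff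
  set h : ℂ → ℝ := fun y => χ y * k y with hh
  set g : ℂ → ℝ := fun y => (1 - χ y) * k y with hg
  have hsupp : tsupport χ ⊆ closedBall x (δ / 2) := by
    rw [χ.tsupport_eq]
  have hhd : ContDiff ℝ 1 h := by
    rw [contDiff_iff_contDiffAt]
    intro y
    by_cases hy : y ∈ ball x δ
    · exact hχd.contDiffAt.mul (hkx.contDiffAt (isOpen_ball.mem_nhds hy))
    · have h1 : y ∉ tsupport χ := fun h2 => hy (by
        have := hsupp h2
        rw [mem_closedBall] at this
        rw [mem_ball]; linarith)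
      have h2 : χ =ᶠ[𝓝 y] 0 := notMem_tsupport_iff_eventuallyEq.1 h1
      have h3 : h =ᶠ[𝓝 y] fun _ => 0 := by
        filter_upwards [h2] with w hw
        simp [hh, hw]
      exact contDiffAt_const.congr_of_eventuallyEq h3
  have hhc : HasCompactSupport h := χ.hasCompactSupport.mul_right
  have hDh : Dens h c R K := by
    refine ⟨hk.hR, hhd.continuous.aestronglyMeasurable, fun y => ?_, fun y hy => ?_⟩
    · simp only [hh, abs_mul]
      rw [abs_of_nonneg χ.nonneg]
      calc χ y * |k y| ≤ 1 * |k y| := mul_le_mul_of_nonneg_right χ.le_one (abs_nonneg _)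
        _ = |k y| := one_mul _
        _ ≤ K := hk.bound y
    · simp [hh, hk.supp y hy]
  have hDg : Dens g c R K := by
    refine ⟨hk.hR, ?_, fun y => ?_, fun y hy => ?_⟩
    · exact ((continuous_const.sub χ.continuous).aestronglyMeasurable).mul hk.meas
    · simp only [hg, abs_mul]
      rw [abs_of_nonneg (by linarith [χ.le_one (x := y)])]
      calc (1 - χ y) * |k y| ≤ 1 * |k y| :=
            mul_le_mul_of_nonneg_right (by linarith [χ.nonneg (x := y)]) (abs_nonneg _)
        _ = |k y| := one_mul _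
        _ ≤ K := hk.bound y
    · simp [hg, hk.supp y hy]
  have hg0 : ∀ y ∈ ball x (δ / 4), g y = 0 := by
    intro y hy
    have : χ y = 1 := χ.one_of_mem_closedBall (ball_subset_closedBall hy)
    simp [hg, this]
  have hpot : pot k = fun z => pot h z + pot g z := by
    ext z
    rw [pot, pot, pot, ← integral_add (hDh.int_log z) (hDg.int_log z)]
    congr 1
    ext y
    simp only [hh, hg]
    ring
  -- the holomorphic part
  have hhol : ∀ z ∈ ball x (δ / 8), DifferentiableAt ℂ (cau g) z := by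
    intro z hz
    refine (hDg.hasDerivAt_cau (δ := δ / 8) (by positivity) ?_).differentiableAt
    intro y hy
    apply hg0
    rw [mem_ball] at hz hy ⊢
    have := dist_triangle y z x
    linarith
  have hana : AnalyticAt ℂ (cau g) x := by
    apply DifferentiableOn.analyticAt (s := ball x (δ / 8))
    · exact fun z hz => (hhol z hz).differentiableWithinAt
    · exact ball_mem_nhds x (by positivity)
  have hgC : ContDiffAt ℝ 1 (cau g) x := (hana.contDiffAt (n := 1)).restrict_scalars ℝ
  have hhC : ContDiff ℝ 1 (cau h) := contDiff_cau hhd hhc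
  have hF : ContDiffAt ℝ 1 (fun z => cau h z + cau g z) x := hhC.contDiffAt.add hgC
  have hu : ∀ᶠ z in 𝓝 x, HasFDerivAt (pot k) (gradL (cau h z + cau g z)) z := by
    refine Eventually.of_forall fun z => ?_
    rw [hpot, map_add]
    exact (hDh.hasFDerivAt_pot z).add (hDg.hasFDerivAt_pot z)
  obtain ⟨h1, h2⟩ := laplacian_of_gradient hF hu
  refine ⟨h1, ?_⟩
  rw [h2]
  have hdh : DifferentiableAt ℝ (cau h) x := hhC.contDiffAt.differentiableAt (by norm_num)
  have hdg : DifferentiableAt ℝ (cau g) x := hgC.differentiableAt (by norm_num)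
  have e1 : fderiv ℝ (fun z => cau h z + cau g z) x = fderiv ℝ (cau h) x + fderiv ℝ (cau g) x :=
    fderiv_add hdh hdg
  have e2 : ∀ v, fderiv ℝ (cau g) x v = deriv (cau g) x * v := by
    intro v
    have h3 := (hhol x (mem_ball_self (by positivity))).hasDerivAt.complexToReal_fderiv.fderiv
    rw [h3]
    simp
  rw [e1]
  simp only [add_apply]
  rw [e2, e2, fderiv_cau hhd hhc, fderiv_cau hhd hhc]
  have hP := pompeiu hhd hhc x
  have hkx' : h x = k x := by
    have : χ x = 1 := χ.one_of_mem_closedBall (mem_closedBall_self χ.rIn_pos.le)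
    simp [hh, this]
  rw [← hkx', ← hP]
  have e5 : deriv (cau g) x * Complex.I * Complex.I = -deriv (cau g) x := by
    rw [mul_assoc, Complex.I_mul_I]; ring
  rw [add_mul, e5]
  simp only [Complex.add_re, Complex.neg_re, mul_one]
  ring

end Pool.Agent.Lib.MP_dc9025_an
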