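import Pool.Agent.Lib.MP_dc9025_an.Regular
import Pool.Agent.Lib.MP_dc9025_an.Poisson

/-!
# The semilinear Dirichlet problem on small discs
-/

set_option autoImplicit false

open Metric Set Filter Topology MeasureTheory InnerProductSpace Laplacian

namespace Pool.Agent.Lib.MP_dc9025_an

/-- Green potential of the density `k` on the disc. -/
noncomputable def grn (c : ℂ) (r : ℝ) (k : ℂ → ℝ) (z : ℂ) : ℝ :=
  (hext c r (pot k) z - pot k z) / (2 * Real.pi)

theorem grn_of_notMem {c z : ℂ} {r : ℝ} {k : ℂ → ℝ} (hz : z ∉ ball c r) : grn c r k z = 0 := by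
  rw [grn, hext_of_notMem hz, sub_self, zero_div]

theorem norm_gradL_le (a : ℂ) : ‖gradL a‖ ≤ ‖a‖ := by
  apply ContinuousLinearMap.opNorm_le_bound _ (norm_nonneg _)
  intro v
  rw [gradL_apply, Real.norm_eq_abs, ← norm_mul]
  exact Complex.abs_re_le_norm _

/-- universal constant for the Green potential bound -/
noncomputable def cG : ℝ := 4 * kapMass 3

theorem cG_nonneg : 0 ≤ cG := mul_nonneg (by norm_num) (kapMass_nonneg 3)

theorem Dens.pot_sub_le {k : ℂ → ℝ} {c : ℂ} {r K : ℝ} (hk : Dens k c r K) (hr1 : r ≤ 1)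
    {z ζ : ℂ} (hz : z ∈ closedBall c r) (hζ : ζ ∈ closedBall c r) :
    |pot k ζ - pot k z| ≤ cG * K * (2 * r) := by
  have h1 : ∀ x ∈ closedBall c r, HasFDerivWithinAt (pot k) (gradL (cau k x)) (closedBall c r) x :=
    fun x _ => (hk.hasFDerivAt_pot x).hasFDerivWithinAt
  have h2 : ∀ x ∈ closedBall c r, ‖gradL (cau k x)‖ ≤ cG * K := by
    intro x hx
    refine (norm_gradL_le _).trans ?_
    rw [mem_closedBall] at hx
    have := hk.cau_bound (z := x) (ρ := 3) (by linarith)
    refine this.trans (le_of_eq ?_)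
    rw [cG]; ring
  have h3 := (convex_closedBall c r).norm_image_sub_le_of_norm_hasFDerivWithin_le h1 h2 hz hζ
  rw [Real.norm_eq_abs] at h3
  refine h3.trans ?_
  apply mul_le_mul_of_nonneg_left _ (mul_nonneg cG_nonneg hk.nonneg)
  rw [← dist_eq_norm]
  rw [mem_closedBall] at hz hζ
  have := dist_triangle ζ c z
  rw [dist_comm c z] at this
  linarith

theorem Dens.grn_bound {k : ℂ → ℝ} {c : ℂ} {r K : ℝ} (hk : Dens k c r K) (hr1 : r ≤ 1)
    (z : ℂ) : |grn c r k z| ≤ cG * K * r := by
  have hK := hk.nonneg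
  by_cases hz : z ∈ ball c r
  · have hr : 0 < r := pos_of_mem_ball hz
    rw [grn, hext_of_mem hz, abs_div, abs_of_pos (by positivity : 0 < 2 * Real.pi)]
    have h1 : |poi c r (pot k) z - pot k z| ≤ cG * K * (2 * r) := by
      apply poi_abs_sub_le
      · exact hk.continuous_pot.continuousOn.circleIntegrable hr.le
      · exact hz
      · intro ζ hζ
        exact hk.pot_sub_le hr1 (ball_subset_closedBall hz) (sphere_subset_closedBall hζ)
    rw [div_le_iff₀ (by positivity)]
    have h2 : 0 ≤ cG * K * r := mul_nonneg (mul_nonneg cG_nonneg hK) hr.le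
    have h3 := Real.pi_gt_three
    nlinarith
  · rw [grn_of_notMem hz, abs_zero]
    exact mul_nonneg (mul_nonneg cG_nonneg hK) hk.hR

/-- `v'` solves `-Δ v' = f(v')` in the disc (in integral form) and agrees with `v` outside. -/
structure IsLift (f : ℝ → ℝ) (c : ℂ) (r : ℝ) (v v' : ℂ → ℝ) : Prop where
  cont : ContinuousOn v' (closedBall c r)
  eq : ∀ z, v' z = hext c r v z + grn c r ((ball c r).indicator (fun y => f (v' y))) z

theorem IsLift.eq_of_notMem {f : ℝ → ℝ} {c : ℂ} {r : ℝ} {v v' : ℂ → ℝ} (h : IsLift f c r v v')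
    {z : ℂ} (hz : z ∉ ball c r) : v' z = v z := by
  rw [h.eq z, hext_of_notMem hz, grn_of_notMem hz, add_zero]

theorem dens_of_continuousOn {g : ℂ → ℝ} {c : ℂ} {r K : ℝ} (hr : 0 ≤ r)
    (hg : ContinuousOn g (ball c r)) (hK : 0 ≤ K) (hb : ∀ z ∈ ball c r, |g z| ≤ K) :
    Dens ((ball c r).indicator g) c r K := by
  refine ⟨hr, ?_, fun y => ?_, fun y hy => ?_⟩
  · exact (aestronglyMeasurable_indicator_iff measurableSet_ball).2
      (hg.aestronglyMeasurable measurableSet_ball)
  · by_cases hy : y ∈ ball c r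
    · rw [indicator_of_mem hy]; exact hb y hy
    · rw [indicator_of_notMem hy, abs_zero]; exact hK
  · exact indicator_of_notMem (fun h => hy (ball_subset_closedBall h)) _

/-- bounded version on closed ball -/
theorem dens_of_continuousOn_closedBall {g : ℂ → ℝ} {c : ℂ} {r : ℝ} (hr : 0 ≤ r)
    (hg : ContinuousOn g (closedBall c r)) :
    ∃ K, Dens ((ball c r).indicator g) c r K := by
  obtain ⟨K, hK⟩ := (isCompact_closedBall c r).exists_bound_of_continuousOn hg
  refine ⟨K, dens_of_continuousOn hr (hg.mono ball_subset_closedBall)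
    ((norm_nonneg _).trans (hK c (mem_closedBall_self hr))) fun z hz => ?_⟩
  exact hK z (ball_subset_closedBall hz)

/-- Bootstrap: a bounded solution of the integral equation is a classical solution. -/
theorem bootstrap {f : ℝ → ℝ} (hf : ContDiff ℝ 1 f) {c : ℂ} {r K : ℝ} (hr : 0 < r)
    {φ w : ℂ → ℝ} (hφ : CircleIntegrable φ c r)
    (hk : Dens ((ball c r).indicator (fun y => f (w y))) c r K)
    (hw : ∀ z ∈ ball c r, w z = poi c r φ z +
      grn c r ((ball c r).indicator (fun y => f (w y))) z) :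
    ∀ z ∈ ball c r, ContDiffAt ℝ 2 w z ∧ Δ w z = -f (w z) := by
  set k := (ball c r).indicator (fun y => f (w y)) with hkdef
  have hpotC : ContDiff ℝ 1 (pot k) := by
    rw [contDiff_one_iff_hasFDerivAt]
    exact ⟨fun z => gradL (cau k z), gradL.continuous.comp hk.continuous_cau,
      fun z => hk.hasFDerivAt_pot z⟩
  have hci : CircleIntegrable (pot k) c r := hpotC.continuous.continuousOn.circleIntegrable hr.le
  have hw' : ∀ z ∈ ball c r, w =ᶠ[𝓝 z] fun y => poi c r φ y +
      (poi c r (pot k) y - pot k y) / (2 * Real.pi) := by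
    intro z hz
    filter_upwards [isOpen_ball.mem_nhds hz] with y hy
    rw [hw y hy, grn, hext_of_mem hy]
  -- first regularity
  have hC1 : ContDiffOn ℝ 1 w (ball c r) := by
    intro z hz
    apply ContDiffAt.contDiffWithinAt
    have h1 : ContDiffAt ℝ 1 (poi c r φ) z := (poi_harmonic hφ hz).1.of_le (by norm_num)
    have h2 : ContDiffAt ℝ 1 (poi c r (pot k)) z := (poi_harmonic hci hz).1.of_le (by norm_num)
    have h3 : ContDiffAt ℝ 1 (fun y => poi c r φ y +
      (poi c r (pot k) y - pot k y) / (2 * Real.pi)) z :=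
      h1.add ((h2.sub hpotC.contDiffAt).div_const _)
    exact h3.congr_of_eventuallyEq (hw' z hz)
  have hkC1 : ContDiffOn ℝ 1 k (ball c r) := by
    have : ContDiffOn ℝ 1 (fun y => f (w y)) (ball c r) := hf.comp_contDiffOn hC1
    apply this.congr
    intro y hy
    rw [hkdef, indicator_of_mem hy]
  intro z hz
  obtain ⟨δ, hδ, hδb⟩ := Metric.isOpen_iff.1 isOpen_ball z hz
  obtain ⟨hp1, hp2⟩ := hk.regular hδ (hkC1.mono hδb)
  have h1 := poi_harmonic hφ hz
  have h2 := poi_harmonic hci hz
  have h3 : ContDiffAt ℝ 2 (fun y => poi c r φ y +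
      (poi c r (pot k) y - pot k y) / (2 * Real.pi)) z :=
    h1.1.add ((h2.1.sub hp1).div_const _)
  refine ⟨h3.congr_of_eventuallyEq (hw' z hz), ?_⟩
  rw [(laplacian_congr_nhds (hw' z hz)).eq_of_nhds]
  have e : (fun y => poi c r φ y + (poi c r (pot k) y - pot k y) / (2 * Real.pi)) =
      poi c r φ + (2 * Real.pi)⁻¹ • (poi c r (pot k) - pot k) := by
    ext y
    simp only [Pi.add_apply, Pi.smul_apply, Pi.sub_apply, smul_eq_mul]
    ring
  have h4 : ContDiffAt ℝ 2 (poi c r (pot k) - pot k) z := h2.1.sub hp1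
  have h5 : ContDiffAt ℝ 2 ((2 * Real.pi)⁻¹ • (poi c r (pot k) - pot k)) z :=
    ContDiffAt.const_smul (2 * Real.pi)⁻¹ h4
  rw [e, ContDiffAt.laplacian_add h1.1 h5, laplacian_smul _ h4,
    ContDiffAt.laplacian_sub h2.1 hp1]
  rw [h1.2.eq_of_nhds, h2.2.eq_of_nhds, hp2]
  have : k z = f (w z) := by rw [hkdef, indicator_of_mem hz]
  rw [this]
  simp only [Pi.zero_apply, smul_eq_mul]
  have := Real.pi_pos
  field_simp
  ring

theorem IsLift.classical {f : ℝ → ℝ} (hf : ContDiff ℝ 1 f) {c : ℂ} {r : ℝ} (hr : 0 < r)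
    {v v' : ℂ → ℝ} (hv : ContinuousOn v (sphere c r)) (h : IsLift f c r v v') :
    ∀ z ∈ ball c r, ContDiffAt ℝ 2 v' z ∧ Δ v' z = -f (v' z) := by
  obtain ⟨K, hK⟩ := dens_of_continuousOn_closedBall hr.le
    (hf.continuous.comp_continuousOn h.cont)
  apply bootstrap hf hr (hv.circleIntegrable hr.le) hK
  intro z hz
  rw [h.eq z, hext_of_mem hz]

theorem pot_sub {k₁ k₂ : ℂ → ℝ} {c : ℂ} {r K₁ K₂ : ℝ} (h₁ : Dens k₁ c r K₁) (h₂ : Dens k₂ c r K₂)
    (z : ℂ) : pot (fun y => k₁ y - k₂ y) z = pot k₁ z - pot k₂ z := by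
  rw [pot, pot, pot, ← integral_sub (h₁.int_log z) (h₂.int_log z)]
  congr 1
  ext y
  ring

theorem grn_sub {k₁ k₂ : ℂ → ℝ} {c : ℂ} {r K₁ K₂ : ℝ} (h₁ : Dens k₁ c r K₁) (h₂ : Dens k₂ c r K₂)
    (z : ℂ) : grn c r (fun y => k₁ y - k₂ y) z = grn c r k₁ z - grn c r k₂ z := by
  by_cases hz : z ∈ ball c r
  · have hr : 0 < r := pos_of_mem_ball hz
    rw [grn, grn, grn, hext_of_mem hz, hext_of_mem hz, hext_of_mem hz]
    have e : pot (fun y => k₁ y - k₂ y) = fun z => pot k₁ z - pot k₂ z := by
      ext z; exact pot_sub h₁ h₂ z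
    rw [e, poi_sub (h₁.continuous_pot.continuousOn.circleIntegrable hr.le)
      (h₂.continuous_pot.continuousOn.circleIntegrable hr.le) hz]
    ring
  · rw [grn_of_notMem hz, grn_of_notMem hz, grn_of_notMem hz, sub_self]

/-- Existence of lifts on small discs, by the contraction principle. -/
theorem exists_lift {f : ℝ → ℝ} {L : ℝ} (hL : 0 ≤ L) (hfL : ∀ x y, |f x - f y| ≤ L * |x - y|)
    (hfc : Continuous f) {c : ℂ} {r : ℝ} (hr : 0 < r) (hr1 : r ≤ 1) (hr2 : cG * L * r ≤ 1 / 2)
    {v : ℂ → ℝ} (hv : ContinuousOn v (sphere c r)) : ∃ v', IsLift f c r v v' := by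
  classical
  set X := C(closedBall c r, ℝ) with hX
  have : CompactSpace (closedBall c r) := isCompact_iff_compactSpace.1 (isCompact_closedBall c r)
  let ext : X → ℂ → ℝ := fun W z => if h : z ∈ closedBall c r then W ⟨z, h⟩ else v z
  have hext1 : ∀ (W : X) (z : ℂ) (h : z ∈ closedBall c r), ext W z = W ⟨z, h⟩ :=
    fun W z h => dif_pos h
  have hextc : ∀ W : X, ContinuousOn (ext W) (closedBall c r) := by
    intro W
    rw [continuousOn_iff_continuous_domRestrict]
    have : (closedBall c r).domRestrict (ext W) = W := by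
      ext ⟨z, hz⟩
      exact hext1 W z hz
    rw [this]
    exact W.continuous
  let kk : X → ℂ → ℝ := fun W => (ball c r).indicator (fun y => f (ext W y))
  have hkk : ∀ W : X, ∃ K, Dens (kk W) c r K := fun W =>
    dens_of_continuousOn_closedBall hr.le (hfc.comp_continuousOn (hextc W))
  have hTc : ∀ W : X, ContinuousOn (fun z => hext c r v z + grn c r (kk W) z) (closedBall c r) := by
    intro W
    obtain ⟨K, hK⟩ := hkk W
    apply (continuousOn_hext hr hv).add
    apply ContinuousOn.div_const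
    exact (continuousOn_hext hr hK.continuous_pot.continuousOn).sub
      hK.continuous_pot.continuousOn
  let T : X → X := fun W => ⟨fun z => hext c r v z + grn c r (kk W) z,
    continuousOn_iff_continuous_domRestrict.1 (hTc W)⟩
  have hT : ∀ (W : X) (z : closedBall c r), T W z = hext c r v z + grn c r (kk W) z :=
    fun W z => rfl
  have hTlip : LipschitzWith (1 / 2 : NNReal) T := by
    apply LipschitzWith.of_dist_le_mul
    intro W₁ W₂
    rw [ContinuousMap.dist_le (by positivity)]
    intro z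
    rw [hT, hT, Real.dist_eq]
    obtain ⟨K₁, hK₁⟩ := hkk W₁
    obtain ⟨K₂, hK₂⟩ := hkk W₂
    have e1 : hext c r v z + grn c r (kk W₁) z - (hext c r v z + grn c r (kk W₂) z) =
        grn c r (fun y => kk W₁ y - kk W₂ y) z := by
      rw [grn_sub hK₁ hK₂]; ring
    rw [e1]
    have hD : Dens (fun y => kk W₁ y - kk W₂ y) c r (L * dist W₁ W₂) := by
      refine ⟨hr.le, hK₁.meas.sub hK₂.meas, fun y => ?_, fun y hy => ?_⟩
      · by_cases hy : y ∈ ball c r
        · have hy' := ball_subset_closedBall hy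
          simp only [kk]
          rw [indicator_of_mem hy, indicator_of_mem hy, hext1 W₁ y hy', hext1 W₂ y hy']
          refine (hfL _ _).trans ?_
          apply mul_le_mul_of_nonneg_left _ hL
          rw [← Real.dist_eq]
          exact ContinuousMap.dist_apply_le_dist _
        · simp only [kk]
          rw [indicator_of_notMem hy, indicator_of_notMem hy, sub_self, abs_zero]
          positivity
      · rw [hK₁.supp y hy, hK₂.supp y hy, sub_self]
    refine (hD.grn_bound hr1 z).trans ?_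
    have : cG * (L * dist W₁ W₂) * r = (cG * L * r) * dist W₁ W₂ := by ring
    rw [this]
    have h2 : ((1 / 2 : NNReal) : ℝ) = 1 / 2 := by push_cast; rfl
    rw [h2]
    exact mul_le_mul_of_nonneg_right hr2 dist_nonneg
  have hcon : ContractingWith (1 / 2 : NNReal) T := ⟨by
    rw [div_lt_one (by norm_num)]
    norm_num, hTlip⟩
  have : Nonempty X := ⟨0⟩
  set W := ContractingWith.fixedPoint T hcon with hW
  have hfix : T W = W := hcon.fixedPoint_isFixedPt
  refine ⟨ext W, hextc W, fun z => ?_⟩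
  by_cases hz : z ∈ closedBall c r
  · rw [hext1 W z hz]
    conv_lhs => rw [← hfix]
    rw [hT]
  · have hz' : z ∉ ball c r := fun h => hz (ball_subset_closedBall h)
    rw [hext_of_notMem hz', grn_of_notMem hz', add_zero]
    exact dif_neg hz

end Pool.Agent.Lib.MP_dc9025_an
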