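import Pool.Agent.Lib.MP_dc9025_an.Domain

/-!
# Similarity invariance and the final construction in `ℝ²`
-/

set_option autoImplicit false

open Metric Set Filter Topology InnerProductSpace Laplacian

namespace Pool.Agent.Lib.MP_dc9025_an

section
variable {E F : Type*} [NormedAddCommGroup E] [InnerProductSpace ℝ E] [FiniteDimensional ℝ E]
  [NormedAddCommGroup F] [InnerProductSpace ℝ F] [FiniteDimensional ℝ F]

omit [FiniteDimensional ℝ E] [FiniteDimensional ℝ F] in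
theorem iteratedFDeriv_two_comp_smul (L : E ≃ₗᵢ[ℝ] F) {κ : ℝ} (hκ : κ ≠ 0) (b : F) (u : F → ℝ)
    (x v : E) : iteratedFDeriv ℝ 2 (fun x => u (κ • L x + b)) x ![v, v] =
      κ ^ 2 * iteratedFDeriv ℝ 2 u (κ • L x + b) ![L v, L v] := by
  set M : E ≃L[ℝ] F := L.toContinuousLinearEquiv.trans
    (ContinuousLinearEquiv.smulLeft (Units.mk0 κ hκ)) with hM
  have hMa : ∀ y, M y = κ • L y := fun y => rfl
  set g : F → ℝ := fun y => u (y + b) with hg
  have e1 : (fun x => u (κ • L x + b)) = g ∘ M := by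
    ext y; rfl
  have e2 : iteratedFDeriv ℝ 2 (g ∘ M) x =
      (iteratedFDeriv ℝ 2 g (M x)).compContinuousLinearMap fun _ => (M : E →L[ℝ] F) := by
    have := M.iteratedFDerivWithin_comp_right (f := g) (s := univ) uniqueDiffOn_univ (x := x)
      (mem_univ _) 2
    simpa [iteratedFDerivWithin_univ] using this
  rw [e1, e2, ContinuousMultilinearMap.compContinuousLinearMap_apply]
  have e3 : iteratedFDeriv ℝ 2 g (M x) = iteratedFDeriv ℝ 2 u (M x + b) :=
    iteratedFDeriv_comp_add_right 2 b (M x)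
  rw [e3, hMa]
  have e4 : (fun i : Fin 2 => (M : E →L[ℝ] F) ((![v, v] : Fin 2 → E) i)) =
      fun i => (fun _ : Fin 2 => κ) i • (![L v, L v] : Fin 2 → F) i := by
    ext i
    fin_cases i <;> simp [hMa]
  rw [e4, ContinuousMultilinearMap.map_smul_univ]
  simp [sq]

theorem laplacian_comp_similarity (L : E ≃ₗᵢ[ℝ] F) {κ : ℝ} (hκ : κ ≠ 0) (b : F) (u : F → ℝ)
    (x : E) : Δ (fun x => u (κ • L x + b)) x = κ ^ 2 * Δ u (κ • L x + b) := by
  rw [laplacian_eq_iteratedFDeriv_orthonormalBasis _ (stdOrthonormalBasis ℝ E),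
    laplacian_eq_iteratedFDeriv_orthonormalBasis u ((stdOrthonormalBasis ℝ E).map L)]
  simp only [iteratedFDeriv_two_comp_smul L hκ b u, OrthonormalBasis.map_apply]
  rw [Finset.mul_sum]

/-- the similarity as a homeomorphism -/
noncomputable def simHomeo (L : E ≃ₗᵢ[ℝ] F) {κ : ℝ} (hκ : κ ≠ 0) (b : F) : E ≃ₜ F :=
  (L.toHomeomorph.trans (Homeomorph.smulOfNeZero κ hκ)).trans (Homeomorph.addRight b)

omit [FiniteDimensional ℝ E] [FiniteDimensional ℝ F] in
theorem simHomeo_apply (L : E ≃ₗᵢ[ℝ] F) {κ : ℝ} (hκ : κ ≠ 0) (b : F) (x : E) :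
    simHomeo L hκ b x = κ • L x + b := rfl

theorem IsPosBddSol.comp_similarity {f : ℝ → ℝ} {Ω : Set F} {u : F → ℝ}
    (h : IsPosBddSol f Ω u) (L : E ≃ₗᵢ[ℝ] F) {κ : ℝ} (hκ : κ ≠ 0) (b : F) :
    IsPosBddSol (fun s => κ ^ 2 * f s) ((fun x => κ • L x + b) ⁻¹' Ω)
      (fun x => u (κ • L x + b)) := by
  have hA : ContDiff ℝ 2 (fun x : E => κ • L x + b) :=
    (contDiff_const.smul L.contDiff).add contDiff_const
  have hpre : ∀ s : Set F, (fun x : E => κ • L x + b) ⁻¹' s = simHomeo L hκ b ⁻¹' s := fun s => rfl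
  obtain ⟨M, hM⟩ := h.bounded
  refine ⟨?_, ?_, ?_, ?_, ?_, ⟨M, fun x hx => hM _ hx⟩⟩
  · exact h.contDiffOn.comp hA.contDiffOn fun x hx => hx
  · rw [hpre, ← Homeomorph.preimage_closure]
    exact h.continuousOn.comp hA.continuous.continuousOn fun x hx => hx
  · intro x hx
    rw [laplacian_comp_similarity L hκ b u x, ← h.equation _ hx]
    ring
  · intro x hx
    rw [hpre, ← Homeomorph.preimage_frontier] at hx
    exact h.boundary _ hx
  · intro x hx
    exact h.positive _ hx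

end

/-- The Euclidean plane. -/
abbrev Plane := EuclideanSpace ℝ (Fin 2)

/-- a linear isometry from the plane to `ℂ` sending a given vector to the positive imaginary axis -/
theorem exists_isometry (w : Plane) : ∃ L : Plane ≃ₗᵢ[ℝ] ℂ, L w = (‖w‖ : ℂ) * Complex.I := by
  set L0 : Plane ≃ₗᵢ[ℝ] ℂ := Complex.orthonormalBasisOneI.repr.symm with hL0
  rcases eq_or_ne w 0 with rfl | hw
  · exact ⟨L0, by simp⟩
  · have hn : ‖L0 w‖ = ‖w‖ := L0.norm_map w
    have hw0 : 0 < ‖w‖ := norm_pos_iff.2 hw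
    have hL0w : L0 w ≠ 0 := by
      intro h
      rw [h, norm_zero] at hn
      linarith
    set ω : ℂ := (‖w‖ : ℂ) * Complex.I / L0 w with hω
    have hω1 : ‖ω‖ = 1 := by
      rw [hω, norm_div, norm_mul, Complex.norm_I, mul_one, hn, Complex.norm_real, norm_norm]
      exact div_self hw0.ne'
    set ωc : Circle := ⟨ω, mem_sphere_zero_iff_norm.2 hω1⟩ with hωc
    have hcoe : (ωc : ℂ) = ω := rfl
    refine ⟨L0.trans (rotation ωc), ?_⟩
    have h1 : (L0.trans (rotation ωc)) w = (ωc : ℂ) * L0 w := rfl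
    rw [h1, hcoe, hω]
    field_simp

/-- **Main construction**: two positive bounded solutions for `κ² f`. -/
theorem main (κ : ℝ) (hκ : 0 < κ) (p₁ p₂ : Plane) (r₁ r₂ : ℝ) (h₁ : 1000 ≤ κ * r₁)
    (h₂ : 1000 ≤ κ * r₂) (hd : 2 ≤ κ * (dist p₁ p₂ - r₁ - r₂))
    (hd' : κ * (dist p₁ p₂ - r₁ - r₂) ≤ 101 / 50) :
    ∃ u v : Plane → ℝ,
      IsPosBddSol (fun s => κ ^ 2 * fR s) (closedBall p₁ r₁ ∪ closedBall p₂ r₂)ᶜ u ∧
      IsPosBddSol (fun s => κ ^ 2 * fR s) (closedBall p₁ r₁ ∪ closedBall p₂ r₂)ᶜ v ∧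
      ∃ x ∈ (closedBall p₁ r₁ ∪ closedBall p₂ r₂)ᶜ, u x ≠ v x := by
  set D := dist p₁ p₂ with hD
  set a := κ * (D - r₁ - r₂) / 2 with ha
  obtain ⟨L, hL⟩ := exists_isometry (p₁ - p₂)
  rw [← dist_eq_norm, ← hD] at hL
  set b : ℂ := c2 (κ * r₂) a - κ • L p₂ with hb
  have hA2 : ∀ x, κ • L x + b - c2 (κ * r₂) a = κ • L (x - p₂) := by
    intro x
    rw [hb, map_sub, smul_sub]
    ring
  have hA1 : ∀ x, κ • L x + b - c1 (κ * r₁) a = κ • L (x - p₁) := by
    intro x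
    have e1 : x - p₁ = (x - p₂) - (p₁ - p₂) := by abel
    rw [e1, map_sub, smul_sub, ← hA2 x, hL]
    have e2 : c1 (κ * r₁) a = κ • ((D : ℂ) * Complex.I) + c2 (κ * r₂) a := by
      rw [c1, c2, ha]
      simp only [Complex.real_smul]
      push_cast
      ring
    rw [e2]
    ring
  have hpre : (fun x => κ • L x + b) ⁻¹' Om (κ * r₁) (κ * r₂) a =
      (closedBall p₁ r₁ ∪ closedBall p₂ r₂)ᶜ := by
    ext x
    simp only [Om, mem_preimage, mem_ofPred_eq, hA1, hA2, norm_smul, Real.norm_of_nonneg hκ.le,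
      LinearIsometryEquiv.norm_map, compl_union, mem_inter_iff, mem_compl_iff, mem_closedBall,
      not_le, dist_eq_norm]
    rw [mul_lt_mul_iff_right₀ hκ, mul_lt_mul_iff_right₀ hκ]
  have ha1 : 1 ≤ a := by rw [ha]; linarith
  have ha2 : a ≤ 101 / 100 := by rw [ha]; linarith
  obtain ⟨u, hu, hu0⟩ := exists_high h₁ h₂ ha1
  obtain ⟨v, hv, hv0⟩ := exists_low h₁ h₂ ha1 ha2
  have hu' := hu.comp_similarity L hκ.ne' b
  have hv' := hv.comp_similarity L hκ.ne' b
  rw [hpre] at hu' hv'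
  obtain ⟨x, hx⟩ : ∃ x : Plane, κ • L x + b = 0 := by
    refine ⟨(simHomeo L hκ.ne' b).symm 0, ?_⟩
    rw [← simHomeo_apply L hκ.ne' b]
    simp
  refine ⟨_, _, hu', hv', x, ?_, ?_⟩
  · rw [← hpre, mem_preimage, hx]
    exact zero_mem_Om (by linarith) (by linarith) (by linarith)
  · simp only [hx]
    intro h
    rw [h] at hu0
    linarith

end Pool.Agent.Lib.MP_dc9025_an
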